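import Pool.Agent.Helper81.MT.Trn
import Pool.Agent.Helper84.MT.Evt

/-! Unbounded informations: independence in rates and its stability under extensions, events, labels, truncations and
copies. -/

set_option autoImplicit false

namespace Pool.Agent.Helper38.NSL

open Finset Filter Topology Pool.Agent.Helper69.RK Pool.Agent.Helper31.EC Pool.Agent.Helper31.EC.Sp
open Pool.Agent.Helper40.EL

noncomputable section

/-! ### inequalities in one lattice -/

section PM

variable {L : Type*} [PM L]

theorem I_le_add_left (a a' b c : L) : I a' b c ≤ I a b c + h a' (a ⊔ c) := by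
  have h1 : I (a ⊔ a') b c = I a b c + I a' b (a ⊔ c) := I_chain a a' b c
  have h2 : I a' b c ≤ I (a ⊔ a') b c := I_mono_left (le_sup_right.trans le_sup_left)
  have h3 : I a' b (a ⊔ c) ≤ h a' (a ⊔ c) := by
    have := I_le_h_right b a' (a ⊔ c)
    rwa [I_comm] at this
  linarith

/-- enlarging the condition -/
theorem I_le_cond (a b c d : L) : I a b (c ⊔ d) ≤ I a b c + I a d (b ⊔ c) := by
  have h1 : I a (b ⊔ d) c = I a b c + I a d (b ⊔ c) := I_chain_right a b d c
  have h2 : I a (d ⊔ b) c = I a d c + I a b (d ⊔ c) := I_chain_right a d b c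
  have h3 := I_nonneg a d c
  rw [sup_comm d b] at h2
  rw [sup_comm c d]
  linarith

/-- diminishing the condition -/
theorem I_le_uncond (a b c d : L) : I a b c ≤ I a b (c ⊔ d) + I a d c := by
  have h1 : I a (b ⊔ d) c = I a b c + I a d (b ⊔ c) := I_chain_right a b d c
  have h2 : I a (d ⊔ b) c = I a d c + I a b (d ⊔ c) := I_chain_right a d b c
  have h3 := I_nonneg a d (b ⊔ c)
  rw [sup_comm d b] at h2
  rw [sup_comm c d]
  linarith

end PM

/-- informations over a label -/
theorem _root_.Pool.Agent.Helper40.EL.FLab.I_up_le {F : FSp} (l : FLab F) (c : ℝ) (hc : 0 < c) (x y z : FL F) :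
    I (l.up c hc x) (l.up c hc y) (l.up c hc z) ≤ I x y z + l.leak (y ⊔ z) := by
  have h1 : I (l.up c hc x) (l.up c hc y) (l.up c hc z) = I (l.p.map x) (l.p.map y) (l.p.map z ⊔ l.v) :=
    (frb l.T l.V c hc).I_map _ _ _
  have h2 := I_le_cond (l.p.map x) (l.p.map y) (l.p.map z) l.v
  have h3 : I (l.p.map x) l.v (l.p.map y ⊔ l.p.map z) ≤ l.leak (y ⊔ z) := by
    rw [I_comm, ← l.p.map_sup]
    exact I_mono_right ((l.p.map_le_top x).trans le_sup_left)
  rw [l.p.I_map] at h2
  linarith

/-- informations on an event of an extension -/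
theorem imap_I_le {T F : FSp} (p : FPj T F) (E : T.Ω → Prop) (x y z : FL F) :
    T.pb E * I (FSp.imap p E x) (FSp.imap p E y) (FSp.imap p E z) ≤ I x y z + 1 := by
  rw [← (FSp.imp p E).I_map, FSp.imp_imap, FSp.imp_imap, FSp.imp_imap]
  have h1 := T.rmap_I_le E (p.map x) (p.map y) (p.map z)
  rwa [p.I_map] at h1

/-! ### independence in rates -/

variable {S T : Sp}

/-- `A` and `B` are independent given `C`, in rates -/
def NI (A B C : Part S) : Prop := Nul S (fun k => I (A k) (B k) (C k))

/-- the join of two unbounded informations -/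
def Pjn (A B : Part S) : Part S := fun k => A k ⊔ B k

theorem Pjn_pull (p : Pj T S) (A B : Part S) : (Pjn A B).pull p = Pjn (A.pull p) (B.pull p) := by
  funext k
  exact (p.fp k).map_sup _ _

theorem Pjn_im (p : Pj T S) (E : ∀ k, (T.F k).Ω → Prop) (A B : Part S) :
    (Pjn A B).im p E = Pjn (A.im p E) (B.im p E) := by
  funext k
  exact FSp.imap_sup _ _ _ _

theorem Pjn_up (l : Lab S) (c : ℝ) (hc : 0 < c) (A B : Part S) : l.up c hc (Pjn A B) = Pjn (l.up c hc A) (l.up c hc B) := by
  funext k
  exact (l k).up_sup c hc _ _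

theorem PLe_left (A B : Part S) : PLe A (Pjn A B) := PLe_of_le fun _ => le_sup_left

theorem PLe_right (A B : Part S) : PLe B (Pjn A B) := PLe_of_le fun _ => le_sup_right

theorem PLe.mono_right {A B C : Part S} (h : PLe A B) (hBC : ∀ k, B k ≤ C k) : PLe A C :=
  h.trans (PLe_of_le hBC)

theorem NI.of_le {A B C : Part S} {f : ℕ → ℝ} (hf : Nul S f) (h : ∀ᶠ k in UF, I (A k) (B k) (C k) ≤ f k) : NI A B C :=
  Nul.of_le hf (Eventually.of_forall fun _ => I_nonneg _ _ _) h

theorem NI.symm {A B C : Part S} (h : NI A B C) : NI B A C :=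
  NI.of_le h (Eventually.of_forall fun k => (I_comm (B k) (A k) (C k)).le)

/-- monotonicity in the first argument, modulo the condition -/
theorem NI.mono_left {A A' B C : Part S} (h : NI A B C) (hA : PLe A' (Pjn A C)) : NI A' B C :=
  NI.of_le (Nul.add h hA) (Eventually.of_forall fun k => I_le_add_left (A k) (A' k) (B k) (C k))

theorem NI.mono_right {A B B' C : Part S} (h : NI A B C) (hB : PLe B' (Pjn B C)) : NI A B' C :=
  (h.symm.mono_left hB).symm

/-- enlarging the condition by something known to `B` and the condition -/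
theorem NI.cond {A B C D : Part S} (h : NI A B C) (hD : PLe D (Pjn B C)) : NI A B (Pjn C D) := by
  refine NI.of_le (Nul.add h hD) (Eventually.of_forall fun k => ?_)
  have h1 := I_le_cond (A k) (B k) (C k) (D k)
  have h2 := I_le_h_right (A k) (D k) (B k ⊔ C k)
  exact h1.trans (add_le_add_right h2 _)

/-- diminishing the condition by something independent -/
theorem NI.uncond {A B C D : Part S} (h : NI A B (Pjn C D)) (hD : NI A D C) : NI A B C :=
  NI.of_le (Nul.add h hD) (Eventually.of_forall fun k => I_le_uncond (A k) (B k) (C k) (D k))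

/-- conditions which know each other up to rate zero -/
theorem NI.congr {A B C C' : Part S} (h : NI A B C) (h1 : PLe C C') (h2 : PLe C' C) : NI A B C' := by
  have h3 : NI A B (Pjn C C') := h.cond (h2.trans (PLe_right B C))
  have h4 : NI A B (Pjn C' C) := by
    have e : Pjn C' C = Pjn C C' := by funext k; exact sup_comm _ _
    rw [e]; exact h3
  refine NI.uncond h4 ?_
  exact NI.of_le h1 (Eventually.of_forall fun k => I_le_h_right (A k) (C k) (C' k))

theorem NI.chain {A A' B C : Part S} (h : NI A B C) (h' : NI A' B (Pjn A C)) : NI (Pjn A A') B C :=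
  NI.of_le (Nul.add h h') (Eventually.of_forall fun k => (I_chain (A k) (A' k) (B k) (C k)).le)

theorem NI.chain_right {A B B' C : Part S} (h : NI A B C) (h' : NI A B' (Pjn B C)) : NI A (Pjn B B') C :=
  (h.symm.chain h'.symm).symm

theorem NI_of_PLe {A B C : Part S} (hA : PLe A C) : NI A B C := by
  refine NI.of_le hA (Eventually.of_forall fun k => ?_)
  have := I_le_h_right (B k) (A k) (C k)
  rwa [I_comm] at this

/-- what is known to both sides is known to the condition -/
theorem PLe_of_NI {A B C D : Part S} (h : NI A B C) (h1 : PLe D (Pjn A C)) (h2 : PLe D (Pjn B C)) : PLe D C := by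
  have h3 : NI D D C := (h.mono_left h1).mono_right h2
  refine Nul.of_le h3 (Eventually.of_forall fun _ => h_nonneg _ _) (Eventually.of_forall fun k => ?_)
  exact (I_self (D k) (C k)).ge

/-! ### extensions -/

theorem NI.pull {A B C : Part S} (h : NI A B C) (p : Pj T S) : NI (A.pull p) (B.pull p) (C.pull p) := by
  refine NI.of_le (f := fun k => I (A k) (B k) (C k)) ((Lab.nul_pj p).mpr h) (Eventually.of_forall fun k => ?_)
  exact ((p.fp k).I_map (A k) (B k) (C k)).le

theorem NI.of_pull {A B C : Part S} (p : Pj T S) (h : NI (A.pull p) (B.pull p) (C.pull p)) : NI A B C := by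
  refine NI.of_le ((Lab.nul_pj p).mp h) (Eventually.of_forall fun k => ?_)
  exact ((p.fp k).I_map (A k) (B k) (C k)).ge

theorem PLe_pull {A B : Part S} (hAB : PLe A B) (p : Pj T S) : PLe (A.pull p) (B.pull p) := by
  have e : (fun k => h ((A.pull p) k) ((B.pull p) k)) = fun k => h (A k) (B k) := by
    funext k
    exact (p.fp k).h_map (A k) (B k)
  unfold PLe
  rw [e]
  exact (Lab.nul_pj p).mpr hAB

theorem PLe_of_pull {A B : Part S} (p : Pj T S) (hAB : PLe (A.pull p) (B.pull p)) : PLe A B := by
  have e : (fun k => h ((A.pull p) k) ((B.pull p) k)) = fun k => h (A k) (B k) := by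
    funext k
    exact (p.fp k).h_map (A k) (B k)
  unfold PLe at hAB
  rw [e] at hAB
  exact (Lab.nul_pj p).mp hAB

/-! ### events -/

theorem NI.rest {A B C : Part S} (h : NI A B C) (E : ∀ k, (S.F k).Ω → Prop) (hE : 0 < ul (S.pr E)) :
    NI (A.rest E) (B.rest E) (C.rest E) :=
  Nul.div_pr (S := S) hE h (fun _ => I_nonneg _ _ _) (fun k => (S.F k).rmap_I_le (E k) (A k) (B k) (C k))

theorem NI.im {A B C : Part S} (h : NI A B C) (p : Pj T S) (E : ∀ k, (T.F k).Ω → Prop) (hE : 0 < ul (T.pr E)) :
    NI (A.im p E) (B.im p E) (C.im p E) := by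
  have h1 : Nul T (fun k => I (A k) (B k) (C k)) := (Lab.nul_pj p).mpr h
  have h2 : Nul T (fun k => I (A.im p E k) (B.im p E k) (C.im p E k)) :=
    Nul.div_pr hE h1 (fun _ => I_nonneg _ _ _) (fun k => imap_I_le (p.fp k) (E k) (A k) (B k) (C k))
  exact (Lab.nul_pj p).mp h2

/-- independence on an event is independence in the restricted extension -/
theorem NI.of_im {A B C : Part S} (p : Pj T S) (E : ∀ k, (T.F k).Ω → Prop)
    (h : NI ((A.pull p).rest E) ((B.pull p).rest E) ((C.pull p).rest E)) :
    NI (A.im p E) (B.im p E) (C.im p E) := by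
  apply NI.of_pull (imq p E)
  rw [Part.im_pull, Part.im_pull, Part.im_pull]
  exact h

/-! ### spaces over labels -/

/-- INDEPENDENCE OVER A LABEL: the label is known to `B` and `C` together, up to independent randomness -/
theorem NI.up {A B C : Part S} (h : NI A B C) (l : Lab S) (hl : Nul S (fun k => (l k).leak (B k ⊔ C k))) (c : ℝ)
    (hc : 0 < c) : NI (l.up c hc A) (l.up c hc B) (l.up c hc C) := by
  apply (Lab.nul_over l c hc).mpr
  refine Nul.of_le (Nul.add h hl) (Eventually.of_forall fun _ => I_nonneg _ _ _) (Eventually.of_forall fun k => ?_)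
  exact (l k).I_up_le c hc (A k) (B k) (C k)

/-- the same if the label has no leak at the condition -/
theorem NI.up_cond {A B C : Part S} (h : NI A B C) (l : Lab S) (hl : Nul S (fun k => (l k).leak (C k))) (c : ℝ)
    (hc : 0 < c) : NI (l.up c hc A) (l.up c hc B) (l.up c hc C) :=
  h.up l (hl.of_le (Eventually.of_forall fun _ => FLab.leak_nonneg _ _)
    (Eventually.of_forall fun _ => FLab.leak_anti _ le_sup_right)) c hc

/-- the same if the label has no leak at `B` -/
theorem NI.up_right {A B C : Part S} (h : NI A B C) (l : Lab S) (hl : Nul S (fun k => (l k).leak (B k))) (c : ℝ)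
    (hc : 0 < c) : NI (l.up c hc A) (l.up c hc B) (l.up c hc C) :=
  h.up l (hl.of_le (Eventually.of_forall fun _ => FLab.leak_nonneg _ _)
    (Eventually.of_forall fun _ => FLab.leak_anti _ le_sup_left)) c hc

/-! ### truncations -/

/-- unbounded informations in a space with another depth -/
def tr (r : ℝ) (h0 : 0 < r) (A : Part S) : Part (S.chg S.tr r h0) := fun k => (frb (S.F k) ⊤ r h0).map (A k)

theorem tr_fc (r : ℝ) (h0 : 0 < r) (A : ∀ k, Setoid (S.F k).Ω) :
    tr r h0 (pof A) = pof (S := S.chg S.tr r h0) A := rfl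

theorem Pjn_tr (r : ℝ) (h0 : 0 < r) (A B : Part S) : tr r h0 (Pjn A B) = Pjn (tr r h0 A) (tr r h0 B) := by
  funext k
  exact (frb (S.F k) ⊤ r h0).map_sup _ _

theorem NI_tr_iff {r : ℝ} (h0 : 0 < r) {A B C : Part S} : NI (tr r h0 A) (tr r h0 B) (tr r h0 C) ↔ NI A B C := by
  unfold NI
  rw [Pool.Agent.Helper52.SL.nul_trn]
  have e : (fun k => I (tr r h0 A k) (tr r h0 B k) (tr r h0 C k)) = fun k => I (A k) (B k) (C k) := by
    funext k
    have h1 := (frb (S.F k) ⊤ r h0).I_map (A k) (B k) (C k)
    have h2 : (fc (frb (S.F k) ⊤ r h0).W : FL (S.F k)) = ⊥ := rfl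
    rw [h2, sup_bot_eq] at h1
    exact h1
  rw [e]

theorem PLe_tr_iff {r : ℝ} (h0 : 0 < r) {A B : Part S} : PLe (tr r h0 A) (tr r h0 B) ↔ PLe A B := by
  unfold PLe
  rw [Pool.Agent.Helper52.SL.nul_trn]
  have e : (fun k => h (tr r h0 A k) (tr r h0 B k)) = fun k => h (A k) (B k) := by
    funext k
    have h1 := (frb (S.F k) ⊤ r h0).h_map (A k) (B k)
    have h2 : (fc (frb (S.F k) ⊤ r h0).W : FL (S.F k)) = ⊥ := rfl
    rw [h2, sup_bot_eq] at h1
    exact h1
  rw [e]

/-! ### copies -/

section copy

variable (S) {α : ℕ → Type} (V : ∀ k, (S.F k).Ω → α k)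

/-- the space with a second copy over the variable `V` -/
def cpy : AmD S S := (Pj.id S).join V

/-- the variable as an unbounded information -/
def pv : Part S := fun k => fc (Setoid.ker (V k))

variable {S}

theorem cpy_common : (pv S V).pull (cpy S V).p1 = (pv S V).pull (cpy S V).p2 := by
  funext k
  apply le_antisymm
  · apply fc_le
    intro w w' h h' _ e
    have a := (Pj.id S).join_supp V k w h
    have a' := (Pj.id S).join_supp V k w' h'
    have e' : V k w.2 = V k w'.2 := e
    show V k w.1 = V k w'.1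
    exact a.trans (e'.trans a'.symm)
  · apply fc_le
    intro w w' h h' _ e
    have a := (Pj.id S).join_supp V k w h
    have a' := (Pj.id S).join_supp V k w' h'
    have e' : V k w.1 = V k w'.1 := e
    show V k w.2 = V k w'.2
    exact a.symm.trans (e'.trans a')

/-- the finite amalgam -/
def cpyF (k : ℕ) : FAm (S.F k) (S.F k) where
  α := (cpy S V).α k
  f := (cpy S V).f k
  g := (cpy S V).g k
  law := (cpy S V).law k
  Zr := (cpy S V).Zr k
  hZ1 := (cpy S V).hZ1 k
  hZ2 := (cpy S V).hZ2 k

theorem cpyF_f (k : ℕ) : (fc (Setoid.ker (cpyF V k).f) : FL (S.F k)) = pv S V k := by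
  apply le_antisymm
  · apply fc_le
    intro ω ω' _ _ hZ e
    show (V k ω, Quotient.mk (S.F k).Z ω) = (V k ω', Quotient.mk (S.F k).Z ω')
    have e' : V k ω = V k ω' := e
    rw [e', Quotient.sound hZ]
  · apply fc_le
    intro ω ω' _ _ _ e
    have e' : (V k ω, Quotient.mk (S.F k).Z ω) = (V k ω', Quotient.mk (S.F k).Z ω') := e
    exact (Prod.mk.inj e').1

/-- the two copies are independent over the variable -/
theorem cpy_indep (A B : Part S) (k : ℕ) :
    I ((A.pull (cpy S V).p1) k) ((B.pull (cpy S V).p2) k) (((pv S V).pull (cpy S V).p1) k) = 0 := by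
  have h1 := (cpyF V k).indep (A k) (B k)
  rw [cpyF_f] at h1
  exact h1

theorem cpy_NI (A B : Part S) :
    NI (A.pull (cpy S V).p1) (B.pull (cpy S V).p2) ((pv S V).pull (cpy S V).p1) := by
  unfold NI
  simp only [cpy_indep]
  exact Nul_zero _

end copy

end

end Pool.Agent.Helper38.NSL
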