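import Pool.Agent.Helper3.KL.Near
import Pool.Agent.Helper89.RAK.Dmz
import Pool.Agent.Helper87.NSL.Costr

/-! NSL*, ROUNDING OF THE POINT: forms over K-labels, optimal forms, volumes and entropies do not change if the point is
replaced by a point of the same cell. -/

set_option autoImplicit false

namespace Pool.Agent.Helper38.NSL

open Finset Filter Topology Matrix Pool.Agent.Helper69.RK Pool.Agent.Helper31.EC Pool.Agent.Helper31.EC.Sp
open Pool.Agent.Helper40.EL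
open Pool.Agent.Helper84.MT Pool.Agent.Helper3.LF Pool.Agent.Helper89.LX Pool.Agent.Helper3.KL
open Pool.Agent.Helper89.RAK (rnd rnd_close)

noncomputable section

variable {M D : ℕ} {S : Sp} {κ : Type} {Q Q' : S.VV M} {C : LC S} {A : κ → Part S}

theorem adf_near [Finite κ] (hQ : Cls Q Q') {x : ∀ k, FD (S.F k) (Mon M D)} (hx : (gaq Q D).Adf A x) : (gaq Q' D).Adf A x := by
  rw [Gau.Adf_iff] at hx ⊢
  exact ⟨hx.1, fm_near hQ hx.2⟩

theorem adfK_near [Finite κ] (hQ : Cls Q Q') {x : ∀ k, FD (S.F k) (Mon M D)} (hx : (gaq Q D).AdfK C A x) :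
    (gaq Q' D).AdfK C A x := ⟨adf_near hQ hx.1, hx.2⟩

theorem adfK_near_iff [Finite κ] (hQ : Cls Q Q') {x : ∀ k, FD (S.F k) (Mon M D)} :
    (gaq Q D).AdfK C A x ↔ (gaq Q' D).AdfK C A x := ⟨adfK_near hQ, adfK_near hQ.symm⟩

theorem optfK_near [Finite κ] (hQ : Cls Q Q') {x : ∀ k, FD (S.F k) (Mon M D)} (hx : (gaq Q D).OptfK C A x) :
    (gaq Q' D).OptfK C A x := ⟨adfK_near hQ hx.1, fun y hy => hx.2 y (adfK_near hQ.symm hy)⟩

theorem optfK_near_iff [Finite κ] (hQ : Cls Q Q') {x : ∀ k, FD (S.F k) (Mon M D)} :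
    (gaq Q D).OptfK C A x ↔ (gaq Q' D).OptfK C A x := ⟨optfK_near hQ, optfK_near hQ.symm⟩

theorem vol_near' [Finite κ] (hQ : Cls Q Q') {x : ∀ k, FD (S.F k) (Mon M D)} (hx : (gaq Q D).Adf A x) :
    vol Q' D x = vol Q D x := vol_near hQ (Gau.Adf_iff.mp hx).2

/-- close points have the same digits -/
theorem dg_near_le (hQ : Cls Q Q') (r : ℝ) (hr : r ≤ 1) : Q.dg r ≤ Q'.dg r := by
  obtain ⟨K, hK, h1⟩ := hQ
  apply VV.dg_le_dg _ _ r r (fun _ _ => True) Typ_true (fun k => 1 + 2 * K k)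
    ((S.Sub_const zero_le_one).add ((S.Sub_const zero_le_two).mul hK))
  filter_upwards [h1, hK.1] with k a hK0 ω ω' b c _ _ _ hd j
  have h2 := a ω b j
  have h3 := a ω' c j
  have h4 := hd j
  have h5 := S.dl_anti hr k
  have h6 := S.dl_pos 1 k
  have h7 : K k * S.dl 1 k ≤ K k * S.dl r k := mul_le_mul_of_nonneg_left h5 hK0
  rw [abs_le] at h2 h3 h4 ⊢
  constructor <;> nlinarith

theorem dg_near (hQ : Cls Q Q') (r : ℝ) (hr : r ≤ 1) : Q.dg r = Q'.dg r :=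
  le_antisymm (dg_near_le hQ r hr) (dg_near_le hQ.symm r hr)

/-! ### the rounded point -/

theorem cls_rnd (Q : S.VV M) : Cls Q (rnd Q) :=
  ⟨fun _ => 1, S.Sub_const zero_le_one, Eventually.of_forall fun k ω _ i => by
    rw [one_mul]
    exact rnd_close Q k ω i⟩

theorem cellv_rnd (Q : S.VV M) (k : ℕ) : (rnd Q).cellv 1 k = Q.cellv 1 k := by
  funext ω i
  have h0 := (S.dl_pos 1 k).ne'
  show ⌊(rnd Q).v k ω i / S.dl 1 k⌋ = ⌊Q.v k ω i / S.dl 1 k⌋
  have e1 : (rnd Q).v k ω i = ⌊Q.v k ω i / S.dl 1 k⌋ * S.dl 1 k := rfl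
  rw [e1, mul_div_cancel_right₀ _ h0, Int.floor_intCast]

end

end Pool.Agent.Helper38.NSL
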