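import Pool.Agent.Helper38.NSL.Tc3

/-! NSL*, TRANSVERSALITY WITH A THRESHOLD: `K e + g₀ < γ`. All closures of `NHE` (the case `g₀ = 0`). -/

set_option autoImplicit false

namespace Pool.Agent.Helper38.NSL

open Finset Filter Topology Matrix Pool.Agent.Helper69.RK Pool.Agent.Helper31.EC Pool.Agent.Helper31.EC.Sp
open Pool.Agent.Helper40.EL
open Pool.Agent.Helper84.MT Pool.Agent.Helper3.LF Pool.Agent.Helper59.LF Pool.Agent.Helper89.LX
open Pool.Agent.Helper48.NS Pool.Agent.Helper49.MD Pool.Agent.Helper87.NSL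
open Pool.Agent.Helper14.MC (gexq gexq_bd gexq_UB gexq_nonneg GQ_dom gx vx vx_UB vol_eq)
open Pool.Agent.Helper59.EV (sum_split_le)

noncomputable section

variable {M D : ℕ} {S : Sp} {κ κ' : Type}

/-- TRANSVERSAL WITH THRESHOLD `g₀`: the partitions of the family have no close forms of degree `D` with exponents at least
`γ` on events of positive mass, as soon as `K e + g₀ < γ` for the closeness `e` -/
def NHEt (Q : S.VV M) (D : ℕ) (W : κ → ∀ k, Setoid (S.F k).Ω) (K g₀ : ℝ) : Prop :=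
  ∀ e γ p : ℝ, 0 < e → K * e + g₀ < γ → 0 < p → ∀ᶠ k in UF, ¬ HasE (S.F k) M D (Q.v k) (fun i => W i k) e γ p

variable {Q : S.VV M} {W : κ → ∀ k, Setoid (S.F k).Ω} {K g₀ : ℝ}

theorem NHEt_zero : NHEt Q D W K 0 ↔ NHE Q D W K := by
  constructor
  · intro h e γ p he hγ hp
    exact h e γ p he (by rw [add_zero]; exact hγ) hp
  · intro h e γ p he hγ hp
    exact h e γ p he (by rw [add_zero] at hγ; exact hγ) hp

theorem NHE.nhet (h : NHE Q D W K) (h0 : 0 ≤ g₀) : NHEt Q D W K g₀ := fun e γ p he hγ hp =>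
  h e γ p he (by linarith) hp

theorem NHEt.nhe (h : NHEt Q D W K g₀) (h0 : g₀ ≤ 0) : NHE Q D W K := fun e γ p he hγ hp =>
  h e γ p he (by linarith) hp

theorem NHEt.mono {K' g₁ : ℝ} (h : NHEt Q D W K g₀) (hK : K ≤ K') (hg : g₀ ≤ g₁) : NHEt Q D W K' g₁ := by
  intro e γ p he hγ hp
  exact h e γ p he (lt_of_le_of_lt (add_le_add (mul_le_mul_of_nonneg_right hK he.le) hg) hγ) hp

/-- a threshold which is reached from above -/
theorem NHEt.of_add (h : ∀ δ : ℝ, 0 < δ → NHEt Q D W K (g₀ + δ)) : NHEt Q D W K g₀ := by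
  intro e γ p he hγ hp
  exact h ((γ - (K * e + g₀)) / 2) (by linarith) e γ p he (by linarith) hp

/-- larger families of coarser partitions -/
theorem NHEt.ren {W' : κ' → ∀ k, Setoid (S.F k).Ω} (h : NHEt Q D W K g₀) (f : κ → κ')
    (hf : ∀ᶠ k in UF, ∀ i ω ω', (S.F k).μ ω ≠ 0 → (S.F k).μ ω' ≠ 0 →
      (S.F k).Z ω ω' → W i k ω ω' → W' (f i) k ω ω') : NHEt Q D W' K g₀ := by
  intro e γ p he hγ hp
  filter_upwards [h e γ p he hγ hp, hf] with k a b hc
  exact a (hc.ren f b)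

/-- the same partitions eventually -/
theorem NHEt.congr {Q' : S.VV M} {W' : κ → ∀ k, Setoid (S.F k).Ω} (h : NHEt Q D W K g₀)
    (hQ : ∀ᶠ k in UF, Q.v k = Q'.v k) (hf : ∀ᶠ k in UF, ∀ i, W i k = W' i k) : NHEt Q' D W' K g₀ := by
  intro e γ p he hγ hp
  filter_upwards [h e γ p he hγ hp, hQ, hf] with k a b c hc
  apply a
  rw [b]
  have e1 : (fun i => W i k) = fun i => W' i k := funext c
  rw [e1]
  exact hc

/-- EVENTS OF EXTENSIONS -/
theorem NHEt.im (h : NHEt Q D W K g₀) {T : Sp} (q : Pj T S)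
    (E : ∀ k, (T.F k).Ω → Prop) (hE : 0 < ul (T.pr E)) : NHEt (S := Sp.im q E) (Q.im q E) D W K g₀ := by
  intro e γ p he hγ hp
  have hU : UB (T.pr E) := UB_of_nonneg_le (C := 1) (Eventually.of_forall fun k => (T.F k).pb_nonneg (E k))
    (Eventually.of_forall fun k => (T.F k).pb_le_one (E k))
  obtain ⟨q0, hq0, hq1⟩ : ∃ q0, 0 < q0 ∧ q0 < ul (T.pr E) := ⟨ul (T.pr E) / 2, by linarith, by linarith⟩
  filter_upwards [h e γ (q0 * p) he hγ (mul_pos hq0 hp), (ul_tendsto hU).eventually (lt_mem_nhds hq1)] with k a b hc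
  apply a
  have h1 : (T.F k).pb (E k) ≠ 0 := by
    have : q0 < (T.F k).pb (E k) := b
    linarith
  have h2 := HasE.im (q.fp k) (E k) h1 (F := S.F k) (Q := Q.v k) hc
  exact h2.mono le_rfl le_rfl (mul_le_mul_of_nonneg_right b.le hp.le)

/-- KERNELS OF THE RESOLUTION -/
theorem NHEt.copy {R : ∀ k, Setoid (S.F k).Ω} (h : NHEt Q D (optW R W) K g₀) {T : Sp} (q : Pj T S)
    (V : ∀ k, Setoid (T.F k).Ω) (hV : ∀ᶠ k in UF, I (fc (V k)) (q.fp k).top ((q.fp k).map (fc (R k))) = 0) :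
    NHEt (S := T) (q.vv Q) D (optW V fun i => q.pb (W i)) K g₀ := by
  intro e γ p he hγ hp
  filter_upwards [h e γ p he hγ hp, hV] with k a b hc
  apply a
  have e1 : (fun i => optW R W i k) = optS (R k) fun i => W i k := by
    funext i
    cases i <;> rfl
  have e2 : (fun i => optW V (fun i => q.pb (W i)) i k) =
      optS (V k) fun i => Setoid.comap (q.π k) (W i k) := by
    funext i
    cases i <;> rfl
  rw [e1]
  rw [e2] at hc
  exact HasE.sel (F := S.F k) (⟨T.F k, q.fp k, q.hn k, V k⟩ : FLab (S.F k)) b hc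

/-- a system of partitions with a distinguished one -/
theorem NHEt.split [DecidableEq κ] (h : NHEt Q D W K g₀) (i0 : κ) :
    NHEt Q D (optW (W i0) fun i : {i : κ // i ≠ i0} => W i) K g₀ := by
  refine h.ren (fun i => if hi : i = i0 then none else some ⟨i, hi⟩) (Eventually.of_forall fun k i ω ω' _ _ _ hw => ?_)
  beta_reduce
  by_cases hi : i = i0
  · rw [dif_pos hi]
    subst hi
    exact hw
  · rw [dif_neg hi]
    exact hw

/-- pull back to extensions -/
theorem NHEt.pull [Nonempty κ] (h : NHEt Q D W K g₀) {T : Sp} (q : Pj T S) :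
    NHEt (S := T) (q.vv Q) D (fun i => q.pb (W i)) K g₀ := by
  classical
  obtain ⟨i0⟩ := ‹Nonempty κ›
  have h1 := (h.split i0).copy q (q.pb (W i0)) (Eventually.of_forall fun k => by
    apply I_zero_of_le_left
    exact le_rfl)
  refine h1.ren (fun o => match o with | none => i0 | some i => i) (Eventually.of_forall fun k i ω ω' _ _ _ hw => ?_)
  cases i with
  | none => exact hw
  | some i => exact hw

/-- ONE COPY: the partition `W i0` of the family is replaced by a partition of an extension which is independent of the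
space given `W i0` -/
theorem NHEt.copy_at [DecidableEq κ] (h : NHEt Q D W K g₀) (i0 : κ)
    {T : Sp} (q : Pj T S) (V : ∀ k, Setoid (T.F k).Ω)
    (hV : ∀ᶠ k in UF, I (fc (V k)) (q.fp k).top ((q.fp k).map (fc (W i0 k))) = 0) :
    NHEt (S := T) (q.vv Q) D (Function.update (fun i => q.pb (W i)) i0 V) K g₀ := by
  have h1 := (h.split i0).copy q V hV
  refine h1.ren (fun o => match o with | none => i0 | some i => i) (Eventually.of_forall fun k i ω ω' _ _ _ hw => ?_)
  cases i with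
  | none =>
    show Function.update (fun i => q.pb (W i)) i0 V i0 k ω ω'
    rw [Function.update_self]
    exact hw
  | some i =>
    show Function.update (fun i => q.pb (W i)) i0 V i k ω ω'
    rw [Function.update_of_ne i.2]
    exact hw

/-- FORMS KNOWN TO A TRANSVERSAL FAMILY HAVE SMALL EXPONENTS -/
theorem NHEt.vol_ge [Finite κ] [Nonempty κ] (h : NHEt Q D W K g₀)
    (hK : 0 ≤ K) (hg : 0 ≤ g₀) {κ' : Type} {A : κ' → Part S} {x : ∀ k, FD (S.F k) (Mon M D)} (hx : (gaq Q D).Adf A x)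
    (hW : ∀ i, KnW (W i) x) : (M : ℝ) - g₀ ≤ vol Q D x := by
  rw [vol_eq]
  by_contra hc
  obtain ⟨g0, hg0, hg1⟩ : ∃ g0, g0 = ul (vx Q x) - g₀ ∧ 0 < g0 := ⟨_, rfl, by linarith⟩
  have hK0 := K0_nonneg M D
  obtain ⟨e, he, he1, he2⟩ : ∃ e : ℝ, 0 < e ∧ K * e + e * M / 2 < g0 / 4 ∧ (K0 M D + 1) * (e + e) ≤ g0 / 4 := by
    refine ⟨min (g0 / (4 * (2 * (K + M + 1)))) (g0 / (8 * (K0 M D + 1))), lt_min (by positivity) (by positivity), ?_, ?_⟩
    · have h1 := min_le_left (g0 / (4 * (2 * (K + M + 1)))) (g0 / (8 * (K0 M D + 1)))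
      have h2 : 0 < min (g0 / (4 * (2 * (K + M + 1)))) (g0 / (8 * (K0 M D + 1))) :=
        lt_min (by positivity) (by positivity)
      set m := min (g0 / (4 * (2 * (K + M + 1)))) (g0 / (8 * (K0 M D + 1)))
      have h3 : m * (K + M + 1) ≤ g0 / 8 := by
        rw [le_div_iff₀ (by positivity)] at h1
        linarith
      have h4 : (0 : ℝ) ≤ M := Nat.cast_nonneg M
      have h5 : K * m + m * M / 2 ≤ m * (K + M + 1) := by nlinarith
      linarith
    · have h1 := min_le_right (g0 / (4 * (2 * (K + M + 1)))) (g0 / (8 * (K0 M D + 1)))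
      set m := min (g0 / (4 * (2 * (K + M + 1)))) (g0 / (8 * (K0 M D + 1)))
      rw [le_div_iff₀ (by positivity)] at h1
      linarith
  have h1 := hasF_of_knw Q W hx hW he (γ := g₀ + g0 / 2) (by linarith)
  have h2 := hasE_of_hasF (D := D) Q
  have h3 := h e (g₀ + g0 / 4 - e * M / 2) e he (by linarith) he
  obtain ⟨k, a, b, c⟩ := (h1.and (h2.and h3)).exists
  exact c (b κ ‹_› _ e (g₀ + g0 / 2) (g₀ + g0 / 4) e he.le (by linarith) (by linarith) a)

/-- K-LABELS: forms over a kernel of the resolution which are known to the partitions have small exponents, if the family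
with the resolution is transversal -/
theorem NHEt.vol_geK [Finite κ] [Nonempty κ] {R : ∀ k, Setoid (S.F k).Ω} (h : NHEt Q D (optW R W) K g₀)
    (hK : 0 ≤ K) (hg : 0 ≤ g₀) {κ' : Type} {A : κ' → Part S} {x : ∀ k, FD (S.F k) (Mon M D)}
    (hx : (gaq Q D).Adf A x) (hR : ∀ᶠ k in UF, (x k).l.leak (fc (R k)) = 0) (hW : ∀ i, KnW (W i) x) :
    (M : ℝ) - g₀ ≤ vol Q D x := by
  apply h.vol_ge hK hg hx
  intro i
  cases i with
  | none => exact knW_of_leak hx hR (hW (Classical.arbitrary κ))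
  | some i => exact hW i

/-- STABLE SYSTEMS ARE TRANSVERSAL, with threshold -/
theorem nhet_of_stab {E : ℕ → ℕ} {ι : Type} [Finite ι] (s : MSys S M E ι) (R : ∀ k, Setoid (S.F k).Ω) (c : ℝ)
    (V : κ → ι) (hcov : ∀ i, ∃ j, Cov s c (V j) i)
    (hst : ∀ (A : ∀ k, (S.F k).Ω → Prop) (hA : 0 < ul (S.pr A))
      (x : ∀ k, FD ((Sp.im (Pj.id S) A).F k) (Mon M D)),
      (gaq (s.im (Pj.id S) A hA).Q D).AdfK (LC.kz (S := Sp.im (Pj.id S) A) fun k => fc (R k))
        (cndR (s.im (Pj.id S) A hA) R c) x → (M : ℝ) - g₀ ≤ vol (s.im (Pj.id S) A hA).Q D x) :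
    NHEt s.Q D (optW R fun j => wn s c (V j)) (C3 M D) g₀ := by
  intro e γ p he hγ hp
  by_contra hn
  have h1 : ∀ᶠ k in UF, HasE (S.F k) M D (s.Q.v k) (fun i => optW R (fun j => wn s c (V j)) i k) e γ p := by
    filter_upwards [UF_not hn] with k hk
    exact not_not.mp hk
  obtain ⟨A, hA, G, hG1, hG2⟩ := kform_of_hasE s R c V hcov he hp h1
  have h2 := hst A hA _ hG1
  rw [vol_eq] at h2
  have h3 := vx_onG_ge hG1.1 hG2
  linarith

/-! ### truncations -/

/-- TRANSVERSALITY OF TRUNCATIONS, with threshold -/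
theorem NHEt.trn (h : NHEt Q D W K g₀) (hK : 0 ≤ K) {r : ℝ} (h0 : 0 < r) (h1 : r < 1) {g₁ : ℝ} (hg : g₀ ≤ g₁ * r) :
    NHEt (S := S.chg S.tr r h0) (Q.chg S.tr r h0) D W K g₁ := by
  intro e γ p he hγ hp
  have h2 : 0 < (γ - (K * e + g₁)) * r := mul_pos (by linarith) h0
  obtain ⟨ε, hε, hε1⟩ : ∃ ε : ℝ, 0 < ε ∧ K * (e * r + ε) + g₀ < γ * r := by
    refine ⟨((γ - (K * e + g₁)) * r) / (2 * (K + 1)), div_pos h2 (by linarith), ?_⟩
    have h3 : K * (((γ - (K * e + g₁)) * r) / (2 * (K + 1))) ≤ ((γ - (K * e + g₁)) * r) / 2 := by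
      rw [mul_div_assoc', div_le_div_iff₀ (by linarith) (by norm_num)]
      nlinarith
    have h4 : K * (e * r + ((γ - (K * e + g₁)) * r) / (2 * (K + 1))) = K * e * r +
      K * (((γ - (K * e + g₁)) * r) / (2 * (K + 1))) := by ring
    rw [h4]
    nlinarith
  have hcT : (0 : ℝ) ≤ cT M D := by
    unfold cT
    have := Pool.Agent.Helper3.LF.nn_one M D
    positivity
  have hcT2 : (0 : ℝ) ≤ cT2 M D := by
    unfold cT2 shC
    have := Pool.Agent.Helper3.LF.nn_one M D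
    positivity
  have h5 : (0 : ℝ) < (2 * (D : ℝ) + 1 + 1) * (1 - r) := mul_pos (by positivity) (by linarith)
  filter_upwards [h (e * r + ε) (γ * r) p (by positivity) hε1 hp, (S.Sub_const hcT).eventually_le hε,
    (S.Sub_const hcT2).eventually_le h5] with k a b c hE
  exact a (HasE.untrn (F := S.F k) h0 h1 hε.le (by linarith) (by linarith) hE)

/-! ### slow limits -/

/-- the slowness conditions of transversality with a threshold -/
def trGt {S : ℕ → Sp} (Q : ∀ j, (S j).VV M) (W : κ → ∀ j k, Setoid ((S j).F k).Ω) (D : ℕ) (K g₀ : ℝ)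
    (i j k : ℕ) : Prop :=
  ∀ q : ℚ × ℚ × ℚ, Encodable.decode i = some q → (0 : ℝ) < q.1 → K * q.1 + g₀ < q.2.1 → (0 : ℝ) < q.2.2 →
    ¬ HasE ((S j).F k) M D ((Q j).v k) (fun o => W o j k) q.1 q.2.1 q.2.2

theorem trGt_ev {S : ℕ → Sp} {Q : ∀ j, (S j).VV M} {W : κ → ∀ j k, Setoid ((S j).F k).Ω}
    (h : ∀ j, NHEt (Q j) D (fun o => W o j) K g₀) (i j : ℕ) : ∀ᶠ k in UF, trGt Q W D K g₀ i j k := by
  cases hd : (Encodable.decode i : Option (ℚ × ℚ × ℚ)) with
  | none =>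
    refine Eventually.of_forall fun k q hq => ?_
    rw [hd] at hq
    exact absurd hq (by simp)
  | some q =>
    by_cases h1 : (0 : ℝ) < q.1 ∧ K * q.1 + g₀ < q.2.1 ∧ (0 : ℝ) < q.2.2
    · filter_upwards [h j q.1 q.2.1 q.2.2 h1.1 h1.2.1 h1.2.2] with k hk q' hq' _ _ _
      rw [hd] at hq'
      obtain rfl := Option.some_injective _ hq'
      exact hk
    · refine Eventually.of_forall fun k q' hq' h2 h3 h4 => ?_
      rw [hd] at hq'
      obtain rfl := Option.some_injective _ hq'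
      exact absurd ⟨h2, h3, h4⟩ h1

/-- SLOW LIMITS of transversal families are transversal, with the same threshold -/
theorem NHEt.lim {S : ℕ → Sp} {Q : ∀ j, (S j).VV M} {W : κ → ∀ j k, Setoid ((S j).F k).Ω} {J : ℕ → ℕ}
    (h : Slo S (trGt Q W D K g₀) J) (hK : 0 ≤ K) (Q' : (dsp S J h.lim).VV M)
    (hQ : ∀ᶠ k in UF, Q'.v k = (Q (J k)).v k) (W' : κ → ∀ k, Setoid ((dsp S J h.lim).F k).Ω)
    (hW : ∀ᶠ k in UF, ∀ i, W' i k = W i (J k) k) : NHEt (S := dsp S J h.lim) Q' D W' K g₀ := by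
  intro e γ p he hγ hp
  obtain ⟨q2, h1, h2⟩ := exists_rat_btwn hγ
  obtain ⟨q3, h5, h6⟩ := exists_rat_btwn hp
  obtain ⟨q1, h3, h4⟩ : ∃ q1 : ℚ, e < q1 ∧ K * q1 + g₀ < q2 := by
    obtain ⟨q1, a, b⟩ := exists_rat_btwn (show e < e + ((q2 : ℝ) - (K * e + g₀)) / (K + 1) by
      have : 0 < ((q2 : ℝ) - (K * e + g₀)) / (K + 1) := div_pos (by linarith) (by linarith)
      linarith)
    refine ⟨q1, a, ?_⟩
    have h7 : 0 < (q2 : ℝ) - (K * e + g₀) := by linarith
    have h8 : (K + 1) * (((q2 : ℝ) - (K * e + g₀)) / (K + 1)) = (q2 : ℝ) - (K * e + g₀) :=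
      mul_div_cancel₀ _ (by linarith)
    have h9 : 0 < ((q2 : ℝ) - (K * e + g₀)) / (K + 1) := div_pos h7 (by linarith)
    have h10 : K * q1 ≤ K * (e + ((q2 : ℝ) - (K * e + g₀)) / (K + 1)) := mul_le_mul_of_nonneg_left b.le hK
    nlinarith
  filter_upwards [h.slow (Encodable.encode ((q1, q2, q3) : ℚ × ℚ × ℚ)), hQ, hW] with k hk a b hJ
  rw [a, funext b] at hJ
  exact hk (q1, q2, q3) (Encodable.encodek _) (he.trans h3) h4 h5 (hJ.mono h3.le h2.le h6.le)

end

end Pool.Agent.Helper38.NSL
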