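import Pool.Agent.Helper38.NSL.He

/-! NSL*, TRANSVERSALITY of a family of partitions (no close forms with exponent, up to a factor `K` of the closeness, on
events of positive mass): closure under events of extensions, kernels of the resolution, slow limits; consequences for
forms which are known to the partitions. -/

set_option autoImplicit false

namespace Pool.Agent.Helper38.NSL

open Finset Filter Topology Matrix Pool.Agent.Helper69.RK Pool.Agent.Helper31.EC Pool.Agent.Helper31.EC.Sp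
open Pool.Agent.Helper40.EL
open Pool.Agent.Helper84.MT Pool.Agent.Helper3.LF Pool.Agent.Helper59.LF Pool.Agent.Helper89.LX
open Pool.Agent.Helper48.NS Pool.Agent.Helper49.MD Pool.Agent.Helper87.NSL
open Pool.Agent.Helper14.MC (gexq gexq_bd gexq_UB gexq_nonneg GQ_dom gx vx vx_UB vol_eq)
open Pool.Agent.Helper59.EV (sum_split_le)

noncomputable section

variable {M D : ℕ} {S : Sp} {κ κ' : Type}

/-- TRANSVERSAL: the partitions of the family have no close forms of degree `D` with exponents at least `γ` on events of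
positive mass, as soon as `K e < γ` for the closeness `e` -/
def NHE (Q : S.VV M) (D : ℕ) (W : κ → ∀ k, Setoid (S.F k).Ω) (K : ℝ) : Prop :=
  ∀ e γ p : ℝ, 0 < e → K * e < γ → 0 < p → ∀ᶠ k in UF, ¬ HasE (S.F k) M D (Q.v k) (fun i => W i k) e γ p

theorem NHE.mono {Q : S.VV M} {W : κ → ∀ k, Setoid (S.F k).Ω} {K K' : ℝ} (h : NHE Q D W K) (hK : K ≤ K') :
    NHE Q D W K' := by
  intro e γ p he hγ hp
  exact h e γ p he (lt_of_le_of_lt (mul_le_mul_of_nonneg_right hK he.le) hγ) hp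

/-- larger families of coarser partitions -/
theorem NHE.ren {Q : S.VV M} {W : κ → ∀ k, Setoid (S.F k).Ω} {W' : κ' → ∀ k, Setoid (S.F k).Ω} {K : ℝ}
    (h : NHE Q D W K) (f : κ → κ') (hf : ∀ᶠ k in UF, ∀ i ω ω', (S.F k).μ ω ≠ 0 → (S.F k).μ ω' ≠ 0 →
      (S.F k).Z ω ω' → W i k ω ω' → W' (f i) k ω ω') : NHE Q D W' K := by
  intro e γ p he hγ hp
  filter_upwards [h e γ p he hγ hp, hf] with k a b hc
  exact a (hc.ren f b)

/-- the same partitions eventually -/
theorem NHE.congr {Q Q' : S.VV M} {W W' : κ → ∀ k, Setoid (S.F k).Ω} {K : ℝ}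
    (h : NHE Q D W K) (hQ : ∀ᶠ k in UF, Q.v k = Q'.v k) (hf : ∀ᶠ k in UF, ∀ i, W i k = W' i k) : NHE Q' D W' K := by
  intro e γ p he hγ hp
  filter_upwards [h e γ p he hγ hp, hQ, hf] with k a b c hc
  apply a
  rw [b]
  have e1 : (fun i => W i k) = fun i => W' i k := funext c
  rw [e1]
  exact hc

/-- EVENTS OF EXTENSIONS -/
theorem NHE.im {Q : S.VV M} {W : κ → ∀ k, Setoid (S.F k).Ω} {K : ℝ} (h : NHE Q D W K) {T : Sp} (q : Pj T S)
    (E : ∀ k, (T.F k).Ω → Prop) (hE : 0 < ul (T.pr E)) : NHE (S := Sp.im q E) (Q.im q E) D W K := by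
  intro e γ p he hγ hp
  have hU : UB (T.pr E) := UB_of_nonneg_le (C := 1) (Eventually.of_forall fun k => (T.F k).pb_nonneg (E k))
    (Eventually.of_forall fun k => (T.F k).pb_le_one (E k))
  obtain ⟨q0, hq0, hq1⟩ : ∃ q0, 0 < q0 ∧ q0 < ul (T.pr E) := ⟨ul (T.pr E) / 2, by linarith, by linarith⟩
  filter_upwards [h e γ (q0 * p) he hγ (mul_pos hq0 hp), (ul_tendsto hU).eventually (lt_mem_nhds hq1)] with k a b hc
  apply a
  have h1 : (T.F k).pb (E k) ≠ 0 := by
    have : q0 < (T.F k).pb (E k) := b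
    linarith
  have h2 := HasE.im (q.fp k) (E k) h1 (F := S.F k) (Q := Q.v k) hc
  exact h2.mono le_rfl le_rfl (mul_le_mul_of_nonneg_right b.le hp.le)

/-- KERNELS OF THE RESOLUTION: the family with the resolution is transversal ==> in every extension, a partition which is
independent of the old space given the resolution (a copy given `R`) is transversal to the pulled family -/
theorem NHE.copy {Q : S.VV M} {R : ∀ k, Setoid (S.F k).Ω} {W : κ → ∀ k, Setoid (S.F k).Ω} {K : ℝ}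
    (h : NHE Q D (optW R W) K) {T : Sp} (q : Pj T S) (V : ∀ k, Setoid (T.F k).Ω)
    (hV : ∀ᶠ k in UF, I (fc (V k)) (q.fp k).top ((q.fp k).map (fc (R k))) = 0) :
    NHE (S := T) (q.vv Q) D (optW V fun i => q.pb (W i)) K := by
  intro e γ p he hγ hp
  filter_upwards [h e γ p he hγ hp, hV] with k a b hc
  apply a
  have e1 : (fun i => optW R W i k) = optS (R k) fun i => W i k := by
    funext i
    cases i <;> rfl
  have e2 : (fun i => optW V (fun i => q.pb (W i)) i k) =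
      optS (V k) fun i => Setoid.comap (q.π k) (W i k) := by
    funext i
    cases i <;> rfl
  rw [e1]
  rw [e2] at hc
  exact HasE.sel (F := S.F k) (⟨T.F k, q.fp k, q.hn k, V k⟩ : FLab (S.F k)) b hc

/-- FORMS KNOWN TO A TRANSVERSAL FAMILY HAVE NO EXPONENT -/
theorem NHE.vol_ge [Finite κ] [Nonempty κ] {Q : S.VV M} {W : κ → ∀ k, Setoid (S.F k).Ω} {K : ℝ} (h : NHE Q D W K)
    (hK : 0 ≤ K) {κ' : Type} {A : κ' → Part S} {x : ∀ k, FD (S.F k) (Mon M D)} (hx : (gaq Q D).Adf A x)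
    (hW : ∀ i, KnW (W i) x) : (M : ℝ) ≤ vol Q D x := by
  rw [vol_eq]
  by_contra hc
  obtain ⟨g0, hg0, hg1⟩ : ∃ g0, g0 = ul (vx Q x) ∧ 0 < g0 := ⟨_, rfl, by linarith⟩
  have hK0 := K0_nonneg M D
  obtain ⟨e, he, he1, he2⟩ : ∃ e : ℝ, 0 < e ∧ K * e + e * M / 2 < g0 / 4 ∧ (K0 M D + 1) * (e + e) ≤ g0 / 4 := by
    refine ⟨min (g0 / (4 * (2 * (K + M + 1)))) (g0 / (8 * (K0 M D + 1))), lt_min (by positivity) (by positivity), ?_, ?_⟩
    · have h1 := min_le_left (g0 / (4 * (2 * (K + M + 1)))) (g0 / (8 * (K0 M D + 1)))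
      have h2 : 0 < min (g0 / (4 * (2 * (K + M + 1)))) (g0 / (8 * (K0 M D + 1))) :=
        lt_min (by positivity) (by positivity)
      set m := min (g0 / (4 * (2 * (K + M + 1)))) (g0 / (8 * (K0 M D + 1)))
      have h3 : m * (K + M + 1) ≤ g0 / 8 := by
        rw [le_div_iff₀ (by positivity)] at h1
        linarith
      have h4 : (0 : ℝ) ≤ M := Nat.cast_nonneg M
      have h5 : K * m + m * M / 2 ≤ m * (K + M + 1) := by nlinarith
      linarith
    · have h1 := min_le_right (g0 / (4 * (2 * (K + M + 1)))) (g0 / (8 * (K0 M D + 1)))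
      set m := min (g0 / (4 * (2 * (K + M + 1)))) (g0 / (8 * (K0 M D + 1)))
      rw [le_div_iff₀ (by positivity)] at h1
      linarith
  have h1 := hasF_of_knw Q W hx hW he (γ := g0 / 2) (by rw [← hg0]; linarith)
  have h2 := hasE_of_hasF (D := D) Q
  have h3 := h e (g0 / 4 - e * M / 2) e he (by linarith) he
  obtain ⟨k, a, b, c⟩ := (h1.and (h2.and h3)).exists
  exact c (b κ ‹_› _ e (g0 / 2) (g0 / 4) e he.le (by linarith) (by linarith) a)

/-- K-LABELS: forms over a kernel of the resolution which are known to the partitions have no exponent, if the family with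
the resolution is transversal -/
theorem NHE.vol_geK [Finite κ] [Nonempty κ] {Q : S.VV M} {R : ∀ k, Setoid (S.F k).Ω} {W : κ → ∀ k, Setoid (S.F k).Ω}
    {K : ℝ} (h : NHE Q D (optW R W) K) (hK : 0 ≤ K) {κ' : Type} {A : κ' → Part S} {x : ∀ k, FD (S.F k) (Mon M D)}
    (hx : (gaq Q D).Adf A x) (hR : ∀ᶠ k in UF, (x k).l.leak (fc (R k)) = 0) (hW : ∀ i, KnW (W i) x) :
    (M : ℝ) ≤ vol Q D x := by
  apply h.vol_ge hK hx
  intro i
  cases i with
  | none => exact knW_of_leak hx hR (hW (Classical.arbitrary κ))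
  | some i => exact hW i

/-! ### slow limits -/

/-- the slowness conditions of transversality -/
def trG {S : ℕ → Sp} (Q : ∀ j, (S j).VV M) (W : κ → ∀ j k, Setoid ((S j).F k).Ω) (D : ℕ) (K : ℝ)
    (i j k : ℕ) : Prop :=
  ∀ q : ℚ × ℚ × ℚ, Encodable.decode i = some q → (0 : ℝ) < q.1 → K * q.1 < q.2.1 → (0 : ℝ) < q.2.2 →
    ¬ HasE ((S j).F k) M D ((Q j).v k) (fun o => W o j k) q.1 q.2.1 q.2.2

theorem trG_ev {S : ℕ → Sp} {Q : ∀ j, (S j).VV M} {W : κ → ∀ j k, Setoid ((S j).F k).Ω} {K : ℝ}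
    (h : ∀ j, NHE (Q j) D (fun o => W o j) K) (i j : ℕ) : ∀ᶠ k in UF, trG Q W D K i j k := by
  cases hd : (Encodable.decode i : Option (ℚ × ℚ × ℚ)) with
  | none =>
    refine Eventually.of_forall fun k q hq => ?_
    rw [hd] at hq
    exact absurd hq (by simp)
  | some q =>
    by_cases h1 : (0 : ℝ) < q.1 ∧ K * q.1 < q.2.1 ∧ (0 : ℝ) < q.2.2
    · filter_upwards [h j q.1 q.2.1 q.2.2 h1.1 h1.2.1 h1.2.2] with k hk q' hq' _ _ _
      rw [hd] at hq'
      obtain rfl := Option.some_injective _ hq'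
      exact hk
    · refine Eventually.of_forall fun k q' hq' h2 h3 h4 => ?_
      rw [hd] at hq'
      obtain rfl := Option.some_injective _ hq'
      exact absurd ⟨h2, h3, h4⟩ h1

/-- SLOW LIMITS of transversal families are transversal -/
theorem NHE.lim {S : ℕ → Sp} {Q : ∀ j, (S j).VV M} {W : κ → ∀ j k, Setoid ((S j).F k).Ω} {K : ℝ} {J : ℕ → ℕ}
    (h : Slo S (trG Q W D K) J) (hK : 0 ≤ K) (Q' : (dsp S J h.lim).VV M)
    (hQ : ∀ᶠ k in UF, Q'.v k = (Q (J k)).v k) (W' : κ → ∀ k, Setoid ((dsp S J h.lim).F k).Ω)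
    (hW : ∀ᶠ k in UF, ∀ i, W' i k = W i (J k) k) : NHE (S := dsp S J h.lim) Q' D W' K := by
  intro e γ p he hγ hp
  obtain ⟨q2, h1, h2⟩ := exists_rat_btwn hγ
  obtain ⟨q3, h5, h6⟩ := exists_rat_btwn hp
  obtain ⟨q1, h3, h4⟩ : ∃ q1 : ℚ, e < q1 ∧ K * q1 < q2 := by
    obtain ⟨q1, a, b⟩ := exists_rat_btwn (show e < e + ((q2 : ℝ) - K * e) / (K + 1) by
      have : 0 < ((q2 : ℝ) - K * e) / (K + 1) := div_pos (by linarith) (by linarith)
      linarith)
    refine ⟨q1, a, ?_⟩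
    rcases hK.eq_or_lt with h0 | h0
    · rw [← h0] at h1 ⊢
      rw [zero_mul] at h1 ⊢
      exact h1
    · have h5 : K * q1 < K * (e + ((q2 : ℝ) - K * e) / (K + 1)) := mul_lt_mul_of_pos_left b h0
      have h6 : K * (e + ((q2 : ℝ) - K * e) / (K + 1)) ≤ q2 := by
        have h7 : K * (((q2 : ℝ) - K * e) / (K + 1)) ≤ (q2 : ℝ) - K * e := by
          rw [mul_div_assoc', div_le_iff₀ (by linarith)]
          nlinarith
        linarith
      linarith
  filter_upwards [h.slow (Encodable.encode ((q1, q2, q3) : ℚ × ℚ × ℚ)), hQ, hW] with k hk a b hJ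
  rw [a, funext b] at hJ
  exact hk (q1, q2, q3) (Encodable.encodek _) (he.trans h3) h4 h5 (hJ.mono h3.le h2.le h6.le)

end

end Pool.Agent.Helper38.NSL
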