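import Pool.Agent.Helper38.NSL.He3

/-! NSL*, TRANSVERSALITY: replacement of one partition by a copy given it; towers of copies. -/

set_option autoImplicit false

namespace Pool.Agent.Helper38.NSL

open Finset Filter Topology Matrix Pool.Agent.Helper69.RK Pool.Agent.Helper31.EC Pool.Agent.Helper31.EC.Sp
open Pool.Agent.Helper40.EL
open Pool.Agent.Helper84.MT Pool.Agent.Helper3.LF Pool.Agent.Helper59.LF Pool.Agent.Helper89.LX
open Pool.Agent.Helper48.NS Pool.Agent.Helper49.MD Pool.Agent.Helper87.NSL

noncomputable section

variable {M D : ℕ} {S : Sp} {κ κ' : Type}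

/-- a system of partitions with a distinguished one -/
theorem NHE.split [DecidableEq κ] {Q : S.VV M} {W : κ → ∀ k, Setoid (S.F k).Ω} {K : ℝ} (h : NHE Q D W K) (i0 : κ) :
    NHE Q D (optW (W i0) fun i : {i : κ // i ≠ i0} => W i) K := by
  refine h.ren (fun i => if hi : i = i0 then none else some ⟨i, hi⟩) (Eventually.of_forall fun k i ω ω' _ _ _ hw => ?_)
  beta_reduce
  by_cases hi : i = i0
  · rw [dif_pos hi]
    subst hi
    exact hw
  · rw [dif_neg hi]
    exact hw

/-- pull back to extensions -/
theorem NHE.pull {Q : S.VV M} {W : κ → ∀ k, Setoid (S.F k).Ω} {K : ℝ} [Nonempty κ] (h : NHE Q D W K) {T : Sp}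
    (q : Pj T S) : NHE (S := T) (q.vv Q) D (fun i => q.pb (W i)) K := by
  classical
  obtain ⟨i0⟩ := ‹Nonempty κ›
  have h1 := (h.split i0).copy q (q.pb (W i0)) (Eventually.of_forall fun k => by
    apply I_zero_of_le_left
    exact le_rfl)
  refine h1.ren (fun o => match o with | none => i0 | some i => i) (Eventually.of_forall fun k i ω ω' _ _ _ hw => ?_)
  cases i with
  | none => exact hw
  | some i => exact hw

/-- ONE COPY: the partition `W i0` of the family is replaced by a partition of an extension which is independent of the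
space given `W i0` -/
theorem NHE.copy_at [DecidableEq κ] {Q : S.VV M} {W : κ → ∀ k, Setoid (S.F k).Ω} {K : ℝ} (h : NHE Q D W K) (i0 : κ)
    {T : Sp} (q : Pj T S) (V : ∀ k, Setoid (T.F k).Ω)
    (hV : ∀ᶠ k in UF, I (fc (V k)) (q.fp k).top ((q.fp k).map (fc (W i0 k))) = 0) :
    NHE (S := T) (q.vv Q) D (Function.update (fun i => q.pb (W i)) i0 V) K := by
  have h1 := (h.split i0).copy q V hV
  refine h1.ren (fun o => match o with | none => i0 | some i => i) (Eventually.of_forall fun k i ω ω' _ _ _ hw => ?_)
  cases i with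
  | none =>
    show Function.update (fun i => q.pb (W i)) i0 V i0 k ω ω'
    rw [Function.update_self]
    exact hw
  | some i =>
    show Function.update (fun i => q.pb (W i)) i0 V i k ω ω'
    rw [Function.update_of_ne i.2]
    exact hw

end

end Pool.Agent.Helper38.NSL
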