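import Pool.Agent.Helper38.NSL.Tc2
import Pool.Agent.Helper38.NSL.He4

/-! TRUNCATION, part 3: close forms of the truncated space give close forms of the space; transversality passes to
truncations. -/

set_option autoImplicit false

namespace Pool.Agent.Helper38.NSL

open Finset Filter Topology Matrix Pool.Agent.Helper69.RK Pool.Agent.Helper31.EC Pool.Agent.Helper31.EC.Sp
open Pool.Agent.Helper40.EL
open Pool.Agent.Helper84.MT Pool.Agent.Helper3.LF Pool.Agent.Helper59.LF Pool.Agent.Helper89.LX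
open Pool.Agent.Helper48.NS Pool.Agent.Helper49.MD Pool.Agent.Helper87.NSL
open Pool.Agent.Helper95.LF (PdM)

noncomputable section

variable {M D : ℕ}

theorem dlF_chg (F : FSp) (r : ℝ) (h0 : 0 < r) (W : Setoid F.Ω) : dlF (F.chg W r h0) 1 = dlF F r := by
  show (2 : ℝ) ^ (-(1 * (r * F.n))) = 2 ^ (-(r * F.n))
  rw [one_mul]

theorem capF_chg (F : FSp) (r : ℝ) (h0 : 0 < r) (W : Setoid F.Ω) :
    capF (F.chg W r h0) D = (2 : ℝ) ^ ((2 * (D : ℝ) + 1 + 1) * (r * F.n)) := rfl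

theorem dlF_pos' (F : FSp) (r : ℝ) : 0 < dlF F r := by unfold dlF; positivity

theorem dlF_anti' (F : FSp) {r r' : ℝ} (h : r ≤ r') : dlF F r' ≤ dlF F r := by
  unfold dlF
  apply Real.rpow_le_rpow_of_exponent_le (by norm_num)
  have := mul_le_mul_of_nonneg_right h F.pos.le
  linarith

theorem dlF_le_one' (F : FSp) {r : ℝ} (h : 0 ≤ r) : dlF F r ≤ 1 := by
  unfold dlF
  apply Real.rpow_le_one_of_one_le_of_nonpos (by norm_num)
  have := mul_nonneg h F.pos.le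
  linarith

/-- the exponents -/
theorem gxF_cld {F : FSp} {Q : F.Ω → Fin M → ℝ} {J : F.Ω → Matrix (Mon M D) (Mon M D) ℝ} {ω : F.Ω} {c : ℝ}
    (hJ : Cpd c (J ω)) {r : ℝ} (h0 : 0 < r) (W : Setoid F.Ω) :
    r * gxF (F.chg W r h0) Q J ω ≤ gxF F Q (fun ω => cld (dlF F r) (J ω)) ω := by
  have hn := F.pos
  unfold gxF
  rw [dlF_chg]
  show r * (Real.logb 2 (GQ (dlF F r) (J ω) (Q ω)) / (2 * (r * F.n))) ≤ _
  have e1 : r * (Real.logb 2 (GQ (dlF F r) (J ω) (Q ω)) / (2 * (r * F.n))) =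
      Real.logb 2 (GQ (dlF F r) (J ω) (Q ω)) / (2 * F.n) := by
    field_simp
  rw [e1]
  apply div_le_div_of_nonneg_right _ (by positivity)
  have h3 := one_le_GQ (dlF F r) hJ.1 hJ.psd.2 (Q ω)
  exact Real.logb_le_logb_of_le (by norm_num) (by linarith) (GQ_cld hJ.psd (dlF F r) (dlF F 1) (Q ω))

/-- the constants -/
def cT (M D : ℕ) : ℝ := nn M D * (nn M D * (Cu D * Cm M D * 2 ^ D) ^ 2)

def cT2 (M D : ℕ) : ℝ := nn M D * shC M D

/-- TRUNCATION, finite data -/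
theorem HasE.untrn {F : FSp} {κ : Type} {Q : F.Ω → Fin M → ℝ} {W : κ → Setoid F.Ω} {r : ℝ} (h0 : 0 < r) (h1 : r < 1)
    {ε : ℝ} (hε : 0 ≤ ε) (hc1 : cT M D ≤ 2 ^ (ε * F.n)) (hc2 : cT2 M D ≤ 2 ^ ((2 * (D : ℝ) + 1 + 1) * (1 - r) * F.n))
    {e γ p : ℝ} (h : HasE (F.chg ⊤ r h0) M D Q W e γ p) : HasE F M D Q W (e * r + ε) (γ * r) p := by
  obtain ⟨A, J, b1, b2, b3, b4⟩ := h
  have hn := F.pos
  have hd0 := dlF_pos' F r
  have hd1 : dlF F r ≤ 1 := dlF_le_one' F h0.le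
  have ed : dlF (F.chg ⊤ r h0) 1 = dlF F r := dlF_chg F r h0 ⊤
  have hcap : ∀ (i : κ) (ω : F.Ω), F.μ ω ≠ 0 → Cpd ((2 : ℝ) ^ ((2 * (D : ℝ) + 1 + 1) * (r * F.n))) (J i ω) :=
    fun i ω hω => b3 i ω hω
  refine ⟨A, fun i ω => cld (dlF F r) (J i ω), b1, fun i ω ω' c1 c2 c3 c4 => ?_, fun i ω c1 => ?_, fun ω c1 c2 =>
    ⟨fun i j => ?_, fun i => ⟨?_, ?_⟩⟩⟩
  · have := b2 i ω ω' c1 c2 ⟨trivial, c3⟩ c4
    show cld (dlF F r) (J i ω) = cld (dlF F r) (J i ω')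
    rw [this]
  · obtain ⟨d1, d2, d3⟩ := Cpd_cld (hcap i ω c1) hd0.le hd1
    refine ⟨d1, d2, fun v => (d3 v).trans ?_⟩
    apply mul_le_mul_of_nonneg_right _ (dot_self_nonneg v)
    have e1 : nn M D * ((2 : ℝ) ^ ((2 * (D : ℝ) + 1 + 1) * (r * F.n)) * shC M D) =
        cT2 M D * 2 ^ ((2 * (D : ℝ) + 1 + 1) * (r * F.n)) := by
      unfold cT2; ring
    have e2 : capF F D = 2 ^ ((2 * (D : ℝ) + 1 + 1) * (1 - r) * F.n) * 2 ^ ((2 * (D : ℝ) + 1 + 1) * (r * F.n)) := by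
      unfold capF
      rw [← Real.rpow_add (by norm_num)]
      congr 1
      ring
    rw [e1, e2]
    exact mul_le_mul_of_nonneg_right hc2 (by positivity)
  · have h3 : Nr (e * (r * F.n)) (J i ω) (J j ω) := (b4 ω c1 c2).1 i j
    have h4 := cld_Nr (dlF F r) h3
    refine Nr.mono ?_ (cld_psd _ (hcap i ω c1).psd) (cld_psd _ (hcap j ω c1).psd) h4
    have := mul_nonneg hε hn.le
    nlinarith
  · have h3 : phi (dlF (F.chg ⊤ r h0) 1) (J i ω) (Q ω) ≤ 2 ^ (e * (r * F.n)) := ((b4 ω c1 c2).2 i).1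
    rw [ed] at h3
    have h4 := phi_cld (hcap i ω c1).pdM hd0 (dlF_pos' F 1).le (dlF_anti' F h1.le) (Q ω)
    have h5 : (0 : ℝ) ≤ cT M D := by
      unfold cT
      have := nn_one M D
      positivity
    have e1 : (2 : ℝ) ^ ((e * r + ε) * F.n) = 2 ^ (ε * F.n) * 2 ^ (e * (r * F.n)) := by
      rw [← Real.rpow_add (by norm_num)]
      congr 1
      ring
    rw [e1]
    refine h4.trans ?_
    show cT M D * phi (dlF F r) (J i ω) (Q ω) ≤ _
    exact (mul_le_mul_of_nonneg_left h3 h5).trans (mul_le_mul_of_nonneg_right hc1 (by positivity))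
  · have h3 := ((b4 ω c1 c2).2 i).2
    have h4 := gxF_cld (Q := Q) (hcap i ω c1) h0 ⊤
    have h5 := mul_le_mul_of_nonneg_left h3 h0.le
    linarith

/-- TRANSVERSALITY OF TRUNCATIONS -/
theorem NHE.trn {S : Sp} {κ : Type} {Q : S.VV M} {W : κ → ∀ k, Setoid (S.F k).Ω} {K : ℝ} (h : NHE Q D W K)
    (hK : 0 ≤ K) {r : ℝ} (h0 : 0 < r) (h1 : r < 1) : NHE (S := S.chg S.tr r h0) (Q.chg S.tr r h0) D W K := by
  intro e γ p he hγ hp
  obtain ⟨ε, hε, hε1⟩ : ∃ ε : ℝ, 0 < ε ∧ K * (e * r + ε) < γ * r := by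
    refine ⟨(γ * r - K * e * r) / (2 * (K + 1)), div_pos (by nlinarith) (by linarith), ?_⟩
    have h2 : 0 < γ * r - K * e * r := by nlinarith
    have h3 : K * ((γ * r - K * e * r) / (2 * (K + 1))) ≤ (γ * r - K * e * r) / 2 := by
      rw [mul_div_assoc', div_le_div_iff₀ (by linarith) (by norm_num)]
      nlinarith
    have h4 : K * (e * r + (γ * r - K * e * r) / (2 * (K + 1))) = K * e * r +
      K * ((γ * r - K * e * r) / (2 * (K + 1))) := by ring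
    rw [h4]
    linarith
  have hcT : (0 : ℝ) ≤ cT M D := by
    unfold cT
    have := nn_one M D
    positivity
  have hcT2 : (0 : ℝ) ≤ cT2 M D := by
    unfold cT2 shC
    have := nn_one M D
    positivity
  have h5 : (0 : ℝ) < (2 * (D : ℝ) + 1 + 1) * (1 - r) := mul_pos (by positivity) (by linarith)
  filter_upwards [h (e * r + ε) (γ * r) p (by positivity) hε1 hp, (S.Sub_const hcT).eventually_le hε,
    (S.Sub_const hcT2).eventually_le h5] with k a b c hE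
  exact a (HasE.untrn (F := S.F k) h0 h1 hε.le (by linarith) (by linarith) hE)

end

end Pool.Agent.Helper38.NSL
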