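import Pool.Agent.Helper66.MT.Exf

/-! NSL*: exact forms (theorem `exact_form` of helper66) with the additional clause that the new partition and the new form
are functions of the rough form. -/

set_option autoImplicit false

namespace Pool.Agent.Helper38.NSL

open Finset Filter Topology Matrix Pool.Agent.Helper69.RK Pool.Agent.Helper31.EC Pool.Agent.Helper31.EC.Sp
open Pool.Agent.Helper40.EL Pool.Agent.Helper89.LX
open Pool.Agent.Helper95.LF (PdM NearM round_mat)
open Pool.Agent.Helper3.LF (typ_and typ_mono mkFD sp_Sub sp_n lb)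
open Pool.Agent.Helper59.LF (fadd fadd_leak ladd)
open Pool.Agent.Helper66.MT

noncomputable section

variable {S : Sp} {ι κ : Type} [Fintype ι] [DecidableEq ι]

/-- exact forms from a rough agreement (helper66), the rounding is a function of the rough form and of the event -/
theorem exact_formW [Finite κ] (Φ : Gau S ι) (hmono : ∀ k ω, ∀ A B : Matrix ι ι ℝ, Psd A → Psd B →
      (∀ v, qf A v ≤ qf B v) → Φ.φ k ω A ≤ Φ.φ k ω B) (hsmul : ∀ k ω (c : ℝ), ∀ A : Matrix ι ι ℝ,
      Φ.φ k ω (c • A) = c * Φ.φ k ω A) (B : κ → ∀ k, Setoid (S.F k).Ω) {l : Lab S}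
    (hl : l.DMf (fun i k => fc (B i k))) (G : ∀ k, (l k).T.Ω → Matrix ι ι ℝ)
    (hG : ∀ᶠ k in UF, ∀ ω, (l k).T.μ ω ≠ 0 → Cpd (Φ.cp k) (G k ω)) (E : ∀ k, (l k).T.Ω → Prop)
    (P : ℕ → ℝ) (hP : ∀ k, 1 ≤ P k)
    (hφ : Sp.Typ (S := l.sp) (fun k (ω : (l k).T.Ω) => E k ω → Φ.φ k ((l k).p.π ω) (G k ω) ≤ P k))
    (R : ℕ → ℝ) (hR : ∀ k, 1 ≤ R k) (A : κ → Prop)
    (hA : ∀ i, A i → ∀ᶠ k in UF, ∀ ω ω', (l k).T.μ ω ≠ 0 → (l k).T.μ ω' ≠ 0 → E k ω → E k ω' →
      (l k).V ω ω' → (l k).T.Z ω ω' → B i k ((l k).p.π ω) ((l k).p.π ω') →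
      ∀ v, qf (G k ω) v ≤ R k * qf (G k ω') v)
    (hA' : ∀ i, Gd A (fun i1 i2 i => Nul S (fun k =>
      I ((l k).p.map (fc (B i1 k))) ((l k).p.map (fc (B i2 k))) ((l k).v ⊔ (l k).p.map (fc (B i k))))) i) :
    ∃ (W : ∀ k, Setoid (l k).T.Ω) (g : ∀ k, (l k).T.Ω → Matrix ι ι ℝ)
      (hm : ∀ k ω ω', (l k).T.μ ω ≠ 0 → (l k).T.μ ω' ≠ 0 → (fadd (l k) (W k)).V ω ω' → (l k).T.Z ω ω' →
        g k ω = g k ω'),
      Φ.Adf (fun i k => fc (B i k)) (fun k => mkFD (fadd (l k) (W k)) (g k) (hm k)) ∧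
      (∀ᶠ k in UF, ∀ ω, (l k).T.μ ω ≠ 0 → E k ω → ∀ v, qf (G k ω) v ≤ cR0 ι * R k ^ cR1 ι * P k * qf (g k ω) v) ∧
      ∀ k ω ω', G k ω = G k ω' → (E k ω ↔ E k ω') → W k ω ω' ∧ g k ω = g k ω' := by
  classical
  obtain ⟨N, hC1, hC⟩ := (round_mat ι).choose_spec
  set C : ℝ := (round_mat ι).choose with hCd
  set L : ℕ → ℝ := fun k => Real.log (R k) + 1 with hL
  have hlog : ∀ k, 0 ≤ Real.log (R k) := fun k => Real.log_nonneg (hR k)
  have hL1 : ∀ k, 1 ≤ L k := fun k => by
    simp only [hL]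
    linarith [hlog k]
  have hexpL : ∀ k, Real.exp (L k) = R k * Real.exp 1 := fun k => by
    simp only [hL]
    rw [Real.exp_add, Real.exp_log (by linarith [hR k])]
  choose Q hQ1 hQ2 using fun k => hC (L k) (hL1 k)
  have hN : 1 ≤ N := by
    obtain ⟨X, hX, hX'⟩ := hQ2 0 1 Pool.Agent.Helper95.LF.PdM.one
    have h1 := hX' 1 Pool.Agent.Helper95.LF.PdM.one ⟨fun x => by
        have h2 : 1 ≤ Real.exp (L 0) := Real.one_le_exp (by linarith [hL1 0])
        rw [Matrix.one_mulVec]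
        nlinarith [dot_self_nonneg x], fun x => by
        have h2 : 1 ≤ Real.exp (L 0) := Real.one_le_exp (by linarith [hL1 0])
        rw [Matrix.one_mulVec]
        nlinarith [dot_self_nonneg x]⟩
    exact (Finset.card_pos.mpr ⟨_, h1⟩).trans_le hX
  have qsm : ∀ (c : ℝ) (A : Matrix ι ι ℝ) (v : ι → ℝ), qf (c • A) v = c * qf A v := by
    intro c A v
    unfold qf
    rw [Matrix.smul_mulVec, dotProduct_smul, smul_eq_mul]
  have qad : ∀ (A A' : Matrix ι ι ℝ) (v : ι → ℝ), qf (A + A') v = qf A v + qf A' v := by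
    intro A A' v
    unfold qf
    rw [Matrix.add_mulVec, dotProduct_add]
  have qon : ∀ v : ι → ℝ, qf (1 : Matrix ι ι ℝ) v = v ⬝ᵥ v := by
    intro v
    unfold qf
    rw [Matrix.one_mulVec]
  -- the forms as a function of the rounding
  set ff : ℕ → Option (Matrix ι ι ℝ) → Matrix ι ι ℝ := fun k o =>
    match o with
    | none => 1
    | some A => 1 + ((P k)⁻¹ * Real.exp (-(C * L k + 1))) • A with hff
  set g : ∀ k, (l k).T.Ω → Matrix ι ι ℝ := fun k ω => ff k (Xr E Q G k ω) with hg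
  set W : ∀ k, Setoid (l k).T.Ω := fun k => Setoid.ker (Xr E Q G k) with hW
  have hm : ∀ k ω ω', (l k).T.μ ω ≠ 0 → (l k).T.μ ω' ≠ 0 → (fadd (l k) (W k)).V ω ω' → (l k).T.Z ω ω' →
      g k ω = g k ω' := by
    intro k ω ω' _ _ h3 _
    have h4 : Xr E Q G k ω = Xr E Q G k ω' := h3.2
    simp only [hg, h4]
  have gE : ∀ k ω, E k ω → g k ω = 1 + ((P k)⁻¹ * Real.exp (-(C * L k + 1))) • Q k (G k ω) := by
    intro k ω h
    simp only [hg, hff, Xr, if_pos h]
  have gN : ∀ k ω, ¬ E k ω → g k ω = 1 := by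
    intro k ω h
    simp only [hg, hff, Xr, if_neg h]
  -- comparison of the rounding
  have hcmp : ∀ᶠ k in UF, ∀ ω, (l k).T.μ ω ≠ 0 → Psd (Q k (G k ω)) ∧
      (∀ v, qf (((P k)⁻¹ * Real.exp (-(C * L k + 1))) • Q k (G k ω)) v ≤
        (P k)⁻¹ * (Real.exp (-1) * qf (G k ω) v)) ∧
      ∀ v, qf (G k ω) v ≤ cR0 ι * R k ^ cR1 ι * P k *
        qf (((P k)⁻¹ * Real.exp (-(C * L k + 1))) • Q k (G k ω)) v := by
    filter_upwards [hG] with k hk ω hω
    obtain ⟨p1, p2, p3⟩ := hQ1 k (G k ω) (hk ω hω).pdM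
    have hnn : ∀ v, 0 ≤ qf (Q k (G k ω)) v := fun v => p1.nonneg v
    have hP0 : 0 < P k := by linarith [hP k]
    refine ⟨⟨p1.1, hnn⟩, fun v => ?_, fun v => ?_⟩
    · rw [qsm, mul_assoc]
      apply mul_le_mul_of_nonneg_left _ (inv_nonneg.mpr hP0.le)
      have h1 : qf (Q k (G k ω)) v ≤ Real.exp (C * L k) * qf (G k ω) v := p3 v
      have h2 := mul_le_mul_of_nonneg_left h1 (Real.exp_pos (-(C * L k + 1))).le
      refine h2.trans (le_of_eq ?_)
      rw [← mul_assoc, ← Real.exp_add]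
      congr 2
      ring
    · rw [qsm]
      have e0 : cR0 ι * R k ^ cR1 ι * P k * ((P k)⁻¹ * Real.exp (-(C * L k + 1)) * qf (Q k (G k ω)) v) =
          cR0 ι * R k ^ cR1 ι * Real.exp (-(C * L k + 1)) * qf (Q k (G k ω)) v := by
        field_simp
      rw [e0]
      have h1 : qf (G k ω) v ≤ Real.exp (C * L k) * qf (Q k (G k ω)) v := p2 v
      refine h1.trans ?_
      apply mul_le_mul_of_nonneg_right _ (hnn v)
      have e1 : Real.exp (C * L k) = Real.exp (2 * C + 1) * Real.exp (2 * C * Real.log (R k)) *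
          Real.exp (-(C * L k + 1)) := by
        rw [← Real.exp_add, ← Real.exp_add]
        congr 1
        simp only [hL]
        ring
      rw [e1]
      apply mul_le_mul_of_nonneg_right _ (Real.exp_pos _).le
      show _ ≤ Real.exp (2 * C + 1) * R k ^ cR1 ι
      apply mul_le_mul_of_nonneg_left _ (Real.exp_pos _).le
      have h3 : (2 * C) ≤ cR1 ι := Nat.le_ceil _
      have h4 : Real.exp (2 * C * Real.log (R k)) ≤ Real.exp (cR1 ι * Real.log (R k)) :=
        Real.exp_le_exp.mpr (mul_le_mul_of_nonneg_right h3 (hlog k))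
      refine h4.trans (le_of_eq ?_)
      rw [Real.exp_nat_mul, Real.exp_log (by linarith [hR k])]
  have hexp1 : Real.exp (-1) ≤ 1 / 2 := by
    rw [Real.exp_neg, inv_eq_one_div]
    apply div_le_div_of_nonneg_left zero_le_one two_pos
    have := Real.exp_one_gt_d9
    linarith
  have hcp2 : ∀ᶠ k in UF, 2 ≤ Φ.cp k := by
    filter_upwards [S.lim.eventually (eventually_ge_atTop 1)] with k hk
    unfold Gau.cp
    have h1 : (2 : ℝ) ^ (1 : ℝ) ≤ 2 ^ ((Φ.C + 1) * (S.F k).n) := by
      apply Real.rpow_le_rpow_of_exponent_le (by norm_num)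
      have := Φ.C0
      nlinarith
    rwa [Real.rpow_one] at h1
  have hgC : ∀ᶠ k in UF, ∀ ω, (l k).T.μ ω ≠ 0 → Cpd (Φ.cp k) (g k ω) := by
    filter_upwards [hcmp, hG, hcp2] with k a b d ω hω
    by_cases hE : E k ω
    · rw [gE k ω hE]
      obtain ⟨a1, a2, a3⟩ := a ω hω
      refine ⟨Matrix.isSymm_one.add (a1.1.smul _), fun v => ?_, fun v => ?_⟩
      · rw [qad, qon, qsm]
        have hP0 : 0 < P k := by linarith [hP k]
        have := mul_nonneg (mul_nonneg (inv_nonneg.mpr hP0.le) (Real.exp_pos (-(C * L k + 1))).le) (a1.2 v)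
        linarith
      · rw [qad, qon]
        have h1 := a2 v
        have h2 := (b ω hω).2.2 v
        have h3 := dot_self_nonneg v
        have h4 : 0 ≤ qf (G k ω) v := (b ω hω).psd.2 v
        have h5 : Real.exp (-1) * qf (G k ω) v ≤ 1 / 2 * (Φ.cp k * (v ⬝ᵥ v)) :=
          mul_le_mul hexp1 h2 h4 (by norm_num)
        have h6 : (P k)⁻¹ ≤ 1 := inv_le_one_of_one_le₀ (hP k)
        have h7 : 0 ≤ Real.exp (-1) * qf (G k ω) v := mul_nonneg (Real.exp_pos _).le h4
        have h8 : (P k)⁻¹ * (Real.exp (-1) * qf (G k ω) v) ≤ 1 * (Real.exp (-1) * qf (G k ω) v) :=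
          mul_le_mul_of_nonneg_right h6 h7
        nlinarith
    · rw [gN k ω hE]
      exact Cpd_one (by linarith)
  obtain ⟨K1, hK1, hone⟩ := Φ.one
  refine ⟨W, g, hm, ?_, ?_, fun k ω ω' h1 h2 => ?_⟩
  · apply adf_mk (Φ := Φ) (fun k => mkFD (fadd (l k) (W k)) (g k) (hm k)) _ (fun k => rfl) hgC
      (fun k => K1 k + 1) (hK1.add (S.Sub_const zero_le_one))
    · refine typ_mono (S := l.sp) hφ ?_
      filter_upwards [hone, hcmp, hG] with k a b d ω hω h1
      have a1 := a _ ((l k).p.supp ω hω)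
      have hP0 : 0 < P k := by linarith [hP k]
      show Φ.φ k ((l k).p.π ω) (g k ω) ≤ K1 k + 1
      by_cases hE : E k ω
      · rw [gE k ω hE, Φ.add]
        obtain ⟨b1, b2, b3⟩ := b ω hω
        have h2 : Φ.φ k ((l k).p.π ω) (((P k)⁻¹ * Real.exp (-(C * L k + 1))) • Q k (G k ω)) ≤
            Φ.φ k ((l k).p.π ω) ((P k)⁻¹ • G k ω) := by
          apply hmono k _ _ _ ⟨b1.1.smul _, fun v => by
            rw [qsm]; exact mul_nonneg (mul_nonneg (inv_nonneg.mpr hP0.le) (Real.exp_pos _).le) (b1.2 v)⟩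
            ⟨(d ω hω).1.smul _, fun v => by
              rw [qsm]; exact mul_nonneg (inv_nonneg.mpr hP0.le) ((d ω hω).psd.2 v)⟩
          intro v
          refine (b2 v).trans ?_
          rw [qsm]
          apply mul_le_mul_of_nonneg_left _ (inv_nonneg.mpr hP0.le)
          have h4 : 0 ≤ qf (G k ω) v := (d ω hω).psd.2 v
          nlinarith
        rw [hsmul k _ ((P k)⁻¹)] at h2
        have h3 := mul_le_mul_of_nonneg_left (h1 hE) (inv_nonneg.mpr hP0.le)
        rw [inv_mul_cancel₀ hP0.ne'] at h3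
        linarith
      · rw [gN k ω hE]
        linarith
    · apply DMf_ladd hl W
      have kA : ∀ i, A i → Nul S (fun k => h (fc (W k)) ((l k).v ⊔ (l k).p.map (fc (B i k)))) := by
        intro i hi
        have h1 : Nul S (fun _ => Real.logb 2 ((N + 1 : ℕ) : ℝ) + 1) := Nul.const S _
        apply h1.of_le (Eventually.of_forall fun k => h_nonneg _ _)
        filter_upwards [hA i hi, hG] with k a b
        have e1 : (l k).v ⊔ (l k).p.map (fc (B i k)) = fc ((l k).V ⊓ Setoid.comap (l k).p.π (B i k)) := rfl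
        rw [e1]
        apply h_list (F := (l k).T) (Xr E Q G k) _ (N + 1) (by omega)
        intro ω₀ h0
        by_cases hp : ∃ ω1, (l k).T.μ ω1 ≠ 0 ∧ E k ω1 ∧ ((l k).V ⊓ Setoid.comap (l k).p.π (B i k)) ω₀ ω1 ∧ (l k).T.Z ω₀ ω1
        · obtain ⟨ω1, h1, hE1, hs1, hz1⟩ := hp
          obtain ⟨X, hX, hX'⟩ := hQ2 k _ (b ω1 h1).pdM
          refine ⟨insert none (X.image some), ?_, fun ω hω hs hz => ?_⟩
          · refine (Finset.card_insert_le _ _).trans ?_
            have := (Finset.card_image_le (s := X) (f := some)).trans hX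
            omega
          · by_cases hE : E k ω
            · apply Finset.mem_insert_of_mem
              have e2 : Xr E Q G k ω = some (Q k (G k ω)) := by simp only [Xr, if_pos hE]
              rw [e2]
              apply Finset.mem_image_of_mem
              apply hX' _ (b ω hω).pdM
              have hs2 : ((l k).V ⊓ Setoid.comap (l k).p.π (B i k)) ω1 ω := Setoid.trans' _ (Setoid.symm' _ hs1) hs
              have hz2 : (l k).T.Z ω1 ω := Setoid.trans' _ (Setoid.symm' _ hz1) hz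
              have hRe : R k ≤ Real.exp (L k) := by
                rw [hexpL]
                have := Real.add_one_le_exp (1 : ℝ)
                nlinarith [hR k]
              have a1 := a ω1 ω h1 hω hE1 hE hs2.1 hz2 hs2.2
              have a2 := a ω ω1 hω h1 hE hE1 (Setoid.symm' _ hs2.1) (Setoid.symm' _ hz2) (Setoid.symm' _ hs2.2)
              exact ⟨fun v => (a1 v).trans (mul_le_mul_of_nonneg_right hRe ((b ω hω).psd.2 v)),
                fun v => (a2 v).trans (mul_le_mul_of_nonneg_right hRe ((b ω1 h1).psd.2 v))⟩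
            · have e2 : Xr E Q G k ω = none := by simp only [Xr, if_neg hE]
              rw [e2]
              exact Finset.mem_insert_self _ _
        · refine ⟨{none}, by simp, fun ω hω hs hz => ?_⟩
          have hE : ¬ E k ω := fun hE => hp ⟨ω, hω, hE, hs, hz⟩
          have e2 : Xr E Q G k ω = none := by simp only [Xr, if_neg hE]
          rw [e2]
          exact Finset.mem_singleton_self _
      intro i
      induction hA' i with
      | base i hi => exact kA i hi
      | step i i1 i2 _ _ h3 ih1 ih2 =>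
        have h4 := (h3.add ih1).add ih2
        apply h4.of_le (Eventually.of_forall fun k => h_nonneg _ _)
        exact Eventually.of_forall fun k => h_via _ _ _ _ _
  · filter_upwards [hcmp] with k a ω hω hE v
    obtain ⟨a1, a2, a3⟩ := a ω hω
    refine (a3 v).trans ?_
    have hc : 0 ≤ cR0 ι * R k ^ cR1 ι * P k := mul_nonneg (mul_nonneg (zero_le_one.trans (cR0_one ι))
      (pow_nonneg (by linarith [hR k]) _)) (by linarith [hP k])
    apply mul_le_mul_of_nonneg_left _ hc
    rw [gE k ω hE, qad, qon]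
    have := dot_self_nonneg v
    linarith
  · have h3 : Xr E Q G k ω = Xr E Q G k ω' := by
      unfold Xr
      by_cases h : E k ω
      · rw [if_pos h, if_pos (h2.mp h), h1]
      · rw [if_neg h, if_neg (fun h' => h (h2.mpr h'))]
    refine ⟨h3, ?_⟩
    show ff k (Xr E Q G k ω) = ff k (Xr E Q G k ω')
    rw [h3]

end

end Pool.Agent.Helper38.NSL

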