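import Pool.Agent.Helper38.NSL.He2
import Pool.Agent.Helper38.NSL.Exw
import Pool.Agent.Helper66.MT.Gap
import Pool.Agent.Helper17.KL.Can

/-! NSL*, TRANSVERSALITY FROM STABILITY: the resolution and the windows of types which cover all types have no close forms
with exponents on events of positive mass, if the hulls of K-labels are trivial on events. -/

set_option autoImplicit false

namespace Pool.Agent.Helper38.NSL

open Finset Filter Topology Matrix Pool.Agent.Helper69.RK Pool.Agent.Helper31.EC Pool.Agent.Helper31.EC.Sp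
open Pool.Agent.Helper40.EL
open Pool.Agent.Helper84.MT Pool.Agent.Helper3.LF Pool.Agent.Helper59.LF Pool.Agent.Helper89.LX
open Pool.Agent.Helper48.NS Pool.Agent.Helper49.MD Pool.Agent.Helper87.NSL
open Pool.Agent.Helper14.MC (gexq gexq_bd gexq_UB gexq_nonneg GQ_dom gx vx vx_UB vol_eq)
open Pool.Agent.Helper66.MT (cR0 cR1 cR0_one Gd adf_onG adf_fm cndBR cndBR_eq DMf_triv)

noncomputable section

variable {S : Sp} {M D : ℕ} {E : ℕ → ℕ} {ι κ : Type}

/-- the window of the type `v` is known to the window of the type `i` -/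
def Cov (s : MSys S M E ι) (c : ℝ) (v i : ι) : Prop :=
  Nul S (fun k => h ((s.lf v).win c k) ((s.lf i).win c k))

theorem imap_h_le {T F : FSp} (p : FPj T F) (A : T.Ω → Prop) (x y : FL F) :
    T.pb A * h (FSp.imap p A x) (FSp.imap p A y) ≤ h x y := by
  have e3 : h (FSp.imap p A x) (FSp.imap p A y) = h ((FSp.imp p A).map (FSp.imap p A x)) ((FSp.imp p A).map
    (FSp.imap p A y)) := ((FSp.imp p A).h_map _ _).symm
  rw [e3, FSp.imp_imap, FSp.imp_imap, ← p.h_map x y]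
  exact T.rmap_h_le A _ _

theorem Cov.im {s : MSys S M E ι} {c : ℝ} {v i : ι} (hc : Cov s c v i) {T : Sp} (q : Pj T S)
    (A : ∀ k, (T.F k).Ω → Prop) (hA : 0 < ul (T.pr A)) : Cov (s.im q A hA) c v i := by
  have h1 : Nul T (fun k => h (((s.im q A hA).lf v).win c k) (((s.im q A hA).lf i).win c k)) := by
    apply Nul.div_pr hA ((Lab.nul_pj q).mpr hc) (fun k => h_nonneg _ _)
    intro k
    exact (imap_h_le (q.fp k) (A k) ((s.lf v).win c k) ((s.lf i).win c k)).trans (by linarith)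
  exact (Lab.nul_pj q).mp h1

/-- the support of the space of an event -/
theorem im_id_supp (A : ∀ k, (S.F k).Ω → Prop) (k : ℕ) (ω : (S.F k).Ω)
    (h : ((Sp.im (Pj.id S) A).F k).μ ω ≠ 0) (hA : (S.F k).pb (A k) ≠ 0) : (S.F k).μ ω ≠ 0 ∧ A k ω := by
  obtain ⟨τ, h1, h2⟩ := exists_over (FSp.imp ((Pj.id S).fp k) (A k)) ω h
  have h3 : τ = ω := h2
  have h4 := (S.F k).rest_supp (A k) τ h1
  rw [h3] at h4
  exact ⟨h4.1, h4.2 hA⟩

/-- the constant of the loss -/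
def C3 (M D : ℕ) : ℝ := (2 * (cR1 (Mon M D) : ℝ) + 2) * M / 2

theorem C3_nonneg (M D : ℕ) : 0 ≤ C3 M D := by
  unfold C3; positivity

/-- a sequence of close forms -/
theorem hasE_seq {Q : S.VV M} {W : κ → ∀ k, Setoid (S.F k).Ω} {e γ p : ℝ}
    (h : ∀ᶠ k in UF, HasE (S.F k) M D (Q.v k) (fun i => W i k) e γ p) :
    ∃ (A : ∀ k, (S.F k).Ω → Prop) (J : κ → ∀ k, (S.F k).Ω → Matrix (Mon M D) (Mon M D) ℝ),
      ∀ᶠ k in UF, p ≤ (S.F k).pb (A k) ∧
        (∀ i ω ω', (S.F k).μ ω ≠ 0 → (S.F k).μ ω' ≠ 0 → (S.F k).Z ω ω' → W i k ω ω' → J i k ω = J i k ω') ∧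
        (∀ i ω, (S.F k).μ ω ≠ 0 → Cpd (capF (S.F k) D) (J i k ω)) ∧
        ∀ ω, (S.F k).μ ω ≠ 0 → A k ω → (∀ i j, Nr (e * (S.F k).n) (J i k ω) (J j k ω)) ∧
          ∀ i, phi (dlF (S.F k) 1) (J i k ω) (Q.v k ω) ≤ 2 ^ (e * (S.F k).n) ∧ γ ≤ gxF (S.F k) (Q.v k) (J i k) ω := by
  classical
  have h1 : ∀ k, ∃ X : ((S.F k).Ω → Prop) × (κ → (S.F k).Ω → Matrix (Mon M D) (Mon M D) ℝ),
      HasE (S.F k) M D (Q.v k) (fun i => W i k) e γ p → p ≤ (S.F k).pb X.1 ∧
        (∀ i ω ω', (S.F k).μ ω ≠ 0 → (S.F k).μ ω' ≠ 0 → (S.F k).Z ω ω' → W i k ω ω' → X.2 i ω = X.2 i ω') ∧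
        (∀ i ω, (S.F k).μ ω ≠ 0 → Cpd (capF (S.F k) D) (X.2 i ω)) ∧
        ∀ ω, (S.F k).μ ω ≠ 0 → X.1 ω → (∀ i j, Nr (e * (S.F k).n) (X.2 i ω) (X.2 j ω)) ∧
          ∀ i, phi (dlF (S.F k) 1) (X.2 i ω) (Q.v k ω) ≤ 2 ^ (e * (S.F k).n) ∧
            γ ≤ gxF (S.F k) (Q.v k) (X.2 i) ω := by
    intro k
    by_cases hk : HasE (S.F k) M D (Q.v k) (fun i => W i k) e γ p
    · obtain ⟨A, J, h2⟩ := hk
      exact ⟨(A, J), fun _ => h2⟩
    · exact ⟨(fun _ => True, fun _ _ => 1), fun h => absurd h hk⟩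
  choose X hX using h1
  refine ⟨fun k => (X k).1, fun i k => (X k).2 i, ?_⟩
  filter_upwards [h] with k hk using hX k hk

/-- EXACT K-FORMS from close forms on events, with the resolution in the family -/
theorem kform_of_hasE (s : MSys S M E ι) (R : ∀ k, Setoid (S.F k).Ω) (c : ℝ) (V : κ → ι)
    (hcov : ∀ i, ∃ j, Cov s c (V j) i) {e γ p : ℝ} (he : 0 < e) (hp : 0 < p) [Finite ι]
    (hh : ∀ᶠ k in UF, HasE (S.F k) M D (s.Q.v k) (fun i => optW R (fun j => wn s c (V j)) i k) e γ p) :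
    ∃ (A : ∀ k, (S.F k).Ω → Prop) (hA : 0 < ul (S.pr A)) (G : ∀ k, (S.F k).Ω → Matrix (Mon M D) (Mon M D) ℝ),
      (gaq (s.im (Pj.id S) A hA).Q D).AdfK (LC.kz (S := Sp.im (Pj.id S) A) fun k => fc (R k))
        (cndR (s.im (Pj.id S) A hA) R c) (fun k => onG ((Sp.im (Pj.id S) A).F k) (G k)) ∧
      ∀ᶠ k in UF, ∀ ω, ((Sp.im (Pj.id S) A).F k).μ ω ≠ 0 →
        γ - C3 M D * e ≤ gxF ((Sp.im (Pj.id S) A).F k) (s.Q.v k) (G k) ω := by
  classical
  obtain ⟨A, J, hJ⟩ := hasE_seq (Q := s.Q) (W := optW R (fun j => wn s c (V j))) hh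
  have hA : 0 < ul (S.pr A) := by
    have h1 : p ≤ ul (S.pr A) := by
      apply const_le_ul (Sp.UB_pr A)
      filter_upwards [hJ] with k hk using hk.1
    linarith
  have hA0 : ∀ᶠ k in UF, (S.F k).pb (A k) ≠ 0 := by
    filter_upwards [hJ] with k hk
    linarith [hk.1]
  obtain ⟨s', hs'⟩ : ∃ s' : MSys (Sp.im (Pj.id S) A) M E ι, s' = s.im (Pj.id S) A hA := ⟨_, rfl⟩
  have hn := fun k => (S.F k).pos
  have hE1 : ∀ k, (1 : ℝ) ≤ 2 ^ (e * (S.F k).n) := fun k => Real.one_le_rpow (by norm_num) (mul_pos he (hn k)).le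
  have hE2 : ∀ k, (1 : ℝ) ≤ 2 ^ (2 * e * (S.F k).n) := fun k => Real.one_le_rpow (by norm_num)
    (by have := mul_pos he (hn k); nlinarith)
  have hG : ∀ᶠ k in UF, ∀ ω, ((Sp.im (Pj.id S) A).F k).μ ω ≠ 0 → Cpd ((gaq s'.Q D).cp k) (J none k ω) := by
    filter_upwards [hJ, hA0] with k hk h0 ω hω
    exact hk.2.2.1 none ω (im_id_supp A k ω hω h0).1
  have hφ : Sp.Typ (S := Lab.sp (S := Sp.im (Pj.id S) A) (fun k => FLab.triv ((Sp.im (Pj.id S) A).F k)))
      (fun k (ω : (S.F k).Ω) => True → (gaq s'.Q D).φ k ω (J none k ω) ≤ 2 ^ (e * (S.F k).n)) := by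
    refine typ_mono (S := Lab.sp (S := Sp.im (Pj.id S) A) (fun k => FLab.triv ((Sp.im (Pj.id S) A).F k)))
      Pool.Agent.Helper66.MT.typ_true ?_
    filter_upwards [hJ, hA0] with k hk h0 ω hω _ _
    have h2 := im_id_supp A k ω hω h0
    have h3 := ((hk.2.2.2 ω h2.1 h2.2).2 none).1
    subst hs'
    exact h3
  have hAA : ∀ i : Option ι, (i = none ∨ ∃ j, i = some (V j)) → ∀ᶠ k in UF, ∀ ω ω',
      ((Sp.im (Pj.id S) A).F k).μ ω ≠ 0 → ((Sp.im (Pj.id S) A).F k).μ ω' ≠ 0 → True →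
      True → (FLab.triv ((Sp.im (Pj.id S) A).F k)).V ω ω' → ((Sp.im (Pj.id S) A).F k).Z ω ω' →
      cndBR s' R c i k ω ω' → ∀ z, qf (J none k ω) z ≤ 2 ^ (2 * e * (S.F k).n) * qf (J none k ω') z := by
    rintro i (hi | ⟨j, hi⟩)
    · subst hi
      filter_upwards [hJ, hG] with k a b ω ω' hω hω' _ _ _ hZ hb z
      have h0 : (S.F k).μ ω ≠ 0 := FSp.im_supp ((Pj.id S).fp k) (A k) ω hω
      have h0' : (S.F k).μ ω' ≠ 0 := FSp.im_supp ((Pj.id S).fp k) (A k) ω' hω'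
      rw [a.2.1 none ω ω' h0 h0' hZ hb]
      have h3 : 0 ≤ qf (J none k ω') z := (b ω' hω').psd.2 z
      have h4 := hE2 k
      nlinarith
    · subst hi
      filter_upwards [hJ, hG, hA0] with k a b hp0 ω ω' hω hω' _ _ _ hZ hb z
      obtain ⟨h0, hA1⟩ := im_id_supp A k ω hω hp0
      obtain ⟨h0', hA2⟩ := im_id_supp A k ω' hω' hp0
      have hb' : wn s c (V j) k ω ω' := by
        subst hs'
        exact hb
      have h3 := (((a.2.2.2 ω h0 hA1).1 none (some j))).1 z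
      have h4 := (((a.2.2.2 ω' h0' hA2).1 none (some j))).2 z
      rw [a.2.1 (some j) ω ω' h0 h0' hZ hb'] at h3
      have h5 : (0 : ℝ) < 2 ^ (e * (S.F k).n) := by positivity
      have h6 := mul_le_mul_of_nonneg_left h4 h5.le
      have e1 : (2 : ℝ) ^ (2 * e * (S.F k).n) = 2 ^ (e * (S.F k).n) * 2 ^ (e * (S.F k).n) := by
        rw [← Real.rpow_add (by norm_num)]
        congr 1
        ring
      rw [e1, mul_assoc]
      exact h3.trans h6
  have hgd : ∀ i, Gd (fun i : Option ι => i = none ∨ ∃ j, i = some (V j)) (fun i1 i2 i =>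
      Nul (Sp.im (Pj.id S) A) (fun k =>
      I ((FLab.triv ((Sp.im (Pj.id S) A).F k)).p.map (fc (cndBR s' R c i1 k)))
        ((FLab.triv ((Sp.im (Pj.id S) A).F k)).p.map (fc (cndBR s' R c i2 k)))
      ((FLab.triv ((Sp.im (Pj.id S) A).F k)).v ⊔ (FLab.triv ((Sp.im (Pj.id S) A).F k)).p.map
        (fc (cndBR s' R c i k))))) i := by
    intro i
    rcases i with _ | i
    · exact Gd.base _ (Or.inl rfl)
    · obtain ⟨j, hj⟩ := hcov i
      have hb : Gd (fun i : Option ι => i = none ∨ ∃ j, i = some (V j)) (fun i1 i2 i =>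
          Nul (Sp.im (Pj.id S) A) (fun k =>
          I ((FLab.triv ((Sp.im (Pj.id S) A).F k)).p.map (fc (cndBR s' R c i1 k)))
            ((FLab.triv ((Sp.im (Pj.id S) A).F k)).p.map (fc (cndBR s' R c i2 k)))
          ((FLab.triv ((Sp.im (Pj.id S) A).F k)).v ⊔ (FLab.triv ((Sp.im (Pj.id S) A).F k)).p.map
            (fc (cndBR s' R c i k))))) (some (V j)) := Gd.base _ (Or.inr ⟨j, rfl⟩)
      refine Gd.step (some i) (some (V j)) (some (V j)) hb hb ?_
      apply Pool.Agent.Helper66.MT.Iv_triv (S := Sp.im (Pj.id S) A)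
      have h1 : Nul (Sp.im (Pj.id S) A) (fun k => h ((s'.lf (V j)).win c k) ((s'.lf i).win c k)) := by
        rw [hs']
        exact hj.im (Pj.id S) A hA
      apply h1.of_le (Eventually.of_forall fun k => I_nonneg _ _ _)
      refine Eventually.of_forall fun k => ?_
      exact I_le_h_left _ _ _
  obtain ⟨W, g, hm, r1, r2, r3⟩ := exact_formW (gaq s'.Q D) (fun k ω A B _ _ h => Pool.Agent.Helper3.LF.phi_mono _ h _)
    (fun k ω c A => Pool.Agent.Helper3.LF.phi_smul _ _ _ _) (cndBR s' R c) (DMf_triv _) (fun k => J none k) hG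
    (fun _ _ => True) (fun k => 2 ^ (e * (S.F k).n)) hE1 hφ (fun k => 2 ^ (2 * e * (S.F k).n)) hE2 _ hAA hgd
  rw [cndBR_eq] at r1
  have r5 := adf_onG (gaq s'.Q D) W g hm r1
  subst hs'
  refine ⟨A, hA, g, ⟨r5, ?_⟩, ?_⟩
  · filter_upwards [hJ] with k hk
    show FLab.leak (onG ((Sp.im (Pj.id S) A).F k) (g k)).l (fc (R k)) = 0
    apply I_zero_of_le_left
    apply fc_le
    intro ω ω' h1 h2 h3 h4
    have h5 : J none k ω = J none k ω' := hk.2.1 none ω ω' (FSp.im_supp ((Pj.id S).fp k) (A k) ω h1)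
      (FSp.im_supp ((Pj.id S).fp k) (A k) ω' h2) h3 h4
    exact (r3 k ω ω' h5 Iff.rfl).2
  · filter_upwards [r2, (adf_fm.mp r5).2 1 one_pos,
      (S.Sub_const (zero_le_one.trans (cR0_one (Mon M D)))).eventually_le he, hJ, hA0, hG] with k a b d j0 hp0 hGk ω hω
    obtain ⟨h0, hA1⟩ := im_id_supp A k ω hω hp0
    have c1 : γ ≤ gxF (S.F k) (s.Q.v k) (J none k) ω := ((j0.2.2.2 ω h0 hA1).2 none).2
    have c2 : Cpd ((gaq (s.im (Pj.id S) A hA).Q D).cp k) (g k ω) := (b.1 ω hω).1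
    have c3 := hGk ω hω
    have hc : cR0 (Mon M D) ≤ 2 ^ (e * (S.F k).n) := by linarith
    have e1 : (2 : ℝ) ^ ((2 * (cR1 (Mon M D) : ℝ) + 2) * e * (S.F k).n) =
        2 ^ (e * (S.F k).n) * (2 ^ (2 * e * (S.F k).n)) ^ (cR1 (Mon M D)) * 2 ^ (e * (S.F k).n) := by
      rw [← Real.rpow_natCast, ← Real.rpow_mul (by norm_num), ← Real.rpow_add (by norm_num),
        ← Real.rpow_add (by norm_num)]
      congr 1
      ring
    have c4 : ∀ z, qf (J none k ω) z ≤ 2 ^ ((2 * (cR1 (Mon M D) : ℝ) + 2) * e * (S.F k).n) * qf (g k ω) z := by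
      intro z
      refine (a ω hω trivial z).trans ?_
      apply mul_le_mul_of_nonneg_right _ (c2.psd.2 z)
      rw [e1]
      apply mul_le_mul_of_nonneg_right _ (by positivity)
      exact mul_le_mul_of_nonneg_right hc (by positivity)
    have c5 := gxF_dom (F := S.F k) (Q := s.Q.v k) (A := g k) (B := J none k) (ω := ω) c2 c3
      (a := (2 * (cR1 (Mon M D) : ℝ) + 2) * e) (by positivity) c4
    have c6 : gxF ((Sp.im (Pj.id S) A).F k) (s.Q.v k) (g k) ω = gxF (S.F k) (s.Q.v k) (g k) ω := rfl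
    rw [c6]
    unfold C3
    linarith

/-- exponents bounded below at every point -/
theorem vx_onG_ge {Q : S.VV M} {G : ∀ k, (S.F k).Ω → Matrix (Mon M D) (Mon M D) ℝ} {κ' : Type} {A : κ' → Part S}
    (hx : (gaq Q D).Adf A (fun k => onG (S.F k) (G k))) {a : ℝ}
    (h : ∀ᶠ k in UF, ∀ ω, (S.F k).μ ω ≠ 0 → a ≤ gxF (S.F k) (Q.v k) (G k) ω) :
    a ≤ ul (vx Q (fun k => onG (S.F k) (G k))) := by
  apply const_le_ul (vx_UB hx)
  filter_upwards [h] with k hk
  have e1 : vx Q (fun k => onG (S.F k) (G k)) k = ∑ ω, (S.F k).μ ω * gxF (S.F k) (Q.v k) (G k) ω := rfl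
  rw [e1]
  have e2 : a = ∑ ω, (S.F k).μ ω * a := by
    have h4 : ∑ ω, (S.F k).μ ω = 1 := (S.F k).ms
    rw [← Finset.sum_mul, h4, one_mul]
  rw [e2]
  apply Finset.sum_le_sum
  intro ω _
  by_cases h0 : (S.F k).μ ω = 0
  · rw [h0, zero_mul, zero_mul]
  · exact mul_le_mul_of_nonneg_left (hk ω h0) ((S.F k).nn ω)

/-- **STABLE SYSTEMS ARE TRANSVERSAL**: if on every event all forms over exact K-labels are trivial, then the resolution and
the windows of a covering family of types are transversal -/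
theorem nhe_of_stab [Finite ι] (s : MSys S M E ι) (R : ∀ k, Setoid (S.F k).Ω) (c : ℝ) (V : κ → ι)
    (hcov : ∀ i, ∃ j, Cov s c (V j) i)
    (hst : ∀ (A : ∀ k, (S.F k).Ω → Prop) (hA : 0 < ul (S.pr A))
      (x : ∀ k, FD ((Sp.im (Pj.id S) A).F k) (Mon M D)),
      (gaq (s.im (Pj.id S) A hA).Q D).AdfK (LC.kz (S := Sp.im (Pj.id S) A) fun k => fc (R k))
        (cndR (s.im (Pj.id S) A hA) R c) x → (M : ℝ) ≤ vol (s.im (Pj.id S) A hA).Q D x) :
    NHE s.Q D (optW R fun j => wn s c (V j)) (C3 M D) := by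
  intro e γ p he hγ hp
  by_contra hn
  have h1 : ∀ᶠ k in UF, HasE (S.F k) M D (s.Q.v k) (fun i => optW R (fun j => wn s c (V j)) i k) e γ p := by
    filter_upwards [UF_not hn] with k hk
    exact not_not.mp hk
  obtain ⟨A, hA, G, hG1, hG2⟩ := kform_of_hasE s R c V hcov he hp h1
  have h2 := hst A hA _ hG1
  rw [vol_eq] at h2
  have h3 := vx_onG_ge hG1.1 hG2
  linarith

end

end Pool.Agent.Helper38.NSL
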