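import Pool.Agent.Helper33.LIT.Flab
import Pool.Agent.Helper59.GR.Vol

/-! SELECTION: a label whose leak at a condition is exactly zero is a kernel of the condition; any property which relates
the point to the value of the label with probability `p` holds with probability at least `p` for ONE value in every cell
of the condition. -/

set_option autoImplicit false

namespace Pool.Agent.Helper38.NSL

open Finset Pool.Agent.Helper69.RK Pool.Agent.Helper31.EC Pool.Agent.Helper40.EL Pool.Agent.Helper33.LIT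

noncomputable section

theorem gib1 {a b : ℝ} (ha : 0 ≤ a) (hb : 0 ≤ b) (hab : a ≠ 0 → b ≠ 0) :
    a - b ≤ a * (Real.log a - Real.log b) ∧ (a * (Real.log a - Real.log b) ≤ a - b → a = b) := by
  rcases ha.eq_or_lt with h | h
  · rw [← h]
    constructor
    · rw [zero_mul]; linarith
    · intro h1
      rw [zero_mul] at h1
      linarith
  · have hb0 : 0 < b := lt_of_le_of_ne hb (Ne.symm (hab h.ne'))
    have e1 : a * (Real.log a - Real.log b) = -(a * Real.log (b / a)) := by
      rw [Real.log_div hb0.ne' h.ne']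
      ring
    have e2 : a - b = -(a * (b / a - 1)) := by
      field_simp
      ring
    have hp : 0 < b / a := div_pos hb0 h
    constructor
    · rw [e1, e2]
      have := mul_le_mul_of_nonneg_left (Real.log_le_sub_one_of_pos hp) h.le
      linarith
    · intro h1
      by_contra hne
      have h2 : b / a ≠ 1 := by
        intro h3
        apply hne
        rw [div_eq_one_iff_eq h.ne'] at h3
        exact h3.symm
      have h3 := mul_lt_mul_of_pos_left (Real.log_lt_sub_one_of_pos hp h2) h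
      rw [e1, e2] at h1
      linarith

section gibbs
variable {V : Type} [Fintype V] {p q : V → ℝ} (hp : ∀ v, 0 ≤ p v) (hq : ∀ v, 0 ≤ q v) (hpq : ∀ v, p v ≠ 0 → q v ≠ 0)
  (sp : ∑ v, p v = 1) (sq : ∑ v, q v ≤ 1)
include hp hq hpq sp sq

theorem gibbs_nonneg : 0 ≤ ∑ v, p v * (Real.logb 2 (p v) - Real.logb 2 (q v)) := by
  have hl : 0 < Real.log 2 := Real.log_pos (by norm_num)
  have e1 : ∀ v, p v * (Real.logb 2 (p v) - Real.logb 2 (q v)) =
      p v * (Real.log (p v) - Real.log (q v)) / Real.log 2 := by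
    intro v
    unfold Real.logb
    field_simp
  rw [Finset.sum_congr rfl (fun v _ => e1 v), ← Finset.sum_div]
  apply div_nonneg _ hl.le
  have h1 : ∑ v, (p v - q v) ≤ ∑ v, p v * (Real.log (p v) - Real.log (q v)) :=
    Finset.sum_le_sum fun v _ => (gib1 (hp v) (hq v) (hpq v)).1
  rw [Finset.sum_sub_distrib] at h1
  linarith

theorem gibbs_eq (h : ∑ v, p v * (Real.logb 2 (p v) - Real.logb 2 (q v)) ≤ 0) (v : V) : p v = q v := by
  have hl : 0 < Real.log 2 := Real.log_pos (by norm_num)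
  have e1 : ∀ v, p v * (Real.logb 2 (p v) - Real.logb 2 (q v)) =
      p v * (Real.log (p v) - Real.log (q v)) / Real.log 2 := by
    intro v
    unfold Real.logb
    field_simp
  rw [Finset.sum_congr rfl (fun v _ => e1 v), ← Finset.sum_div, div_le_iff₀ hl, zero_mul] at h
  apply (gib1 (hp v) (hq v) (hpq v)).2
  have h1 : ∑ v, (p v * (Real.log (p v) - Real.log (q v)) - (p v - q v)) ≤ 0 := by
    rw [Finset.sum_sub_distrib, Finset.sum_sub_distrib]
    linarith
  have h2 := Finset.single_le_sum (f := fun v => p v * (Real.log (p v) - Real.log (q v)) - (p v - q v))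
    (fun v _ => by
      have := (gib1 (hp v) (hq v) (hpq v)).1
      linarith) (Finset.mem_univ v)
  have h3 : p v * (Real.log (p v) - Real.log (q v)) - (p v - q v) ≤ 0 := h2.trans h1
  linarith

end gibbs

variable {F : FSp} (l : FLab F) (A : Setoid F.Ω)

/-- the law of the value of the label given the cell of the condition -/
def qk (x : F.Ω) (v : Quotient l.V) : ℝ := cpk l.T.μ (mk l) (fun τ => cg A (l.p.π τ)) (cg A x) v

theorem qk_congr {x y : F.Ω} (h : cg A x = cg A y) (v : Quotient l.V) : qk l A x v = qk l A y v := by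
  unfold qk
  rw [h]

theorem kr_qk_ne {x : F.Ω} (hx : F.μ x ≠ 0) {v : Quotient l.V} (h : kr l x v ≠ 0) : qk l A x v ≠ 0 := by
  obtain ⟨τ, h1, h2, h3⟩ := kr_ne l hx h
  have h4 := cpk_pos (f := mk l) (g := fun τ => cg A (l.p.π τ)) l.T.nn h3
  beta_reduce at h4
  rw [h1, h2] at h4
  exact h4.ne'

/-- a label without leak is a kernel of the condition -/
theorem kr_of_leak (hl : l.leak (fc A) = 0) {x : F.Ω} (hx : F.μ x ≠ 0) (v : Quotient l.V) : kr l x v = qk l A x v := by
  have h1 := leak_sum l A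
  rw [hl] at h1
  have h2 : ∀ y, 0 ≤ F.μ y * ∑ v, kr l y v * (Real.logb 2 (kr l y v) - Real.logb 2 (qk l A y v)) := by
    intro y
    by_cases h0 : F.μ y = 0
    · rw [h0, zero_mul]
    · apply mul_nonneg (F.nn y)
      exact gibbs_nonneg (kr_nonneg l y) (fun v => cpk_nonneg l.T.nn _ _) (fun v h => kr_qk_ne l A h0 h) (kr_sum l y)
        (cpk_sum_le l.T.nn _)
  have h3 := (Finset.sum_eq_zero_iff_of_nonneg (fun y _ => h2 y)).mp h1.symm x (Finset.mem_univ x)
  have h4 : ∑ v, kr l x v * (Real.logb 2 (kr l x v) - Real.logb 2 (qk l A x v)) = 0 := by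
    rcases mul_eq_zero.mp h3 with h5 | h5
    · exact absurd h5 hx
    · exact h5
  exact gibbs_eq (kr_nonneg l x) (fun v => cpk_nonneg l.T.nn _ _) (fun v h => kr_qk_ne l A hx h) (kr_sum l x)
    (cpk_sum_le l.T.nn _) h4.le v

/-- SELECTION of one value in every cell, for any function of the point and the value -/
theorem sel_fun (hl : l.leak (fc A) = 0) (φ : F.Ω → Quotient l.V → ℝ) :
    ∃ w : Quotient (A ⊓ F.Z) → Quotient l.V, (∀ x, F.μ x ≠ 0 → qk l A x (w (cg A x)) ≠ 0) ∧
      ∑ x, F.μ x * φ x (w (cg A x)) ≤ ∑ τ, l.T.μ τ * φ (l.p.π τ) (mk l τ) := by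
  classical
  have : Fintype (Quotient (A ⊓ F.Z)) := Fintype.ofFinite _
  have hw : ∀ c : Quotient (A ⊓ F.Z), ∃ w : Quotient l.V, (∀ x, F.μ x ≠ 0 → cg A x = c → qk l A x w ≠ 0) ∧
      ∑ x ∈ univ.filter (fun x => cg A x = c), F.μ x * φ x w ≤
        ∑ x ∈ univ.filter (fun x => cg A x = c), F.μ x * ∑ v, kr l x v * φ x v := by
    intro c
    by_cases hc : ∃ x, F.μ x ≠ 0 ∧ cg A x = c
    · obtain ⟨x0, hx0, rfl⟩ := hc
      have hne : (univ.filter (fun v => qk l A x0 v ≠ 0)).Nonempty := by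
        by_contra hn
        rw [Finset.not_nonempty_iff_eq_empty, Finset.filter_eq_empty_iff] at hn
        have h1 := kr_sum l x0
        rw [Finset.sum_eq_zero] at h1
        · exact zero_ne_one h1
        · intro v _
          rw [kr_of_leak l A hl hx0]
          exact not_not.mp (hn (Finset.mem_univ v))
      obtain ⟨w, hw1, hw2⟩ := Finset.exists_min_image _
        (fun v => ∑ x ∈ univ.filter (fun x => cg A x = cg A x0), F.μ x * φ x v) hne
      have hw3 : qk l A x0 w ≠ 0 := (Finset.mem_filter.mp hw1).2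
      refine ⟨w, fun x _ hx => ?_, ?_⟩
      · rw [qk_congr l A hx]
        exact hw3
      · have e1 : ∑ x ∈ univ.filter (fun x => cg A x = cg A x0), F.μ x * ∑ v, kr l x v * φ x v =
            ∑ v, qk l A x0 v * ∑ x ∈ univ.filter (fun x => cg A x = cg A x0), F.μ x * φ x v := by
          rw [Finset.sum_congr rfl (fun x hx => ?_ : ∀ x ∈ univ.filter (fun x => cg A x = cg A x0),
            F.μ x * ∑ v, kr l x v * φ x v = ∑ v, qk l A x0 v * (F.μ x * φ x v)), Finset.sum_comm]
          · exact Finset.sum_congr rfl fun v _ => by rw [Finset.mul_sum]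
          · rw [Finset.mul_sum]
            refine Finset.sum_congr rfl fun v _ => ?_
            by_cases h0 : F.μ x = 0
            · rw [h0]; ring
            · rw [kr_of_leak l A hl h0, qk_congr l A (Finset.mem_filter.mp hx).2]
              ring
        have e2 : ∑ v, qk l A x0 v = 1 := by
          rw [← kr_sum l x0]
          exact Finset.sum_congr rfl fun v _ => (kr_of_leak l A hl hx0 v).symm
        rw [e1]
        have h3 : ∀ v, qk l A x0 v * (∑ x ∈ univ.filter (fun x => cg A x = cg A x0), F.μ x * φ x w) ≤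
            qk l A x0 v * ∑ x ∈ univ.filter (fun x => cg A x = cg A x0), F.μ x * φ x v := by
          intro v
          by_cases h0 : qk l A x0 v = 0
          · rw [h0, zero_mul, zero_mul]
          · exact mul_le_mul_of_nonneg_left (hw2 v (Finset.mem_filter.mpr ⟨Finset.mem_univ v, h0⟩))
              (cpk_nonneg l.T.nn _ _)
        have h4 := Finset.sum_le_sum fun v (_ : v ∈ univ) => h3 v
        rw [← Finset.sum_mul, e2, one_mul] at h4
        exact h4
    · push Not at hc
      refine ⟨mk l (exists_T l).some, fun x h1 h2 => absurd h2 (hc x h1), ?_⟩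
      apply le_of_eq
      apply Finset.sum_congr rfl
      intro x hx
      have h0 : F.μ x = 0 := by
        by_contra h
        exact hc x h (Finset.mem_filter.mp hx).2
      rw [h0, zero_mul, zero_mul]
  choose w hw1 hw2 using hw
  refine ⟨w, fun x hx => hw1 _ x hx rfl, ?_⟩
  rw [← kr_push l φ, ← Finset.sum_fiberwise univ (fun x => cg A x) (fun x => F.μ x * φ x (w (cg A x))),
    ← Finset.sum_fiberwise univ (fun x => cg A x) (fun x => F.μ x * ∑ v, kr l x v * φ x v)]
  apply Finset.sum_le_sum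
  intro c _
  refine le_trans (le_of_eq ?_) (hw2 c)
  apply Finset.sum_congr rfl
  intro x hx
  rw [(Finset.mem_filter.mp hx).2]

/-- SELECTION of one value in every cell -/
theorem sel_val (hl : l.leak (fc A) = 0) (B : F.Ω → Quotient l.V → Prop) :
    ∃ w : Quotient (A ⊓ F.Z) → Quotient l.V, (∀ x, F.μ x ≠ 0 → qk l A x (w (cg A x)) ≠ 0) ∧
      F.pb (fun x => B x (w (cg A x))) ≤ l.T.pb (fun τ => B (l.p.π τ) (mk l τ)) := by
  obtain ⟨w, h1, h2⟩ := sel_fun l A hl (fun x v => e1_ind (B x v))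
  refine ⟨w, h1, ?_⟩
  rw [Pool.Agent.Helper59.GR.pb_ind, Pool.Agent.Helper59.GR.pb_ind]
  exact h2

/-- a value with positive conditional probability is taken in the cell -/
theorem qk_ne {x : F.Ω} {v : Quotient l.V} (h : qk l A x v ≠ 0) :
    ∃ τ, l.T.μ τ ≠ 0 ∧ mk l τ = v ∧ cg A (l.p.π τ) = cg A x := by
  classical
  by_contra hc
  push Not at hc
  apply h
  unfold qk cpk
  rw [Finset.sum_eq_zero, zero_div]
  intro τ _
  split_ifs with h1
  · by_contra h2
    exact hc τ h2 h1.2 h1.1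
  · rfl

/-- SELECTION for a variable of the label: one value in every cell of the condition, with at least the same probability
of the relation `G` to the point -/
theorem sel_var {β : Type} [Nonempty β] (hl : l.leak (fc A) = 0) (g : l.T.Ω → β)
    (hg : ∀ τ τ', l.T.μ τ ≠ 0 → l.T.μ τ' ≠ 0 → l.V τ τ' → l.T.Z τ τ' → g τ = g τ') (G : F.Ω → β → Prop) :
    ∃ X : F.Ω → β, (∀ x y, A x y → F.Z x y → X x = X y) ∧
      (∀ x, F.μ x ≠ 0 → ∃ τ, l.T.μ τ ≠ 0 ∧ X x = g τ ∧ A (l.p.π τ) x ∧ F.Z (l.p.π τ) x) ∧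
      F.pb (fun x => ¬ G x (X x)) ≤ l.T.pb (fun τ => ¬ G (l.p.π τ) (g τ)) := by
  classical
  obtain ⟨w, h1, h2⟩ := sel_val l A hl (fun x v => ¬ ∀ τ, l.T.μ τ ≠ 0 → mk l τ = v → F.Z (l.p.π τ) x → G x (g τ))
  have h3 : ∀ c : Quotient (A ⊓ F.Z), ∃ b : β, ∀ x, F.μ x ≠ 0 → cg A x = c →
      ∃ τ, l.T.μ τ ≠ 0 ∧ mk l τ = w c ∧ b = g τ ∧ cg A (l.p.π τ) = cg A x := by
    intro c
    by_cases hc : ∃ x, F.μ x ≠ 0 ∧ cg A x = c
    · obtain ⟨x0, h0, rfl⟩ := hc
      obtain ⟨τ, a1, a2, a3⟩ := qk_ne l A (h1 x0 h0)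
      exact ⟨g τ, fun x _ hx => ⟨τ, a1, a2, rfl, a3.trans hx.symm⟩⟩
    · push Not at hc
      exact ⟨Classical.arbitrary β, fun x a b => absurd b (hc x a)⟩
  choose b hb using h3
  refine ⟨fun x => b (cg A x), fun x y hA hZ => ?_, fun x hx => ?_, ?_⟩
  · have e : cg A x = cg A y := (Quotient.eq (r := A ⊓ F.Z)).mpr ⟨hA, hZ⟩
    show b (cg A x) = b (cg A y)
    rw [e]
  · obtain ⟨τ, a1, _, a3, a4⟩ := hb _ x hx rfl
    have a5 := (Quotient.eq (r := A ⊓ F.Z)).mp a4
    exact ⟨τ, a1, a3, a5.1, a5.2⟩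
  · refine le_trans (FSp.pb_mono _ fun x hx hG => ?_) (h2.trans (FSp.pb_mono _ fun τ hτ hG hc => ?_))
    · obtain ⟨τ, a1, a2, a3, a4⟩ := hb _ x hx rfl
      intro h5
      apply hG
      show G x (b (cg A x))
      rw [a3]
      exact h5 τ a1 a2 ((Quotient.eq (r := A ⊓ F.Z)).mp a4).2
    · apply hG
      intro τ' h4 h5 h6
      have h7 : l.V τ τ' := (Quotient.eq (r := l.V)).mp h5.symm
      rw [← hg τ τ' hτ h4 h7 ((l.p.hZ τ τ' hτ h4).mpr (F.Z.symm' h6))]
      exact hc

open Classical in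
/-- mass of the value `v` at the point `x` -/
def mv (x : F.Ω) (v : Quotient l.V) : ℝ := ∑ τ, if l.p.π τ = x ∧ mk l τ = v then l.T.μ τ else 0

open Classical in
/-- conditional mean of a weight given the point and the value -/
def wv (u : l.T.Ω → ℝ) (x : F.Ω) (v : Quotient l.V) : ℝ :=
  (∑ τ, if l.p.π τ = x ∧ mk l τ = v then l.T.μ τ * u τ else 0) / mv l x v

theorem mv_nonneg (x : F.Ω) (v : Quotient l.V) : 0 ≤ mv l x v := by
  classical
  exact Finset.sum_nonneg fun τ _ => by split_ifs; exacts [l.T.nn τ, le_rfl]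

theorem wv_mem {u : l.T.Ω → ℝ} (hu : ∀ τ, 0 ≤ u τ ∧ u τ ≤ 1) (x : F.Ω) (v : Quotient l.V) :
    0 ≤ wv l u x v ∧ wv l u x v ≤ 1 := by
  classical
  have h1 : 0 ≤ ∑ τ, if l.p.π τ = x ∧ mk l τ = v then l.T.μ τ * u τ else 0 :=
    Finset.sum_nonneg fun τ _ => by split_ifs; exacts [mul_nonneg (l.T.nn τ) (hu τ).1, le_rfl]
  have h2 : (∑ τ, if l.p.π τ = x ∧ mk l τ = v then l.T.μ τ * u τ else 0) ≤ mv l x v := by
    apply Finset.sum_le_sum
    intro τ _
    split_ifs
    · have := mul_le_mul_of_nonneg_left (hu τ).2 (l.T.nn τ)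
      linarith
    · exact le_rfl
  exact ⟨div_nonneg h1 (mv_nonneg l x v), div_le_one_of_le₀ h2 (mv_nonneg l x v)⟩

theorem wv_ne {u : l.T.Ω → ℝ} {x : F.Ω} {v : Quotient l.V} (h : wv l u x v ≠ 0) :
    ∃ τ, l.p.π τ = x ∧ mk l τ = v ∧ l.T.μ τ ≠ 0 ∧ u τ ≠ 0 := by
  classical
  by_contra hc
  push Not at hc
  apply h
  unfold wv
  rw [Finset.sum_eq_zero, zero_div]
  intro τ _
  split_ifs with h1
  · by_cases h2 : l.T.μ τ = 0
    · rw [h2, zero_mul]
    · rw [hc τ h1.1 h1.2 h2, mul_zero]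
  · rfl

/-- the conditional mean has the same integrals against functions of the point and the value -/
theorem wv_sum (u : l.T.Ω → ℝ) (f : F.Ω → ℝ) :
    ∑ τ, l.T.μ τ * (wv l u (l.p.π τ) (mk l τ) * f (l.p.π τ)) = ∑ τ, l.T.μ τ * (u τ * f (l.p.π τ)) := by
  classical
  have h1 : ∀ (g : l.T.Ω → ℝ), ∑ τ, g τ = ∑ c : F.Ω × Quotient l.V, ∑ τ, if l.p.π τ = c.1 ∧ mk l τ = c.2 then g τ
      else 0 := by
    intro g
    rw [← Finset.sum_fiberwise univ (fun τ => (l.p.π τ, mk l τ)) g]
    apply Finset.sum_congr rfl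
    intro c _
    rw [Finset.sum_filter]
    apply Finset.sum_congr rfl
    intro τ _
    by_cases h2 : (l.p.π τ, mk l τ) = c
    · rw [if_pos h2, if_pos ⟨congrArg Prod.fst h2, congrArg Prod.snd h2⟩]
    · rw [if_neg h2, if_neg (fun h => h2 (Prod.ext h.1 h.2))]
  rw [h1, h1]
  apply Finset.sum_congr rfl
  intro c _
  have h3 : (∑ τ, if l.p.π τ = c.1 ∧ mk l τ = c.2 then l.T.μ τ * (wv l u (l.p.π τ) (mk l τ) * f (l.p.π τ)) else 0) =
      wv l u c.1 c.2 * f c.1 * mv l c.1 c.2 := by
    unfold mv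
    rw [Finset.mul_sum]
    apply Finset.sum_congr rfl
    intro τ _
    split_ifs with h4
    · rw [h4.1, h4.2]; ring
    · rw [mul_zero]
  have h5 : (∑ τ, if l.p.π τ = c.1 ∧ mk l τ = c.2 then l.T.μ τ * (u τ * f (l.p.π τ)) else 0) =
      f c.1 * ∑ τ, if l.p.π τ = c.1 ∧ mk l τ = c.2 then l.T.μ τ * u τ else 0 := by
    rw [Finset.mul_sum]
    apply Finset.sum_congr rfl
    intro τ _
    split_ifs with h4
    · rw [h4.1]; ring
    · rw [mul_zero]
  rw [h3, h5]
  by_cases h6 : mv l c.1 c.2 = 0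
  · have h7 : (∑ τ, if l.p.π τ = c.1 ∧ mk l τ = c.2 then l.T.μ τ * u τ else 0) = 0 := by
      apply Finset.sum_eq_zero
      intro τ _
      split_ifs with h8
      · have h9 := (Finset.sum_eq_zero_iff_of_nonneg (fun τ _ => by
          split_ifs
          · exact l.T.nn τ
          · exact le_rfl)).mp h6 τ (Finset.mem_univ τ)
        rw [if_pos h8] at h9
        rw [h9, zero_mul]
      · rfl
    rw [h6, h7, mul_zero, mul_zero]
  · unfold wv
    field_simp

end

end Pool.Agent.Helper38.NSL
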