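import Pool.Agent.Helper38.NSL.Hf

/-! NSL*, transfer for a family, second part: expected exponents of close forms, projection along a label which is a kernel
of the resolution (exit), slow limits. -/

set_option autoImplicit false

namespace Pool.Agent.Helper38.NSL

open Finset Filter Topology Matrix Pool.Agent.Helper69.RK Pool.Agent.Helper31.EC Pool.Agent.Helper31.EC.Sp
open Pool.Agent.Helper40.EL
open Pool.Agent.Helper84.MT Pool.Agent.Helper3.LF Pool.Agent.Helper59.LF Pool.Agent.Helper89.LX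
open Pool.Agent.Helper48.NS Pool.Agent.Helper49.MD Pool.Agent.Helper87.NSL
open Pool.Agent.Helper14.MC (gexq gexq_bd gexq_UB gexq_nonneg GQ_dom gx vx vx_UB vol_eq)
open Pool.Agent.Helper59.EV (sum_split_le)

noncomputable section

variable {M D : ℕ}

theorem gxF_dom {F : FSp} {Q : F.Ω → Fin M → ℝ} {A B : F.Ω → Matrix (Mon M D) (Mon M D) ℝ} {ω : F.Ω}
    {c : ℝ} (hA : Cpd c (A ω)) (hB : Cpd c (B ω)) {a : ℝ} (ha : 0 ≤ a)
    (h : ∀ z, qf (B ω) z ≤ 2 ^ (a * F.n) * qf (A ω) z) :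
    gxF F Q B ω ≤ gxF F Q A ω + a * M / 2 := by
  have hn := F.pos
  have h2 := GQ_dom (dlF F 1) (A ω) (B ω) hA.1 hA.psd.2 hB.1 hB.psd.2 (Q ω) (2 ^ (a * F.n))
    (Real.one_le_rpow (by norm_num) (by positivity)) h
  have h3 := one_le_GQ (dlF F 1) hA.1 hA.psd.2 (Q ω)
  have h4 := one_le_GQ (dlF F 1) hB.1 hB.psd.2 (Q ω)
  have h5 := Real.logb_le_logb_of_le (b := 2) (by norm_num) (by linarith) h2
  rw [Real.logb_mul (by positivity) (by linarith), Real.logb_pow, Real.logb_rpow (by norm_num) (by norm_num)] at h5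
  unfold gxF
  have e1 : Real.logb 2 (GQ (dlF F 1) (A ω) (Q ω)) / (2 * F.n) + a * M / 2 =
      ((M : ℝ) * (a * F.n) + Real.logb 2 (GQ (dlF F 1) (A ω) (Q ω))) / (2 * F.n) := by
    field_simp
    ring
  rw [e1]
  exact div_le_div_of_nonneg_right h5 (by positivity)

theorem gxF_nonneg {F : FSp} {Q : F.Ω → Fin M → ℝ} {A : F.Ω → Matrix (Mon M D) (Mon M D) ℝ} {ω : F.Ω}
    {c : ℝ} (hA : Cpd c (A ω)) : 0 ≤ gxF F Q A ω :=
  div_nonneg (Real.logb_nonneg (by norm_num) (one_le_GQ (dlF F 1) hA.1 hA.psd.2 (Q ω)))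
    (mul_nonneg (by norm_num) F.pos.le)

/-- exponents of capped forms are bounded, uniformly -/
theorem gxF_bd {S : Sp} (Q : S.VV M) : ∀ᶠ k in UF, ∀ (J : (S.F k).Ω → Matrix (Mon M D) (Mon M D) ℝ),
    (∀ ω, (S.F k).μ ω ≠ 0 → Cpd (capF (S.F k) D) (J ω)) → ∀ ω, (S.F k).μ ω ≠ 0 →
      gxF (S.F k) (Q.v k) J ω ≤ K0 M D := by
  by_contra hn
  have h1 := UF_not hn
  have h2 : ∀ k, ∃ J : (S.F k).Ω → Matrix (Mon M D) (Mon M D) ℝ,
      (¬ ∀ (J : (S.F k).Ω → Matrix (Mon M D) (Mon M D) ℝ),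
        (∀ ω, (S.F k).μ ω ≠ 0 → Cpd (capF (S.F k) D) (J ω)) → ∀ ω, (S.F k).μ ω ≠ 0 →
          gxF (S.F k) (Q.v k) J ω ≤ K0 M D) →
      (∀ ω, (S.F k).μ ω ≠ 0 → Cpd (capF (S.F k) D) (J ω)) ∧ ∃ ω, (S.F k).μ ω ≠ 0 ∧
        ¬ gxF (S.F k) (Q.v k) J ω ≤ K0 M D := by
    intro k
    by_cases hk : ∀ (J : (S.F k).Ω → Matrix (Mon M D) (Mon M D) ℝ),
        (∀ ω, (S.F k).μ ω ≠ 0 → Cpd (capF (S.F k) D) (J ω)) → ∀ ω, (S.F k).μ ω ≠ 0 →
          gxF (S.F k) (Q.v k) J ω ≤ K0 M D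
    · exact ⟨fun _ => 1, fun h => absurd hk h⟩
    · push Not at hk
      obtain ⟨J, h3, ω, h4, h5⟩ := hk
      exact ⟨J, fun _ => ⟨h3, ω, h4, not_le.mpr h5⟩⟩
  choose J hJ using h2
  have hC : (0 : ℝ) ≤ 2 * D + 1 + 1 := by positivity
  have h3 : ∀ᶠ k in UF, ∀ ω, (S.F k).μ ω ≠ 0 → Cpd (capF (S.F k) D) (J k ω) := by
    filter_upwards [h1] with k hk
    exact (hJ k hk).1
  obtain ⟨k, a, b⟩ := (h1.and (gexq_bd Q J _ hC h3)).exists
  obtain ⟨-, ω, c1, c2⟩ := hJ k a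
  exact c2 (b ω c1)

/-- close forms, with expected exponents for the members `P` of the family only -/
def HasG (F : FSp) (M D : ℕ) (Q : F.Ω → Fin M → ℝ) {κ : Type} (W : κ → Setoid F.Ω) (P : κ → Prop) (e γ : ℝ) : Prop :=
  ∃ (A : F.Ω → Prop) (J : κ → F.Ω → Matrix (Mon M D) (Mon M D) ℝ),
    F.pb (fun ω => ¬ A ω) ≤ e ∧
    (∀ i ω ω', F.μ ω ≠ 0 → F.μ ω' ≠ 0 → F.Z ω ω' → W i ω ω' → J i ω = J i ω') ∧
    (∀ i ω, F.μ ω ≠ 0 → Cpd (capF F D) (J i ω)) ∧
    (∀ i j ω, F.μ ω ≠ 0 → A ω → Nr (e * F.n) (J i ω) (J j ω)) ∧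
    (∀ i ω, F.μ ω ≠ 0 → A ω → phi (dlF F 1) (J i ω) (Q ω) ≤ 2 ^ (e * F.n)) ∧
    ∀ i, P i → γ ≤ ∑ ω, F.μ ω * gxF F Q (J i) ω

/-- the other members of the family have almost the same expected exponents -/
theorem hasG_compl {S : Sp} (Q : S.VV M) : ∀ᶠ k in UF, ∀ (κ : Type) (W : κ → Setoid (S.F k).Ω) (P : κ → Prop) (i0 : κ)
    (e γ : ℝ), P i0 → 0 ≤ e → HasG (S.F k) M D (Q.v k) W P e γ →
      HasF (S.F k) M D (Q.v k) W e (γ - (M / 2 + K0 M D) * e) := by
  filter_upwards [gxF_bd (D := D) Q] with k hk κ W P i0 e γ hP he h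
  obtain ⟨A, J, h1, h2, h3, h4, h5, h6⟩ := h
  refine ⟨A, J, h1, h2, h3, h4, h5, fun i => ?_⟩
  have a1 := sum_split_le (F := S.F k) (fun ω => gxF (S.F k) (Q.v k) (J i0) ω - gxF (S.F k) (Q.v k) (J i) ω) A
    (e * M / 2) (K0 M D) (by positivity) (K0_nonneg M D) (fun ω hω hA => by
      have h7 := gxF_dom (Q := Q.v k) (A := J i) (B := J i0) (h3 i ω hω) (h3 i0 ω hω) he (h4 i0 i ω hω hA).1
      show gxF (S.F k) (Q.v k) (J i0) ω - gxF (S.F k) (Q.v k) (J i) ω ≤ e * M / 2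
      linarith) (fun ω hω => by
      have h7 := hk (J i0) (h3 i0) ω hω
      have h8 := gxF_nonneg (Q := Q.v k) (A := J i) (h3 i ω hω)
      show gxF (S.F k) (Q.v k) (J i0) ω - gxF (S.F k) (Q.v k) (J i) ω ≤ K0 M D
      linarith)
  have a2 : ∑ ω, (S.F k).μ ω * (gxF (S.F k) (Q.v k) (J i0) ω - gxF (S.F k) (Q.v k) (J i) ω) =
      ∑ ω, (S.F k).μ ω * gxF (S.F k) (Q.v k) (J i0) ω - ∑ ω, (S.F k).μ ω * gxF (S.F k) (Q.v k) (J i) ω := by
    rw [← Finset.sum_sub_distrib]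
    exact Finset.sum_congr rfl fun ω _ => by ring
  have a3 : ∑ ω, (S.F k).μ ω * (gxF (S.F k) (Q.v k) (J i0) ω - gxF (S.F k) (Q.v k) (J i) ω) ≤
      e * M / 2 + K0 M D * (S.F k).pb (fun ω => ¬ A ω) := a1
  rw [a2] at a3
  have a4 := h6 i0 hP
  have a5 := mul_le_mul_of_nonneg_left h1 (K0_nonneg M D)
  linarith

/-- the family of the partition `R` and the partitions `W` -/
def optS {Ω : Type} (R : Setoid Ω) {κ : Type} (W : κ → Setoid Ω) : Option κ → Setoid Ω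
  | none => R
  | some i => W i

/-- PROJECTION: forms which are close over a label without leak at `R` give close forms of the space, one of them known to
the resolution `R` instead of the label -/
theorem HasF.sel {F : FSp} (l : FLab F) {R : Setoid F.Ω} (hl : l.leak (fc R) = 0) {κ : Type} {Q : F.Ω → Fin M → ℝ}
    {W : κ → Setoid F.Ω} {e γ : ℝ}
    (h : HasF l.T M D (fun τ => Q (l.p.π τ)) (optS l.V fun i => Setoid.comap l.p.π (W i)) e γ) :
    HasG F M D Q (optS R W) (fun i => i ≠ none) e γ := by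
  classical
  obtain ⟨A, J, h1, h2, h3, h4, h5, h6⟩ := h
  have hcap : capF l.T D = capF F D := by unfold capF; rw [l.hn]
  have hdl : dlF l.T 1 = dlF F 1 := by unfold dlF; rw [l.hn]
  have hs : ∀ a : F.Ω, ∃ τ : l.T.Ω, F.μ a ≠ 0 → l.T.μ τ ≠ 0 ∧ l.p.π τ = a := by
    intro a
    by_cases ha : F.μ a = 0
    · exact ⟨(Pool.Agent.Helper33.LIT.exists_T l).some, fun h => absurd ha h⟩
    · have h7 : F.μ a = ∑ τ, if l.p.π τ = a then l.T.μ τ else 0 := by
        rw [← Pool.Agent.Helper33.LIT.mg_law l a]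
        unfold Pool.Agent.Helper33.LIT.mg
        exact Finset.sum_congr rfl fun τ _ => by split_ifs <;> rfl
      rw [h7] at ha
      obtain ⟨τ, -, h8⟩ := Finset.exists_ne_zero_of_sum_ne_zero ha
      by_cases h9 : l.p.π τ = a
      · rw [if_pos h9] at h8
        exact ⟨τ, fun _ => ⟨h8, h9⟩⟩
      · rw [if_neg h9] at h8
        exact absurd rfl h8
  choose s hs using hs
  set Jt : κ → F.Ω → Matrix (Mon M D) (Mon M D) ℝ := fun i a => J (some i) (s a) with hJt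
  have hJ : ∀ i τ, l.T.μ τ ≠ 0 → J (some i) τ = Jt i (l.p.π τ) := by
    intro i τ hτ
    obtain ⟨a1, a2⟩ := hs (l.p.π τ) (l.p.supp τ hτ)
    apply h2 (some i) τ _ hτ a1
    · exact (l.p.hZ _ _ hτ a1).mpr (by rw [a2])
    · show W i (l.p.π τ) (l.p.π (s (l.p.π τ)))
      rw [a2]
  obtain ⟨X, x1, x2, x3⟩ := sel_var l R hl (J none) (fun τ τ' a b c d => h2 none τ τ' a b d c)
    (fun a B => (Nr (e * F.n) B B ∧ ∀ i, Nr (e * F.n) B (Jt i a) ∧ Nr (e * F.n) (Jt i a) B) ∧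
      (∀ i j, Nr (e * F.n) (Jt i a) (Jt j a)) ∧ phi (dlF F 1) B (Q a) ≤ 2 ^ (e * F.n) ∧
      ∀ i, phi (dlF F 1) (Jt i a) (Q a) ≤ 2 ^ (e * F.n))
  refine ⟨fun a => (Nr (e * F.n) (X a) (X a) ∧ ∀ i, Nr (e * F.n) (X a) (Jt i a) ∧ Nr (e * F.n) (Jt i a) (X a)) ∧
      (∀ i j, Nr (e * F.n) (Jt i a) (Jt j a)) ∧ phi (dlF F 1) (X a) (Q a) ≤ 2 ^ (e * F.n) ∧
      ∀ i, phi (dlF F 1) (Jt i a) (Q a) ≤ 2 ^ (e * F.n),
    fun o => match o with
      | none => X
      | some i => Jt i, ?_, ?_, ?_, ?_, ?_, ?_⟩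
  · refine le_trans x3 (le_trans (FSp.pb_mono l.T (E' := fun τ => ¬ A τ) ?_) h1)
    intro τ hτ hG hA
    apply hG
    have b1 : ∀ i j, Nr (e * F.n) (J i τ) (J j τ) := by
      intro i j
      rw [← l.hn]
      exact h4 i j τ hτ hA
    have b2 : ∀ i, phi (dlF F 1) (J i τ) (Q (l.p.π τ)) ≤ 2 ^ (e * F.n) := by
      intro i
      rw [← hdl, ← l.hn]
      exact h5 i τ hτ hA
    refine ⟨⟨b1 _ _, fun i => ?_⟩, fun i j => ?_, b2 _, fun i => ?_⟩
    · rw [← hJ i τ hτ]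
      exact ⟨b1 _ _, b1 _ _⟩
    · rw [← hJ i τ hτ, ← hJ j τ hτ]
      exact b1 _ _
    · rw [← hJ i τ hτ]
      exact b2 _
  · intro i a a' ha ha' hZ hW
    cases i with
    | none => exact x1 a a' hW hZ
    | some i =>
      obtain ⟨a1, a2⟩ := hs a ha
      obtain ⟨a3, a4⟩ := hs a' ha'
      apply h2 (some i) _ _ a1 a3
      · apply (l.p.hZ _ _ a1 a3).mpr
        rw [a2, a4]
        exact hZ
      · show W i (l.p.π (s a)) (l.p.π (s a'))
        rw [a2, a4]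
        exact hW
  · intro i a ha
    cases i with
    | none =>
      obtain ⟨τ, b1, b2, -⟩ := x2 a ha
      show Cpd (capF F D) (X a)
      rw [b2, ← hcap]
      exact h3 none τ b1
    | some i =>
      show Cpd (capF F D) (J (some i) (s a))
      rw [← hcap]
      exact h3 (some i) _ (hs a ha).1
  · intro i j a _ hA
    cases i with
    | none =>
      cases j with
      | none => exact hA.1.1
      | some j => exact (hA.1.2 j).1
    | some i =>
      cases j with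
      | none => exact (hA.1.2 i).2
      | some j => exact hA.2.1 i j
  · intro i a _ hA
    cases i with
    | none => exact hA.2.2.1
    | some i => exact hA.2.2.2 i
  · intro i hi
    cases i with
    | none => exact absurd rfl hi
    | some i =>
      refine (h6 (some i)).trans (le_of_eq ?_)
      have b3 := sum_push l.p (fun a => gxF F Q (Jt i) a)
      rw [← b3]
      apply Finset.sum_congr rfl
      intro τ _
      by_cases h0 : l.T.μ τ = 0
      · rw [h0, zero_mul, zero_mul]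
      · have b4 : gxF l.T (fun τ => Q (l.p.π τ)) (J (some i)) τ = gxF F Q (Jt i) (l.p.π τ) := by
          unfold gxF
          rw [hJ i τ h0, hdl, l.hn]
        rw [b4]

/-- THE EXIT: if the resolution `R` and the partitions `W` have no close forms with exponent, then a label without leak at
`R` (a copy given `R`) and the pulled partitions have none -/
theorem not_hasF_exit {S : Sp} (Q : S.VV M) (l : Lab S) {R : ∀ k, Setoid (S.F k).Ω}
    (hl : ∀ᶠ k in UF, (l k).leak (fc (R k)) = 0) {κ : Type} [Nonempty κ] (W : κ → ∀ k, Setoid (S.F k).Ω) {K : ℝ}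
    (h : ∀ e γ : ℝ, 0 < e → K * e < γ → ∀ᶠ k in UF, ¬ HasF (S.F k) M D (Q.v k) (fun i => optW R W i k) e γ)
    {e γ : ℝ} (he : 0 < e) (hγ : (K + (M / 2 + K0 M D)) * e < γ) :
    ∀ᶠ k in UF, ¬ HasF (l k).T M D (fun τ => Q.v k ((l k).p.π τ))
      (optS (l k).V fun i => Setoid.comap (l k).p.π (W i k)) e γ := by
  filter_upwards [hl, h e (γ - (M / 2 + K0 M D) * e) he (by linarith), hasG_compl (D := D) Q] with k a b c hf
  apply b
  have h1 := HasF.sel (Q := Q.v k) (l k) a hf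
  have h2 := c (Option κ) _ _ (some (Classical.arbitrary κ)) e γ (by simp) he.le h1
  have e1 : (optS (R k) fun i => W i k) = fun i => optW R W i k := by
    funext i
    cases i <;> rfl
  rw [← e1]
  exact h2

end

end Pool.Agent.Helper38.NSL
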