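import Pool.Agent.Helper38.NSL.Hw2

/-! NSL*, transfer, final form: close forms with exponents bounded below pointwise on an event of positive mass. -/

set_option autoImplicit false

namespace Pool.Agent.Helper38.NSL

open Finset Filter Topology Matrix Pool.Agent.Helper69.RK Pool.Agent.Helper31.EC Pool.Agent.Helper31.EC.Sp
open Pool.Agent.Helper40.EL
open Pool.Agent.Helper84.MT Pool.Agent.Helper3.LF Pool.Agent.Helper59.LF Pool.Agent.Helper89.LX
open Pool.Agent.Helper48.NS Pool.Agent.Helper49.MD Pool.Agent.Helper87.NSL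
open Pool.Agent.Helper14.MC (gexq gexq_bd gexq_UB gexq_nonneg GQ_dom gx vx vx_UB vol_eq)
open Pool.Agent.Helper59.EV (sum_split_le)

noncomputable section

variable {M D : ℕ}

/-- CLOSE FORMS ON AN EVENT, finite data: an event of mass at least `p`, forms known to the partitions `W i`, which are
close to each other and small at the point up to `2 ^ (e n)`, with exponents at least `γ`, at every point of the event -/
def HasE (F : FSp) (M D : ℕ) (Q : F.Ω → Fin M → ℝ) {κ : Type} (W : κ → Setoid F.Ω) (e γ p : ℝ) : Prop :=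
  ∃ (A : F.Ω → Prop) (J : κ → F.Ω → Matrix (Mon M D) (Mon M D) ℝ),
    p ≤ F.pb A ∧
    (∀ i ω ω', F.μ ω ≠ 0 → F.μ ω' ≠ 0 → F.Z ω ω' → W i ω ω' → J i ω = J i ω') ∧
    (∀ i ω, F.μ ω ≠ 0 → Cpd (capF F D) (J i ω)) ∧
    ∀ ω, F.μ ω ≠ 0 → A ω → (∀ i j, Nr (e * F.n) (J i ω) (J j ω)) ∧
      ∀ i, phi (dlF F 1) (J i ω) (Q ω) ≤ 2 ^ (e * F.n) ∧ γ ≤ gxF F Q (J i) ω

section
variable {F : FSp} {Q : F.Ω → Fin M → ℝ} {κ κ' : Type} {W : κ → Setoid F.Ω} {e e' γ γ' p p' : ℝ}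

theorem HasE.mono (h : HasE F M D Q W e γ p) (he : e ≤ e') (hγ : γ' ≤ γ) (hp : p' ≤ p) :
    HasE F M D Q W e' γ' p' := by
  obtain ⟨A, J, h1, h2, h3, h4⟩ := h
  have hn := F.pos
  have h8 : e * F.n ≤ e' * F.n := mul_le_mul_of_nonneg_right he hn.le
  refine ⟨A, J, hp.trans h1, h2, h3, fun ω hω hA => ⟨fun i j => ?_, fun i => ⟨?_, ?_⟩⟩⟩
  · exact Nr.mono h8 (h3 i ω hω).psd (h3 j ω hω).psd ((h4 ω hω hA).1 i j)
  · exact ((h4 ω hω hA).2 i).1.trans (Real.rpow_le_rpow_of_exponent_le (by norm_num) h8)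
  · exact hγ.trans ((h4 ω hω hA).2 i).2

/-- subfamilies and finer partitions -/
theorem HasE.ren (h : HasE F M D Q W e γ p) {W' : κ' → Setoid F.Ω} (f : κ' → κ)
    (hf : ∀ i ω ω', F.μ ω ≠ 0 → F.μ ω' ≠ 0 → F.Z ω ω' → W' i ω ω' → W (f i) ω ω') :
    HasE F M D Q W' e γ p := by
  obtain ⟨A, J, h1, h2, h3, h4⟩ := h
  exact ⟨A, fun i => J (f i), h1, fun i ω ω' a b c d => h2 _ ω ω' a b c (hf i ω ω' a b c d), fun i => h3 _,
    fun ω a b => ⟨fun i j => (h4 ω a b).1 _ _, fun i => (h4 ω a b).2 _⟩⟩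

end

/-- close forms off a small event, with expected exponents, give close forms on an event -/
theorem hasE_of_hasF {S : Sp} (Q : S.VV M) : ∀ᶠ k in UF, ∀ (κ : Type) (_ : Nonempty κ) (W : κ → Setoid (S.F k).Ω)
    (e γ γ' p : ℝ), 0 ≤ e → 0 ≤ γ' → (K0 M D + 1) * (p + e) ≤ γ - γ' → HasF (S.F k) M D (Q.v k) W e γ →
      HasE (S.F k) M D (Q.v k) W e (γ' - e * M / 2) p := by
  classical
  filter_upwards [gxF_bd (D := D) Q] with k hk κ hne W e γ γ' p he hγ0 hγ h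
  obtain ⟨A, J, h1, h2, h3, h4, h5, h6⟩ := h
  have i0 : κ := Classical.arbitrary κ
  have hK := K0_nonneg M D
  refine ⟨fun ω => A ω ∧ γ' ≤ gxF (S.F k) (Q.v k) (J i0) ω, J, ?_, h2, h3, fun ω hω hA =>
    ⟨fun i j => h4 i j ω hω hA.1, fun i => ⟨h5 i ω hω hA.1, ?_⟩⟩⟩
  · have a1 : ∑ ω, (S.F k).μ ω * gxF (S.F k) (Q.v k) (J i0) ω ≤
        ∑ ω, (S.F k).μ ω * γ' + (∑ ω, (S.F k).μ ω * ((K0 M D + 1) * e1_ind (¬ A ω)) +
          ∑ ω, (S.F k).μ ω * ((K0 M D + 1) * e1_ind (A ω ∧ γ' ≤ gxF (S.F k) (Q.v k) (J i0) ω))) := by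
      rw [← Finset.sum_add_distrib, ← Finset.sum_add_distrib]
      apply Finset.sum_le_sum
      intro ω _
      rw [← mul_add, ← mul_add]
      by_cases h0 : (S.F k).μ ω = 0
      · rw [h0, zero_mul, zero_mul]
      apply mul_le_mul_of_nonneg_left _ ((S.F k).nn ω)
      have h8 := hk (J i0) (h3 i0) ω h0
      by_cases hA : A ω
      · by_cases hg : γ' ≤ gxF (S.F k) (Q.v k) (J i0) ω
        · rw [e1_ind_neg (by exact not_not.mpr hA), e1_ind_pos (And.intro hA hg)]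
          linarith
        · rw [e1_ind_neg (by exact not_not.mpr hA), e1_ind_neg (fun h => hg h.2)]
          linarith
      · rw [e1_ind_pos hA, e1_ind_neg (fun h => hA h.1)]
        linarith
    have a2 : ∑ ω, (S.F k).μ ω * γ' = γ' := by
      rw [← Finset.sum_mul]
      have : ∑ ω, (S.F k).μ ω = 1 := (S.F k).ms
      rw [this, one_mul]
    have a3 : ∀ B : (S.F k).Ω → Prop, ∑ ω, (S.F k).μ ω * ((K0 M D + 1) * e1_ind (B ω)) =
        (K0 M D + 1) * (S.F k).pb B := by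
      intro B
      rw [Pool.Agent.Helper59.GR.pb_ind, Finset.mul_sum]
      exact Finset.sum_congr rfl fun ω _ => by ring
    rw [a2, a3, a3] at a1
    have a4 := mul_le_mul_of_nonneg_left h1 (show (0 : ℝ) ≤ K0 M D + 1 by linarith)
    have a5 := h6 i0
    have a6 : (K0 M D + 1) * p ≤ (K0 M D + 1) *
        (S.F k).pb (fun ω => A ω ∧ γ' ≤ gxF (S.F k) (Q.v k) (J i0) ω) := by linarith
    exact le_of_mul_le_mul_left a6 (by linarith)
  · have a1 := gxF_dom (Q := Q.v k) (A := J i) (B := J i0) (h3 i ω hω) (h3 i0 ω hω) he (h4 i0 i ω hω hA.1).1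
    linarith [hA.2]

/-- PROJECTION along a kernel of the resolution -/
theorem HasE.sel {F : FSp} (l : FLab F) {R : Setoid F.Ω} (hl : l.leak (fc R) = 0) {κ : Type} {Q : F.Ω → Fin M → ℝ}
    {W : κ → Setoid F.Ω} {e γ p : ℝ}
    (h : HasE l.T M D (fun τ => Q (l.p.π τ)) (optS l.V fun i => Setoid.comap l.p.π (W i)) e γ p) :
    HasE F M D Q (optS R W) e γ p := by
  classical
  obtain ⟨A, J, h1, h2, h3, h4⟩ := h
  have hcap : capF l.T D = capF F D := by unfold capF; rw [l.hn]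
  have hdl : dlF l.T 1 = dlF F 1 := by unfold dlF; rw [l.hn]
  have hs : ∀ a : F.Ω, ∃ τ : l.T.Ω, F.μ a ≠ 0 → l.T.μ τ ≠ 0 ∧ l.p.π τ = a := by
    intro a
    by_cases ha : F.μ a = 0
    · exact ⟨(Pool.Agent.Helper33.LIT.exists_T l).some, fun h => absurd ha h⟩
    · obtain ⟨τ, a1, a2⟩ := exists_over l.p a ha
      exact ⟨τ, fun _ => ⟨a1, a2⟩⟩
  choose s hs using hs
  set Jt : κ → F.Ω → Matrix (Mon M D) (Mon M D) ℝ := fun i a => J (some i) (s a) with hJt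
  have hJ : ∀ i τ, l.T.μ τ ≠ 0 → J (some i) τ = Jt i (l.p.π τ) := by
    intro i τ hτ
    obtain ⟨a1, a2⟩ := hs (l.p.π τ) (l.p.supp τ hτ)
    apply h2 (some i) τ _ hτ a1
    · exact (l.p.hZ _ _ hτ a1).mpr (by rw [a2])
    · show W i (l.p.π τ) (l.p.π (s (l.p.π τ)))
      rw [a2]
  have hgx : ∀ (B : Matrix (Mon M D) (Mon M D) ℝ) (i : Option κ) τ, J i τ = B →
      gxF l.T (fun τ => Q (l.p.π τ)) (J i) τ = gxF F Q (fun _ => B) (l.p.π τ) := by
    intro B i τ hB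
    unfold gxF
    rw [hB, hdl, l.hn]
  obtain ⟨X, x1, x2, x3⟩ := sel_var l R hl (J none) (fun τ τ' a b c d => h2 none τ τ' a b d c)
    (fun a B => ¬ ((Nr (e * F.n) B B ∧ ∀ i, Nr (e * F.n) B (Jt i a) ∧ Nr (e * F.n) (Jt i a) B) ∧
      (∀ i j, Nr (e * F.n) (Jt i a) (Jt j a)) ∧
      (phi (dlF F 1) B (Q a) ≤ 2 ^ (e * F.n) ∧ γ ≤ gxF F Q (fun _ => B) a) ∧
      ∀ i, phi (dlF F 1) (Jt i a) (Q a) ≤ 2 ^ (e * F.n) ∧ γ ≤ gxF F Q (fun _ => Jt i a) a) → False)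
  refine ⟨fun a => (Nr (e * F.n) (X a) (X a) ∧ ∀ i, Nr (e * F.n) (X a) (Jt i a) ∧ Nr (e * F.n) (Jt i a) (X a)) ∧
      (∀ i j, Nr (e * F.n) (Jt i a) (Jt j a)) ∧
      (phi (dlF F 1) (X a) (Q a) ≤ 2 ^ (e * F.n) ∧ γ ≤ gxF F Q (fun _ => X a) a) ∧
      ∀ i, phi (dlF F 1) (Jt i a) (Q a) ≤ 2 ^ (e * F.n) ∧ γ ≤ gxF F Q (fun _ => Jt i a) a,
    fun o => match o with
      | none => X
      | some i => Jt i, ?_, ?_, ?_, ?_⟩
  · have b1 := FSp.pb_add_compl F (fun a => (Nr (e * F.n) (X a) (X a) ∧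
      ∀ i, Nr (e * F.n) (X a) (Jt i a) ∧ Nr (e * F.n) (Jt i a) (X a)) ∧
      (∀ i j, Nr (e * F.n) (Jt i a) (Jt j a)) ∧
      (phi (dlF F 1) (X a) (Q a) ≤ 2 ^ (e * F.n) ∧ γ ≤ gxF F Q (fun _ => X a) a) ∧
      ∀ i, phi (dlF F 1) (Jt i a) (Q a) ≤ 2 ^ (e * F.n) ∧ γ ≤ gxF F Q (fun _ => Jt i a) a)
    have b2 := FSp.pb_add_compl l.T A
    have b3 : F.pb (fun a => ¬ ((Nr (e * F.n) (X a) (X a) ∧
      ∀ i, Nr (e * F.n) (X a) (Jt i a) ∧ Nr (e * F.n) (Jt i a) (X a)) ∧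
      (∀ i j, Nr (e * F.n) (Jt i a) (Jt j a)) ∧
      (phi (dlF F 1) (X a) (Q a) ≤ 2 ^ (e * F.n) ∧ γ ≤ gxF F Q (fun _ => X a) a) ∧
      ∀ i, phi (dlF F 1) (Jt i a) (Q a) ≤ 2 ^ (e * F.n) ∧ γ ≤ gxF F Q (fun _ => Jt i a) a)) ≤
        l.T.pb (fun τ => ¬ A τ) := by
      refine le_trans (FSp.pb_mono F fun a _ h5 h6 => h6 h5) (le_trans x3 (FSp.pb_mono l.T fun τ hτ hG hA => hG ?_))
      intro h5
      apply h5
      obtain ⟨c1, c2⟩ := h4 τ hτ hA
      have d1 : ∀ i j, Nr (e * F.n) (J i τ) (J j τ) := by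
        intro i j
        rw [← l.hn]
        exact c1 i j
      have d2 : ∀ i, phi (dlF F 1) (J i τ) (Q (l.p.π τ)) ≤ 2 ^ (e * F.n) ∧
          γ ≤ gxF F Q (fun _ => J i τ) (l.p.π τ) := by
        intro i
        have h7 := c2 i
        rw [hgx _ i τ rfl] at h7
        beta_reduce at h7
        rw [hdl, l.hn] at h7
        exact h7
      refine ⟨⟨d1 _ _, fun i => ?_⟩, fun i j => ?_, d2 _, fun i => ?_⟩
      · rw [← hJ i τ hτ]
        exact ⟨d1 _ _, d1 _ _⟩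
      · rw [← hJ i τ hτ, ← hJ j τ hτ]
        exact d1 _ _
      · rw [← hJ i τ hτ]
        exact d2 _
    linarith
  · intro i a a' ha ha' hZ hW
    cases i with
    | none => exact x1 a a' hW hZ
    | some i =>
      obtain ⟨a1, a2⟩ := hs a ha
      obtain ⟨a3, a4⟩ := hs a' ha'
      apply h2 (some i) _ _ a1 a3
      · apply (l.p.hZ _ _ a1 a3).mpr
        rw [a2, a4]
        exact hZ
      · show W i (l.p.π (s a)) (l.p.π (s a'))
        rw [a2, a4]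
        exact hW
  · intro i a ha
    cases i with
    | none =>
      obtain ⟨τ, b1, b2, -⟩ := x2 a ha
      show Cpd (capF F D) (X a)
      rw [b2, ← hcap]
      exact h3 none τ b1
    | some i =>
      show Cpd (capF F D) (J (some i) (s a))
      rw [← hcap]
      exact h3 (some i) _ (hs a ha).1
  · intro a _ hA
    refine ⟨fun i j => ?_, fun i => ?_⟩
    · cases i with
      | none =>
        cases j with
        | none => exact hA.1.1
        | some j => exact (hA.1.2 j).1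
      | some i =>
        cases j with
        | none => exact (hA.1.2 i).2
        | some j => exact hA.2.1 i j
    · cases i with
      | none => exact hA.2.2.1
      | some i => exact hA.2.2.2 i

/-- EVENTS OF EXTENSIONS: close forms on an event of an extension are close forms of the space -/
theorem HasE.im {T F : FSp} (q : FPj T F) (E : T.Ω → Prop) (hE : T.pb E ≠ 0) {κ : Type} {Q : F.Ω → Fin M → ℝ}
    {W : κ → Setoid F.Ω} {e γ p : ℝ} (h : HasE (FSp.im q E) M D Q W e γ p) :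
    HasE F M D Q W e γ (T.pb E * p) := by
  classical
  obtain ⟨A, J, h1, h2, h3, h4⟩ := h
  have hpos : 0 < T.pb E := lt_of_le_of_ne (T.pb_nonneg E) (Ne.symm hE)
  set μ' : F.Ω → ℝ := (FSp.im q E).μ with hμ'
  have hnn : ∀ a, 0 ≤ μ' a := (FSp.im q E).nn
  set Jt : κ → F.Ω → Matrix (Mon M D) (Mon M D) ℝ := fun i a =>
    if hc : ∃ b, μ' b ≠ 0 ∧ F.Z a b ∧ W i a b then J i hc.choose else 1 with hJt
  have hJ : ∀ i a, μ' a ≠ 0 → Jt i a = J i a := by
    intro i a ha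
    have hc : ∃ b, μ' b ≠ 0 ∧ F.Z a b ∧ W i a b := ⟨a, ha, F.Z.refl' a, (W i).refl' a⟩
    have h7 := hc.choose_spec
    simp only [hJt]
    rw [dif_pos hc]
    exact (h2 i a _ ha h7.1 h7.2.1 h7.2.2).symm
  refine ⟨fun a => μ' a ≠ 0 ∧ A a, Jt, ?_, ?_, ?_, ?_⟩
  · have a1 := mul_le_mul_of_nonneg_left h1 hpos.le
    refine a1.trans ?_
    rw [Pool.Agent.Helper59.GR.pb_ind (FSp.im q E), Pool.Agent.Helper59.GR.pb_ind F, Finset.mul_sum]
    apply Finset.sum_le_sum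
    intro a _
    show T.pb E * (μ' a * e1_ind (A a)) ≤ F.μ a * e1_ind (μ' a ≠ 0 ∧ A a)
    by_cases h0 : μ' a = 0
    · rw [h0, zero_mul, mul_zero]
      apply mul_nonneg (F.nn a)
      unfold e1_ind
      split_ifs <;> norm_num
    · by_cases hA : A a
      · rw [e1_ind_pos hA, e1_ind_pos (And.intro h0 hA), mul_one, mul_one]
        exact im_mass q E hE a
      · rw [e1_ind_neg hA, e1_ind_neg (fun h => hA h.2), mul_zero, mul_zero, mul_zero]
  · intro i a a' _ _ hZ hW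
    simp only [hJt]
    by_cases hc : ∃ b, μ' b ≠ 0 ∧ F.Z a b ∧ W i a b
    · have hc' : ∃ b, μ' b ≠ 0 ∧ F.Z a' b ∧ W i a' b := by
        obtain ⟨b, b1, b2, b3⟩ := hc
        exact ⟨b, b1, F.Z.trans' (F.Z.symm' hZ) b2, (W i).trans' ((W i).symm' hW) b3⟩
      rw [dif_pos hc, dif_pos hc']
      have h7 := hc.choose_spec
      have h8 := hc'.choose_spec
      apply h2 i _ _ h7.1 h8.1
      · exact F.Z.trans' (F.Z.symm' h7.2.1) (F.Z.trans' hZ h8.2.1)
      · exact (W i).trans' ((W i).symm' h7.2.2) ((W i).trans' hW h8.2.2)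
    · have hc' : ¬ ∃ b, μ' b ≠ 0 ∧ F.Z a' b ∧ W i a' b := by
        rintro ⟨b, b1, b2, b3⟩
        exact hc ⟨b, b1, F.Z.trans' hZ b2, (W i).trans' hW b3⟩
      rw [dif_neg hc, dif_neg hc']
  · intro i a _
    simp only [hJt]
    by_cases hc : ∃ b, μ' b ≠ 0 ∧ F.Z a b ∧ W i a b
    · rw [dif_pos hc]
      exact h3 i _ hc.choose_spec.1
    · rw [dif_neg hc]
      exact Cpd_one (capF_one F D)
  · intro a _ hA
    obtain ⟨c1, c2⟩ := h4 a hA.1 hA.2
    refine ⟨fun i j => ?_, fun i => ?_⟩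
    · rw [hJ i a hA.1, hJ j a hA.1]
      exact c1 i j
    · have c3 := c2 i
      rw [hJ i a hA.1]
      refine ⟨c3.1, ?_⟩
      have e1 : gxF (FSp.im q E) Q (J i) a = gxF F Q (Jt i) a := by
        unfold gxF
        rw [hJ i a hA.1]
        rfl
      rw [← e1]
      exact c3.2

end

end Pool.Agent.Helper38.NSL
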