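import Pool.Agent.Helper38.NSL.Tr2
import Pool.Agent.Helper38.NSL.Sel

/-! NSL*, transfer for a FAMILY of partitions: close forms known to every partition of a family, as a statement of finite
data. A label which is a kernel of a resolution `R` (leak exactly zero) gives forms known to `R`. -/

set_option autoImplicit false

namespace Pool.Agent.Helper38.NSL

open Finset Filter Topology Matrix Pool.Agent.Helper69.RK Pool.Agent.Helper31.EC Pool.Agent.Helper31.EC.Sp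
open Pool.Agent.Helper40.EL
open Pool.Agent.Helper84.MT Pool.Agent.Helper3.LF Pool.Agent.Helper59.LF Pool.Agent.Helper89.LX
open Pool.Agent.Helper48.NS Pool.Agent.Helper49.MD Pool.Agent.Helper87.NSL
open Pool.Agent.Helper14.MC (gexq gexq_bd gexq_UB gexq_nonneg GQ_dom gx vx vx_UB vol_eq)
open Pool.Agent.Helper59.EV (sum_split_le)

noncomputable section

variable {M D : ℕ}

/-- CLOSE FORMS known to the partitions of a family, finite data: close to each other and small at the point up to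
`2 ^ (e n)` off an event of probability `e`, expected exponents at least `γ` -/
def HasF (F : FSp) (M D : ℕ) (Q : F.Ω → Fin M → ℝ) {κ : Type} (W : κ → Setoid F.Ω) (e γ : ℝ) : Prop :=
  ∃ (A : F.Ω → Prop) (J : κ → F.Ω → Matrix (Mon M D) (Mon M D) ℝ),
    F.pb (fun ω => ¬ A ω) ≤ e ∧
    (∀ i ω ω', F.μ ω ≠ 0 → F.μ ω' ≠ 0 → F.Z ω ω' → W i ω ω' → J i ω = J i ω') ∧
    (∀ i ω, F.μ ω ≠ 0 → Cpd (capF F D) (J i ω)) ∧
    (∀ i j ω, F.μ ω ≠ 0 → A ω → Nr (e * F.n) (J i ω) (J j ω)) ∧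
    (∀ i ω, F.μ ω ≠ 0 → A ω → phi (dlF F 1) (J i ω) (Q ω) ≤ 2 ^ (e * F.n)) ∧
    ∀ i, γ ≤ ∑ ω, F.μ ω * gxF F Q (J i) ω

theorem HasF.mono {F : FSp} {Q : F.Ω → Fin M → ℝ} {κ : Type} {W : κ → Setoid F.Ω} {e e' γ γ' : ℝ}
    (h : HasF F M D Q W e γ) (he : e ≤ e') (hγ : γ' ≤ γ) : HasF F M D Q W e' γ' := by
  obtain ⟨A, J, h1, h2, h3, h4, h5, h6⟩ := h
  have hn := F.pos
  have h8 : e * F.n ≤ e' * F.n := mul_le_mul_of_nonneg_right he hn.le
  refine ⟨A, J, h1.trans he, h2, h3, fun i j ω hω hA => ?_, fun i ω hω hA => (h5 i ω hω hA).trans ?_,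
    fun i => hγ.trans (h6 i)⟩
  · exact Nr.mono h8 (h3 i ω hω).psd (h3 j ω hω).psd (h4 i j ω hω hA)
  · exact Real.rpow_le_rpow_of_exponent_le (by norm_num) h8

/-- subfamilies and finer partitions -/
theorem HasF.ren {F : FSp} {Q : F.Ω → Fin M → ℝ} {κ κ' : Type} {W : κ → Setoid F.Ω} {W' : κ' → Setoid F.Ω} {e γ : ℝ}
    (h : HasF F M D Q W e γ) (f : κ' → κ) (hf : ∀ i ω ω', F.μ ω ≠ 0 → F.μ ω' ≠ 0 → F.Z ω ω' → W' i ω ω' →
      W (f i) ω ω') : HasF F M D Q W' e γ := by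
  obtain ⟨A, J, h1, h2, h3, h4, h5, h6⟩ := h
  exact ⟨A, fun i => J (f i), h1, fun i ω ω' a b c d => h2 _ ω ω' a b c (hf i ω ω' a b c d), fun i => h3 _,
    fun i j => h4 _ _, fun i => h5 _, fun i => h6 _⟩

variable {S : Sp} {E : ℕ → ℕ} {ι : Type}

/-- THE FORMS OF `x` ARE KNOWN TO THE PARTITION `W`, up to `2 ^ (ε n)` for every `ε` -/
def KnW (W : ∀ k, Setoid (S.F k).Ω) (x : ∀ k, FD (S.F k) (Mon M D)) : Prop :=
  ∀ ε : ℝ, 0 < ε → ∃ J : ∀ k, (S.F k).Ω → Matrix (Mon M D) (Mon M D) ℝ, KnS W J ∧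
    (∀ᶠ k in UF, ∀ ω, (S.F k).μ ω ≠ 0 → Cpd (capF (S.F k) D) (J k ω)) ∧
    Tendsto (fun k => (x k).l.T.pb (fun ω => ¬ Nr (ε * (S.F k).n) ((x k).g ω) (J k ((x k).l.p.π ω)))) UF (𝓝 0)

theorem knJ_iff {s : MSys S M E ι} {c : ℝ} {i : ι} {x : ∀ k, FD (S.F k) (Mon M D)} :
    KnJ s c i x ↔ KnW (wn s c i) x := Iff.rfl

theorem pb_ex {F : FSp} {κ : Type} (s : Finset κ) (A : κ → F.Ω → Prop) :
    F.pb (fun ω => ∃ i ∈ s, A i ω) ≤ ∑ i ∈ s, F.pb (A i) := by
  classical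
  induction s using Finset.induction_on with
  | empty =>
    rw [Finset.sum_empty]
    have h1 := FSp.pb_mono F (E := fun ω => ∃ i ∈ (∅ : Finset κ), A i ω) (E' := fun _ => ¬ True) (fun ω _ h => by
      obtain ⟨i, hi, _⟩ := h
      exact absurd hi (Finset.notMem_empty i))
    have h2 := FSp.pb_add_compl F (fun _ => True)
    have h3 : F.pb (fun _ => True) = 1 := by
      unfold FSp.pb mass
      rw [← F.ms]
      unfold mass
      exact Finset.sum_congr rfl fun ω _ => res_pos _ _ _ trivial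
    linarith
  | insert a s ha ih =>
    rw [Finset.sum_insert ha]
    refine le_trans (FSp.pb_mono F (E' := fun ω => A a ω ∨ ∃ i ∈ s, A i ω) ?_) ((pb_or F _ _).trans (by linarith))
    intro ω _ ⟨i, hi, hA⟩
    rcases Finset.mem_insert.mp hi with rfl | h
    · exact Or.inl hA
    · exact Or.inr ⟨i, h, hA⟩

/-- FORMS KNOWN TO THE PARTITIONS OF A FINITE FAMILY GIVE CLOSE FORMS OF FINITE DATA -/
theorem hasF_of_knw {κ : Type} [Finite κ] (Q : S.VV M) (W : κ → ∀ k, Setoid (S.F k).Ω) {κ' : Type} {A : κ' → Part S}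
    {x : ∀ k, FD (S.F k) (Mon M D)} (hx : (gaq Q D).Adf A x) (h : ∀ i, KnW (W i) x) {e γ : ℝ}
    (he : 0 < e) (hγ : γ < ul (vx Q x)) :
    ∀ᶠ k in UF, HasF (S.F k) M D (Q.v k) (fun i => W i k) e γ := by
  classical
  have : Fintype κ := Fintype.ofFinite κ
  obtain ⟨g0, hg0⟩ : ∃ g0, g0 = ul (vx Q x) := ⟨_, rfl⟩
  rw [← hg0] at hγ
  obtain ⟨ε, hε, hεe, hεM⟩ : ∃ ε : ℝ, 0 < ε ∧ 2 * ε ≤ e ∧ ε * M ≤ (g0 - γ) / 2 := by
    refine ⟨min (e / 2) ((g0 - γ) / (2 * (M + 1))), lt_min (by linarith) (div_pos (by linarith) (by positivity)), ?_, ?_⟩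
    · have := min_le_left (e / 2) ((g0 - γ) / (2 * ((M : ℝ) + 1)))
      linarith
    · have h1 := min_le_right (e / 2) ((g0 - γ) / (2 * ((M : ℝ) + 1)))
      have h2 : min (e / 2) ((g0 - γ) / (2 * ((M : ℝ) + 1))) * M ≤ (g0 - γ) / (2 * ((M : ℝ) + 1)) * M :=
        mul_le_mul_of_nonneg_right h1 (Nat.cast_nonneg M)
      refine h2.trans ?_
      rw [div_mul_eq_mul_div, div_le_div_iff₀ (by positivity) (by norm_num)]
      have h3 : (0 : ℝ) ≤ M := Nat.cast_nonneg M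
      nlinarith
  choose J j1 j2 j3 using fun i => h i ε hε
  have hφ := phi_typ hx (η := ε) hε
  have hlim : Tendsto (fun k => ∑ i : κ, (x k).l.T.pb (fun ω => ¬ Nr (ε * (S.F k).n) ((x k).g ω)
      (J i k ((x k).l.p.π ω))) + (x k).l.T.pb (fun ω =>
        ¬ phi (S.dl 1 k) ((x k).g ω) (Q.v k ((x k).l.p.π ω)) ≤ 2 ^ (ε * (S.F k).n))) UF (𝓝 0) := by
    have := (tendsto_finsetSum (Finset.univ : Finset κ) (fun i _ => j3 i)).add hφ
    rwa [Finset.sum_const_zero, add_zero] at this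
  have hU := vx_UB hx
  have t1 : ∀ i, Tendsto (fun k => vx Q x k - (ε * M / 2 + K0 M D * (x k).l.T.pb (fun ω =>
      ¬ Nr (ε * (S.F k).n) ((x k).g ω) (J i k ((x k).l.p.π ω))))) UF (𝓝 (g0 - ε * M / 2)) := by
    intro i
    have h1 := (ul_tendsto hU).sub (((j3 i).const_mul (K0 M D)).const_add (ε * M / 2))
    rw [mul_zero, add_zero, ← hg0] at h1
    exact h1
  have hC : (0 : ℝ) ≤ 2 * D + 1 + 1 := by positivity
  have hbd := Pool.Agent.Helper14.MC.adf_cap hx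
  have hb2 := gexq_bd (Pool.Agent.Helper14.MC.oQ (lb x) Q) _ ((gaq Q D).C + 1)
    (by linarith [(gaq Q D).C0]) hbd
  have hall : ∀ᶠ k in UF, ∀ i : κ, (∀ ω ω', (S.F k).μ ω ≠ 0 → (S.F k).μ ω' ≠ 0 → (S.F k).Z ω ω' → W i k ω ω' →
      J i k ω = J i k ω') ∧ (∀ ω, (S.F k).μ ω ≠ 0 → Cpd (capF (S.F k) D) (J i k ω)) ∧
      (γ < vx Q x k - (ε * M / 2 + K0 M D * (x k).l.T.pb (fun ω =>
      ¬ Nr (ε * (S.F k).n) ((x k).g ω) (J i k ((x k).l.p.π ω))))) ∧
      (∀ ω, (S.F k).μ ω ≠ 0 → 0 ≤ gexq Q (J i) k ω) := by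
    rw [Filter.eventually_all]
    intro i
    filter_upwards [j1 i, j2 i, (t1 i).eventually (lt_mem_nhds (show γ < g0 - ε * M / 2 by linarith)),
      gexq_nonneg Q (J i) _ (j2 i)] with k a b c d
    exact ⟨a, b, c, d⟩
  filter_upwards [hall, hlim.eventually (gt_mem_nhds he), hx 1 one_pos, hb2] with k b1 b5 b7 b8
  have hn := (S.F k).pos
  refine ⟨fun ω => (∀ i j : κ, Nr (e * (S.F k).n) (J i k ω) (J j k ω)) ∧
      ∀ i : κ, phi (S.dl 1 k) (J i k ω) (Q.v k ω) ≤ 2 ^ (e * (S.F k).n),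
    fun i => J i k, ?_, fun i => (b1 i).1, fun i => (b1 i).2.1, fun i j ω _ hA => hA.1 i j,
    fun i ω _ hA => hA.2 i, fun i => ?_⟩
  · have h1 := pb_push (x k).l.p (fun ω => ¬ ((∀ i j : κ, Nr (e * (S.F k).n) (J i k ω) (J j k ω)) ∧
      ∀ i : κ, phi (S.dl 1 k) (J i k ω) (Q.v k ω) ≤ 2 ^ (e * (S.F k).n)))
    rw [← h1]
    refine le_trans (le_trans (FSp.pb_mono _ (E' := fun ω =>
      (∃ i ∈ (Finset.univ : Finset κ), ¬ Nr (ε * (S.F k).n) ((x k).g ω) (J i k ((x k).l.p.π ω))) ∨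
      (¬ phi (S.dl 1 k) ((x k).g ω) (Q.v k ((x k).l.p.π ω)) ≤ 2 ^ (ε * (S.F k).n))) ?_)
      ((pb_or _ _ _).trans (add_le_add (pb_ex _ _) le_rfl))) b5.le
    intro ω hω h2
    by_contra hc
    push Not at hc
    obtain ⟨c1, c3⟩ := hc
    have hs := (x k).l.p.supp ω hω
    apply h2
    have e1 : ε * (S.F k).n + ε * (S.F k).n ≤ e * (S.F k).n := by nlinarith
    refine ⟨fun i j => ?_, fun i => ?_⟩
    · have p1 := ((b1 i).2.1 _ hs).psd
      have p2 := ((b1 j).2.1 _ hs).psd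
      exact Nr.mono e1 p1 p2 ((c1 i (Finset.mem_univ i)).symm.trans (c1 j (Finset.mem_univ j)))
    · refine (phi_dom _ _ (c1 i (Finset.mem_univ i)).2).trans ?_
      have h3 := mul_le_mul_of_nonneg_left c3 (show (0 : ℝ) ≤ 2 ^ (ε * (S.F k).n) by positivity)
      refine h3.trans ?_
      rw [← Real.rpow_add (by norm_num)]
      exact Real.rpow_le_rpow_of_exponent_le (by norm_num) e1
  · obtain ⟨a1, a2, a3, a4⟩ := b1 i
    have h1 := sum_split_le (F := (x k).l.T)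
      (fun ω => gx Q k ((x k).l.p.π ω) ((x k).g ω) - gexq Q (J i) k ((x k).l.p.π ω))
      (fun ω => Nr (ε * (S.F k).n) ((x k).g ω) (J i k ((x k).l.p.π ω))) (ε * M / 2) (K0 M D) (by positivity)
      (K0_nonneg M D) (by
        intro ω hω hE
        have hs := (x k).l.p.supp ω hω
        have c1 := (b7.2.1 ω hω).1
        have c2 := a2 _ hs
        have h2 := GQ_dom (S.dl 1 k) (J i k ((x k).l.p.π ω)) ((x k).g ω) c2.1 c2.psd.2 c1.1 c1.psd.2
          (Q.v k ((x k).l.p.π ω)) (2 ^ (ε * (S.F k).n)) (Real.one_le_rpow (by norm_num) (by positivity)) hE.1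
        have h3 := one_le_GQ (S.dl 1 k) c2.1 c2.psd.2 (Q.v k ((x k).l.p.π ω))
        have h4 := one_le_GQ (S.dl 1 k) c1.1 c1.psd.2 (Q.v k ((x k).l.p.π ω))
        have h5 := Real.logb_le_logb_of_le (b := 2) (by norm_num) (by linarith) h2
        rw [Real.logb_mul (by positivity) (by linarith), Real.logb_pow,
          Real.logb_rpow (by norm_num) (by norm_num)] at h5
        show Real.logb 2 (GQ (S.dl 1 k) ((x k).g ω) (Q.v k ((x k).l.p.π ω))) / (2 * (S.F k).n) -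
          Real.logb 2 (GQ (S.dl 1 k) (J i k ((x k).l.p.π ω)) (Q.v k ((x k).l.p.π ω))) / (2 * (S.F k).n) ≤ ε * M / 2
        rw [← sub_div, div_le_div_iff₀ (by positivity) (by norm_num)]
        have h6 : (M : ℝ) * (ε * (S.F k).n) * 2 = ε * M * (2 * (S.F k).n) := by ring
        nlinarith) (by
        intro ω hω
        have hs := (x k).l.p.supp ω hω
        have d1 := b8 ω hω
        have d2 := a4 _ hs
        have f1 : gexq (Pool.Agent.Helper14.MC.oQ (lb x) Q)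
            (fun k (ω : (x k).l.T.Ω) => (x k).g ω) k ω = gx Q k ((x k).l.p.π ω) ((x k).g ω) := by
          unfold gexq gx
          rw [Pool.Agent.Helper42.NS.osp_dl, Pool.Agent.Helper14.MC.osp_n]
          rfl
        rw [f1] at d1
        have f2 : ((gaq Q D).C + 1 + 3) * (M : ℝ) = K0 M D := rfl
        rw [f2] at d1
        show gx Q k ((x k).l.p.π ω) ((x k).g ω) - gexq Q (J i) k ((x k).l.p.π ω) ≤ K0 M D
        linarith)
    have h2 : ∑ ω, (x k).l.T.μ ω * (gx Q k ((x k).l.p.π ω) ((x k).g ω) - gexq Q (J i) k ((x k).l.p.π ω)) =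
        vx Q x k - ∑ ω, (S.F k).μ ω * gexq Q (J i) k ω := by
      have h3 := sum_push (x k).l.p (fun ω => gexq Q (J i) k ω)
      rw [← h3]
      unfold Pool.Agent.Helper14.MC.vx
      rw [← Finset.sum_sub_distrib]
      exact Finset.sum_congr rfl fun ω _ => by ring
    have h3 : ∑ ω, (x k).l.T.μ ω * (gx Q k ((x k).l.p.π ω) ((x k).g ω) - gexq Q (J i) k ((x k).l.p.π ω)) ≤
        ε * M / 2 + K0 M D * (x k).l.T.pb (fun ω => ¬ Nr (ε * (S.F k).n) ((x k).g ω) (J i k ((x k).l.p.π ω))) := h1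
    rw [h2] at h3
    show γ ≤ ∑ ω, (S.F k).μ ω * gexq Q (J i) k ω
    linarith

/-- K-STEP: the forms of a label which is a kernel of the resolution `R` (leak exactly zero) are known to `R`, as soon as
they are known to some partition of the space -/
theorem knW_of_leak {Q : S.VV M} {κ' : Type} {A : κ' → Part S} {x : ∀ k, FD (S.F k) (Mon M D)}
    (hx : (gaq Q D).Adf A x) {R W : ∀ k, Setoid (S.F k).Ω}
    (hK : ∀ᶠ k in UF, (x k).l.leak (fc (R k)) = 0) (h : KnW W x) : KnW R x := by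
  classical
  intro ε hε
  obtain ⟨J, -, j2, j3⟩ := h (ε / 2) (by linarith)
  have hsel : ∀ k, ∃ X : (S.F k).Ω → Matrix (Mon M D) (Mon M D) ℝ, (x k).l.leak (fc (R k)) = 0 →
      (∀ a b, R k a b → (S.F k).Z a b → X a = X b) ∧
      (∀ a, (S.F k).μ a ≠ 0 → ∃ τ, (x k).l.T.μ τ ≠ 0 ∧ X a = (x k).g τ) ∧
      (S.F k).pb (fun a => ¬ Nr (ε / 2 * (S.F k).n) (X a) (J k a)) ≤
        (x k).l.T.pb (fun τ => ¬ Nr (ε / 2 * (S.F k).n) ((x k).g τ) (J k ((x k).l.p.π τ))) := by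
    intro k
    by_cases hk : (x k).l.leak (fc (R k)) = 0
    · obtain ⟨X, a1, a2, a3⟩ := sel_var (x k).l (R k) hk (x k).g
        (fun τ τ' h1 h2 h3 h4 => ((x k).meas τ τ' h1 h2 h3 h4).1)
        (fun a B => Nr (ε / 2 * (S.F k).n) B (J k a))
      refine ⟨X, fun _ => ⟨a1, fun a ha => ?_, a3⟩⟩
      obtain ⟨τ, b1, b2, -⟩ := a2 a ha
      exact ⟨τ, b1, b2⟩
    · exact ⟨fun _ => 1, fun h => absurd h hk⟩
  choose X hX using hsel
  refine ⟨X, ?_, ?_, ?_⟩
  · filter_upwards [hK] with k hk ω ω' _ _ h3 h4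
    exact (hX k hk).1 ω ω' h4 h3
  · filter_upwards [hK, hx 1 one_pos] with k hk h1 ω hω
    obtain ⟨τ, a1, a2⟩ := (hX k hk).2.1 ω hω
    rw [a2]
    exact (h1.2.1 τ a1).1
  · have t2 : Tendsto (fun k => 2 * (x k).l.T.pb (fun τ => ¬ Nr (ε / 2 * (S.F k).n) ((x k).g τ)
        (J k ((x k).l.p.π τ)))) UF (𝓝 0) := by
      have := j3.const_mul 2
      rwa [mul_zero] at this
    refine squeeze_zero' (Eventually.of_forall fun k => FSp.pb_nonneg _ _) ?_ t2
    filter_upwards [hK] with k hk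
    have h1 := (hX k hk).2.2
    rw [← pb_push (x k).l.p (fun a => ¬ Nr (ε / 2 * (S.F k).n) (X k a) (J k a))] at h1
    have h2 := FSp.pb_mono (x k).l.T (E := fun τ => ¬ Nr (ε * (S.F k).n) ((x k).g τ) (X k ((x k).l.p.π τ)))
      (E' := fun τ => (¬ Nr (ε / 2 * (S.F k).n) ((x k).g τ) (J k ((x k).l.p.π τ))) ∨
        ¬ Nr (ε / 2 * (S.F k).n) (X k ((x k).l.p.π τ)) (J k ((x k).l.p.π τ))) (by
      intro τ _ h3
      by_contra h4
      push Not at h4
      apply h3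
      have h5 := h4.1.trans h4.2.symm
      have e1 : ε / 2 * (S.F k).n + ε / 2 * (S.F k).n = ε * (S.F k).n := by ring
      rw [e1] at h5
      exact h5)
    have h3 := pb_or (x k).l.T (fun τ => ¬ Nr (ε / 2 * (S.F k).n) ((x k).g τ) (J k ((x k).l.p.π τ)))
      (fun τ => ¬ Nr (ε / 2 * (S.F k).n) (X k ((x k).l.p.π τ)) (J k ((x k).l.p.π τ)))
    linarith

/-- the family with the resolution -/
def optW (R : ∀ k, Setoid (S.F k).Ω) {κ : Type} (W : κ → ∀ k, Setoid (S.F k).Ω) : Option κ → ∀ k, Setoid (S.F k).Ω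
  | none => R
  | some i => W i

/-- K-LABELS: forms known to the partitions of a finite family, over a kernel of the resolution `R`, give close forms known
to `R` and to the partitions -/
theorem hasF_K {κ : Type} [Finite κ] [Nonempty κ] (Q : S.VV M) (R : ∀ k, Setoid (S.F k).Ω)
    (W : κ → ∀ k, Setoid (S.F k).Ω) {κ' : Type} {A : κ' → Part S}
    {x : ∀ k, FD (S.F k) (Mon M D)} (hx : (gaq Q D).Adf A x) (hK : ∀ᶠ k in UF, (x k).l.leak (fc (R k)) = 0)
    (h : ∀ i, KnW (W i) x) {e γ : ℝ} (he : 0 < e) (hγ : γ < ul (vx Q x)) :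
    ∀ᶠ k in UF, HasF (S.F k) M D (Q.v k) (fun i => optW R W i k) e γ := by
  apply hasF_of_knw Q (optW R W) hx _ he hγ
  intro i
  cases i with
  | none => exact knW_of_leak hx hK (h (Classical.arbitrary κ))
  | some i => exact h i

end

end Pool.Agent.Helper38.NSL
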