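import Pool.Agent.Helper38.NSL.Hf2

/-! NSL*, transfer with WEIGHTS: close forms on a part of the space of positive mass, as a statement of finite data which is
stable under events of extensions, projections along kernels of the resolution and slow limits. -/

set_option autoImplicit false

namespace Pool.Agent.Helper38.NSL

open Finset Filter Topology Matrix Pool.Agent.Helper69.RK Pool.Agent.Helper31.EC Pool.Agent.Helper31.EC.Sp
open Pool.Agent.Helper40.EL
open Pool.Agent.Helper84.MT Pool.Agent.Helper3.LF Pool.Agent.Helper59.LF Pool.Agent.Helper89.LX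
open Pool.Agent.Helper48.NS Pool.Agent.Helper49.MD Pool.Agent.Helper87.NSL
open Pool.Agent.Helper14.MC (gexq gexq_bd gexq_UB gexq_nonneg GQ_dom gx vx vx_UB vol_eq)
open Pool.Agent.Helper59.EV (sum_split_le)

noncomputable section

variable {M D : ℕ}

/-- CLOSE FORMS ON A PART OF THE SPACE, finite data: forms known to the partitions `W i`, close to each other and small at
the point up to `2 ^ (e n)` where the weight `w` is not zero; `δ` = total excess of the exponents over `γ` (for the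
members `P` of the family) -/
def HasW (F : FSp) (M D : ℕ) (Q : F.Ω → Fin M → ℝ) {κ : Type} (W : κ → Setoid F.Ω) (P : κ → Prop) (e γ δ : ℝ) : Prop :=
  ∃ (w : F.Ω → ℝ) (J : κ → F.Ω → Matrix (Mon M D) (Mon M D) ℝ),
    (∀ ω, 0 ≤ w ω ∧ w ω ≤ 1) ∧
    (∀ i ω ω', F.μ ω ≠ 0 → F.μ ω' ≠ 0 → F.Z ω ω' → W i ω ω' → J i ω = J i ω') ∧
    (∀ i ω, F.μ ω ≠ 0 → Cpd (capF F D) (J i ω)) ∧
    (∀ i j ω, F.μ ω ≠ 0 → w ω ≠ 0 → Nr (e * F.n) (J i ω) (J j ω)) ∧
    (∀ i ω, F.μ ω ≠ 0 → w ω ≠ 0 → phi (dlF F 1) (J i ω) (Q ω) ≤ 2 ^ (e * F.n)) ∧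
    ∀ i, P i → δ ≤ ∑ ω, F.μ ω * (w ω * (gxF F Q (J i) ω - γ))

section
variable {F : FSp} {Q : F.Ω → Fin M → ℝ} {κ κ' : Type} {W : κ → Setoid F.Ω} {P : κ → Prop} {e e' γ γ' δ δ' : ℝ}

theorem HasW.mono (h : HasW F M D Q W P e γ δ) (he : e ≤ e') (hγ : γ' ≤ γ) (hδ : δ' ≤ δ) :
    HasW F M D Q W P e' γ' δ' := by
  obtain ⟨w, J, h1, h2, h3, h4, h5, h6⟩ := h
  have hn := F.pos
  have h8 : e * F.n ≤ e' * F.n := mul_le_mul_of_nonneg_right he hn.le
  refine ⟨w, J, h1, h2, h3, fun i j ω hω hA => ?_, fun i ω hω hA => (h5 i ω hω hA).trans ?_, fun i hi =>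
    hδ.trans ((h6 i hi).trans ?_)⟩
  · exact Nr.mono h8 (h3 i ω hω).psd (h3 j ω hω).psd (h4 i j ω hω hA)
  · exact Real.rpow_le_rpow_of_exponent_le (by norm_num) h8
  · apply Finset.sum_le_sum
    intro ω _
    apply mul_le_mul_of_nonneg_left _ (F.nn ω)
    exact mul_le_mul_of_nonneg_left (by linarith) (h1 ω).1

/-- subfamilies and finer partitions -/
theorem HasW.ren (h : HasW F M D Q W P e γ δ) {W' : κ' → Setoid F.Ω} {P' : κ' → Prop} (f : κ' → κ)
    (hP : ∀ i, P' i → P (f i)) (hf : ∀ i ω ω', F.μ ω ≠ 0 → F.μ ω' ≠ 0 → F.Z ω ω' → W' i ω ω' → W (f i) ω ω') :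
    HasW F M D Q W' P' e γ δ := by
  obtain ⟨w, J, h1, h2, h3, h4, h5, h6⟩ := h
  exact ⟨w, fun i => J (f i), h1, fun i ω ω' a b c d => h2 _ ω ω' a b c (hf i ω ω' a b c d), fun i => h3 _,
    fun i j => h4 _ _, fun i => h5 _, fun i hi => h6 _ (hP i hi)⟩

/-- the other members of the family have almost the same excess -/
theorem HasW.compl (h : HasW F M D Q W P e γ δ) (he : 0 ≤ e) (i0 : κ) (hi0 : P i0) {P' : κ → Prop} :
    HasW F M D Q W P' e (γ - e * M / 2) δ := by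
  obtain ⟨w, J, h1, h2, h3, h4, h5, h6⟩ := h
  refine ⟨w, J, h1, h2, h3, h4, h5, fun i _ => (h6 i0 hi0).trans ?_⟩
  apply Finset.sum_le_sum
  intro ω _
  by_cases h0 : F.μ ω = 0
  · rw [h0, zero_mul, zero_mul]
  apply mul_le_mul_of_nonneg_left _ (F.nn ω)
  by_cases h7 : w ω = 0
  · rw [h7, zero_mul, zero_mul]
  apply mul_le_mul_of_nonneg_left _ (h1 ω).1
  have h8 := gxF_dom (Q := Q) (A := J i) (B := J i0) (h3 i ω h0) (h3 i0 ω h0) he (h4 i0 i ω h0 h7).1
  linarith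

end

/-- close forms off a small event -/
theorem hasW_of_hasF {S : Sp} (Q : S.VV M) : ∀ᶠ k in UF, ∀ (κ : Type) (W : κ → Setoid (S.F k).Ω) (e γ γ' : ℝ), γ' ≤ γ →
    0 ≤ γ' → HasF (S.F k) M D (Q.v k) W e γ →
      HasW (S.F k) M D (Q.v k) W (fun _ => True) e γ' (γ - γ' - K0 M D * e) := by
  classical
  filter_upwards [gxF_bd (D := D) Q] with k hk κ W e γ γ' hγ hγ0 h
  obtain ⟨A, J, h1, h2, h3, h4, h5, h6⟩ := h
  refine ⟨fun ω => e1_ind (A ω), J, fun ω => ?_, h2, h3, fun i j ω hω hA => ?_, fun i ω hω hA => ?_, fun i _ => ?_⟩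
  · beta_reduce
    by_cases h : A ω
    · rw [e1_ind_pos h]; norm_num
    · rw [e1_ind_neg h]; norm_num
  · by_cases h : A ω
    · exact h4 i j ω hω h
    · exact absurd (e1_ind_neg h) hA
  · by_cases h : A ω
    · exact h5 i ω hω h
    · exact absurd (e1_ind_neg h) hA
  · have h7 : ∑ ω, (S.F k).μ ω * (gxF (S.F k) (Q.v k) (J i) ω - γ') ≤
        ∑ ω, (S.F k).μ ω * (e1_ind (A ω) * (gxF (S.F k) (Q.v k) (J i) ω - γ')) +
          ∑ ω, (S.F k).μ ω * (K0 M D * e1_ind (¬ A ω)) := by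
      rw [← Finset.sum_add_distrib]
      apply Finset.sum_le_sum
      intro ω _
      rw [← mul_add]
      by_cases h0 : (S.F k).μ ω = 0
      · rw [h0, zero_mul, zero_mul]
      apply mul_le_mul_of_nonneg_left _ ((S.F k).nn ω)
      have h8 := hk (J i) (h3 i) ω h0
      by_cases h : A ω
      · rw [e1_ind_pos h, e1_ind_neg (by exact not_not.mpr h)]
        linarith
      · rw [e1_ind_neg h, e1_ind_pos h]
        linarith
    have h8 : ∑ ω, (S.F k).μ ω * (K0 M D * e1_ind (¬ A ω)) = K0 M D * (S.F k).pb (fun ω => ¬ A ω) := by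
      rw [Pool.Agent.Helper59.GR.pb_ind, Finset.mul_sum]
      exact Finset.sum_congr rfl fun ω _ => by ring
    have h9 : ∑ ω, (S.F k).μ ω * (gxF (S.F k) (Q.v k) (J i) ω - γ') =
        ∑ ω, (S.F k).μ ω * gxF (S.F k) (Q.v k) (J i) ω - γ' := by
      have h10 : ∑ ω, (S.F k).μ ω = 1 := (S.F k).ms
      have h11 : ∀ ω, (S.F k).μ ω * (gxF (S.F k) (Q.v k) (J i) ω - γ') =
          (S.F k).μ ω * gxF (S.F k) (Q.v k) (J i) ω - (S.F k).μ ω * γ' := fun ω => by ring
      rw [Finset.sum_congr rfl (fun ω _ => h11 ω), Finset.sum_sub_distrib, ← Finset.sum_mul, h10, one_mul]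
    have h10 := mul_le_mul_of_nonneg_left h1 (K0_nonneg M D)
    have h11 := h6 i
    linarith

end

end Pool.Agent.Helper38.NSL
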