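import Pool.Agent.Helper38.NSL.Hw

/-! NSL*, transfer with weights, second part: projection along kernels of the resolution and along events of extensions. -/

set_option autoImplicit false

namespace Pool.Agent.Helper38.NSL

open Finset Filter Topology Matrix Pool.Agent.Helper69.RK Pool.Agent.Helper31.EC Pool.Agent.Helper31.EC.Sp
open Pool.Agent.Helper40.EL
open Pool.Agent.Helper84.MT Pool.Agent.Helper3.LF Pool.Agent.Helper59.LF Pool.Agent.Helper89.LX
open Pool.Agent.Helper48.NS Pool.Agent.Helper49.MD Pool.Agent.Helper87.NSL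
open Pool.Agent.Helper33.LIT (cg)

noncomputable section

variable {M D : ℕ}

theorem capF_one (F : FSp) (D : ℕ) : 1 ≤ capF F D := by
  unfold capF
  apply Real.one_le_rpow (by norm_num)
  have := F.pos
  positivity

/-- every point of the support has a point of an extension over it -/
theorem exists_over {T F : FSp} (p : FPj T F) (a : F.Ω) (ha : F.μ a ≠ 0) : ∃ τ, T.μ τ ≠ 0 ∧ p.π τ = a := by
  rw [← p.law, push_ind] at ha
  obtain ⟨τ, -, h⟩ := Finset.exists_ne_zero_of_sum_ne_zero ha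
  by_cases h1 : p.π τ = a
  · refine ⟨τ, ?_, h1⟩
    intro h2
    rw [h2, mul_zero] at h
    exact h rfl
  · rw [e1_ind_neg h1, zero_mul] at h
    exact absurd rfl h

/-- PROJECTION along a kernel of the resolution, with weights -/
theorem HasW.sel {F : FSp} (l : FLab F) {R : Setoid F.Ω} (hl : l.leak (fc R) = 0) {κ : Type} {Q : F.Ω → Fin M → ℝ}
    {W : κ → Setoid F.Ω} {P : Option κ → Prop} {e γ δ : ℝ} (i0 : κ) (hi0 : P (some i0))
    (h : HasW l.T M D (fun τ => Q (l.p.π τ)) (optS l.V fun i => Setoid.comap l.p.π (W i)) P e γ δ) :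
    HasW F M D Q (optS R W) (fun i => i = some i0) e γ δ := by
  classical
  obtain ⟨u, J, h1, h2, h3, h4, h5, h6⟩ := h
  have hcap : capF l.T D = capF F D := by unfold capF; rw [l.hn]
  have hdl : dlF l.T 1 = dlF F 1 := by unfold dlF; rw [l.hn]
  have hs : ∀ a : F.Ω, ∃ τ : l.T.Ω, F.μ a ≠ 0 → l.T.μ τ ≠ 0 ∧ l.p.π τ = a := by
    intro a
    by_cases ha : F.μ a = 0
    · exact ⟨(Pool.Agent.Helper33.LIT.exists_T l).some, fun h => absurd ha h⟩
    · obtain ⟨τ, a1, a2⟩ := exists_over l.p a ha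
      exact ⟨τ, fun _ => ⟨a1, a2⟩⟩
  choose s hs using hs
  set Jt : κ → F.Ω → Matrix (Mon M D) (Mon M D) ℝ := fun i a => J (some i) (s a) with hJt
  have hJ : ∀ i τ, l.T.μ τ ≠ 0 → J (some i) τ = Jt i (l.p.π τ) := by
    intro i τ hτ
    obtain ⟨a1, a2⟩ := hs (l.p.π τ) (l.p.supp τ hτ)
    apply h2 (some i) τ _ hτ a1
    · exact (l.p.hZ _ _ hτ a1).mpr (by rw [a2])
    · show W i (l.p.π τ) (l.p.π (s (l.p.π τ)))
      rw [a2]
  obtain ⟨v, v1, v2⟩ := sel_fun l R hl (fun x v => -(wv l u x v * (gxF F Q (Jt i0) x - γ)))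
  have hX : ∀ c : Quotient (R ⊓ F.Z), ∃ X : Matrix (Mon M D) (Mon M D) ℝ, ∀ x, F.μ x ≠ 0 → cg R x = c →
      ∃ τ, l.T.μ τ ≠ 0 ∧ Pool.Agent.Helper33.LIT.mk l τ = v c ∧ X = J none τ ∧ cg R (l.p.π τ) = cg R x := by
    intro c
    by_cases hc : ∃ x, F.μ x ≠ 0 ∧ cg R x = c
    · obtain ⟨x0, h0, rfl⟩ := hc
      obtain ⟨τ, a1, a2, a3⟩ := qk_ne l R (v1 x0 h0)
      exact ⟨J none τ, fun x _ hx => ⟨τ, a1, a2, rfl, a3.trans hx.symm⟩⟩
    · push Not at hc
      exact ⟨1, fun x a b => absurd b (hc x a)⟩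
  choose X hX using hX
  -- the form at a point of positive weight
  have hXτ : ∀ x, F.μ x ≠ 0 → ∀ τ, l.T.μ τ ≠ 0 → l.p.π τ = x → Pool.Agent.Helper33.LIT.mk l τ = v (cg R x) → X (cg R x) = J none τ := by
    intro x hx τ hτ e1 e2
    obtain ⟨τ', a1, a2, a3, a4⟩ := hX _ x hx rfl
    rw [a3]
    have a5 := (Quotient.eq (r := R ⊓ F.Z)).mp a4
    apply h2 none τ' τ a1 hτ
    · apply (l.p.hZ _ _ a1 hτ).mpr
      rw [e1]
      exact a5.2
    · exact (Quotient.eq (r := l.V)).mp (a2.trans e2.symm)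
  refine ⟨fun x => wv l u x (v (cg R x)),
    fun o => match o with
      | none => fun x => X (cg R x)
      | some i => Jt i, fun x => wv_mem l h1 _ _, ?_, ?_, ?_, ?_, ?_⟩
  · intro i a a' ha ha' hZ hW
    cases i with
    | none =>
      have e : cg R a = cg R a' := (Quotient.eq (r := R ⊓ F.Z)).mpr ⟨hW, hZ⟩
      show X (cg R a) = X (cg R a')
      rw [e]
    | some i =>
      obtain ⟨a1, a2⟩ := hs a ha
      obtain ⟨a3, a4⟩ := hs a' ha'
      apply h2 (some i) _ _ a1 a3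
      · apply (l.p.hZ _ _ a1 a3).mpr
        rw [a2, a4]
        exact hZ
      · show W i (l.p.π (s a)) (l.p.π (s a'))
        rw [a2, a4]
        exact hW
  · intro i a ha
    cases i with
    | none =>
      obtain ⟨τ, b1, -, b2, -⟩ := hX _ a ha rfl
      show Cpd (capF F D) (X (cg R a))
      rw [b2, ← hcap]
      exact h3 none τ b1
    | some i =>
      show Cpd (capF F D) (J (some i) (s a))
      rw [← hcap]
      exact h3 (some i) _ (hs a ha).1
  · intro i j a ha hA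
    obtain ⟨τ, b1, b2, b3, b4⟩ := wv_ne l hA
    have b5 : ∀ i j, Nr (e * F.n) (J i τ) (J j τ) := by
      intro i j
      rw [← l.hn]
      exact h4 i j τ b3 b4
    have b6 := hXτ a ha τ b3 b1 b2
    have b7 : ∀ i, J (some i) τ = Jt i a := fun i => by rw [hJ i τ b3, b1]
    cases i with
    | none =>
      cases j with
      | none =>
        show Nr (e * F.n) (X (cg R a)) (X (cg R a))
        rw [b6]
        exact b5 _ _
      | some j =>
        show Nr (e * F.n) (X (cg R a)) (Jt j a)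
        rw [b6, ← b7]
        exact b5 _ _
    | some i =>
      cases j with
      | none =>
        show Nr (e * F.n) (Jt i a) (X (cg R a))
        rw [b6, ← b7]
        exact b5 _ _
      | some j =>
        show Nr (e * F.n) (Jt i a) (Jt j a)
        rw [← b7, ← b7]
        exact b5 _ _
  · intro i a ha hA
    obtain ⟨τ, b1, b2, b3, b4⟩ := wv_ne l hA
    have b5 : ∀ i, phi (dlF F 1) (J i τ) (Q a) ≤ 2 ^ (e * F.n) := by
      intro i
      have b8 := h5 i τ b3 b4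
      beta_reduce at b8
      rw [b1, hdl, l.hn] at b8
      exact b8
    have b6 := hXτ a ha τ b3 b1 b2
    have b7 : ∀ i, J (some i) τ = Jt i a := fun i => by rw [hJ i τ b3, b1]
    cases i with
    | none =>
      show phi (dlF F 1) (X (cg R a)) (Q a) ≤ 2 ^ (e * F.n)
      rw [b6]
      exact b5 _
    | some i =>
      show phi (dlF F 1) (Jt i a) (Q a) ≤ 2 ^ (e * F.n)
      rw [← b7]
      exact b5 _
  · rintro i rfl
    refine (h6 (some i0) hi0).trans ?_
    have c1 : ∑ τ, l.T.μ τ * (u τ * (gxF l.T (fun τ => Q (l.p.π τ)) (J (some i0)) τ - γ)) =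
        ∑ τ, l.T.μ τ * (u τ * (gxF F Q (Jt i0) (l.p.π τ) - γ)) := by
      apply Finset.sum_congr rfl
      intro τ _
      by_cases h0 : l.T.μ τ = 0
      · rw [h0, zero_mul, zero_mul]
      · have b4 : gxF l.T (fun τ => Q (l.p.π τ)) (J (some i0)) τ = gxF F Q (Jt i0) (l.p.π τ) := by
          unfold gxF
          rw [hJ i0 τ h0, hdl, l.hn]
        rw [b4]
    rw [c1, ← wv_sum l u (fun x => gxF F Q (Jt i0) x - γ)]
    have c2 : ∑ x, F.μ x * -(wv l u x (v (cg R x)) * (gxF F Q (Jt i0) x - γ)) =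
        -∑ x, F.μ x * (wv l u x (v (cg R x)) * (gxF F Q (Jt i0) x - γ)) := by
      rw [← Finset.sum_neg_distrib]
      exact Finset.sum_congr rfl fun x _ => by ring
    have c3 : ∑ τ, l.T.μ τ * -(wv l u (l.p.π τ) (Pool.Agent.Helper33.LIT.mk l τ) * (gxF F Q (Jt i0) (l.p.π τ) - γ)) =
        -∑ τ, l.T.μ τ * (wv l u (l.p.π τ) (Pool.Agent.Helper33.LIT.mk l τ) * (gxF F Q (Jt i0) (l.p.π τ) - γ)) := by
      rw [← Finset.sum_neg_distrib]
      exact Finset.sum_congr rfl fun x _ => by ring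
    rw [c2, c3] at v2
    show ∑ τ, l.T.μ τ * (wv l u (l.p.π τ) (Pool.Agent.Helper33.LIT.mk l τ) * (gxF F Q (Jt i0) (l.p.π τ) - γ)) ≤
      ∑ x, F.μ x * (wv l u x (v (cg R x)) * (gxF F Q (Jt i0) x - γ))
    linarith

/-! ### events of extensions -/

theorem im_mass {T F : FSp} (p : FPj T F) (E : T.Ω → Prop) (hE : T.pb E ≠ 0) (a : F.Ω) :
    T.pb E * (FSp.im p E).μ a ≤ F.μ a := by
  have h1 : (FSp.im p E).μ a = ∑ τ, e1_ind (p.π τ = a) * T.restμ E τ := push_ind p.π (T.restμ E) a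
  have h2 : F.μ a = ∑ τ, e1_ind (p.π τ = a) * T.μ τ := by
    rw [← p.law]
    exact push_ind p.π T.μ a
  rw [h1, h2, Finset.mul_sum]
  apply Finset.sum_le_sum
  intro τ _
  rw [T.restμ_eq E hE]
  beta_reduce
  have h3 : T.pb E * (e1_ind (p.π τ = a) * ((T.pb E)⁻¹ * Pool.Agent.Helper69.RK.res T.μ E τ)) = e1_ind (p.π τ = a) * Pool.Agent.Helper69.RK.res T.μ E τ := by
    field_simp
  rw [h3]
  apply mul_le_mul_of_nonneg_left _ (by unfold e1_ind; split_ifs <;> norm_num)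
  unfold Pool.Agent.Helper69.RK.res
  split_ifs
  · exact le_rfl
  · exact T.nn τ

/-- EVENTS OF EXTENSIONS: close forms on an event of an extension are close forms of the space -/
theorem HasW.im {T F : FSp} (p : FPj T F) (E : T.Ω → Prop) (hE : T.pb E ≠ 0) {κ : Type} {Q : F.Ω → Fin M → ℝ}
    {W : κ → Setoid F.Ω} {P : κ → Prop} {e γ δ : ℝ} (h : HasW (FSp.im p E) M D Q W P e γ δ) :
    HasW F M D Q W P e γ (T.pb E * δ) := by
  classical
  obtain ⟨u, J, h1, h2, h3, h4, h5, h6⟩ := h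
  have hpos : 0 < T.pb E := lt_of_le_of_ne (T.pb_nonneg E) (Ne.symm hE)
  set μ' : F.Ω → ℝ := (FSp.im p E).μ with hμ'
  have hnn : ∀ a, 0 ≤ μ' a := (FSp.im p E).nn
  set Jt : κ → F.Ω → Matrix (Mon M D) (Mon M D) ℝ := fun i a =>
    if hc : ∃ b, μ' b ≠ 0 ∧ F.Z a b ∧ W i a b then J i hc.choose else 1 with hJt
  have hJ : ∀ i a, μ' a ≠ 0 → Jt i a = J i a := by
    intro i a ha
    have hc : ∃ b, μ' b ≠ 0 ∧ F.Z a b ∧ W i a b := ⟨a, ha, F.Z.refl' a, (W i).refl' a⟩
    have h7 := hc.choose_spec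
    simp only [hJt]
    rw [dif_pos hc]
    exact (h2 i a _ ha h7.1 h7.2.1 h7.2.2).symm
  have hw : ∀ a, u a * (T.pb E * μ' a / F.μ a) ≠ 0 → μ' a ≠ 0 ∧ u a ≠ 0 := by
    intro a ha
    refine ⟨fun h0 => ha ?_, fun h0 => ha ?_⟩
    · rw [h0]; simp
    · rw [h0, zero_mul]
  refine ⟨fun a => u a * (T.pb E * μ' a / F.μ a), Jt, fun a => ?_, ?_, ?_, ?_, ?_, ?_⟩
  · have a1 := im_mass p E hE a
    have a2 : 0 ≤ T.pb E * μ' a / F.μ a := div_nonneg (mul_nonneg hpos.le (hnn a)) (F.nn a)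
    have a3 : T.pb E * μ' a / F.μ a ≤ 1 := div_le_one_of_le₀ a1 (F.nn a)
    exact ⟨mul_nonneg (h1 a).1 a2, mul_le_one₀ (h1 a).2 a2 a3⟩
  · intro i a a' _ _ hZ hW
    simp only [hJt]
    by_cases hc : ∃ b, μ' b ≠ 0 ∧ F.Z a b ∧ W i a b
    · have hc' : ∃ b, μ' b ≠ 0 ∧ F.Z a' b ∧ W i a' b := by
        obtain ⟨b, b1, b2, b3⟩ := hc
        exact ⟨b, b1, F.Z.trans' (F.Z.symm' hZ) b2, (W i).trans' ((W i).symm' hW) b3⟩
      rw [dif_pos hc, dif_pos hc']
      have h7 := hc.choose_spec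
      have h8 := hc'.choose_spec
      apply h2 i _ _ h7.1 h8.1
      · exact F.Z.trans' (F.Z.symm' h7.2.1) (F.Z.trans' hZ h8.2.1)
      · exact (W i).trans' ((W i).symm' h7.2.2) ((W i).trans' hW h8.2.2)
    · have hc' : ¬ ∃ b, μ' b ≠ 0 ∧ F.Z a' b ∧ W i a' b := by
        rintro ⟨b, b1, b2, b3⟩
        exact hc ⟨b, b1, F.Z.trans' hZ b2, (W i).trans' hW b3⟩
      rw [dif_neg hc, dif_neg hc']
  · intro i a _
    simp only [hJt]
    by_cases hc : ∃ b, μ' b ≠ 0 ∧ F.Z a b ∧ W i a b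
    · rw [dif_pos hc]
      exact h3 i _ hc.choose_spec.1
    · rw [dif_neg hc]
      exact Cpd_one (capF_one F D)
  · intro i j a _ hA
    obtain ⟨a1, a2⟩ := hw a hA
    rw [hJ i a a1, hJ j a a1]
    exact h4 i j a a1 a2
  · intro i a _ hA
    obtain ⟨a1, a2⟩ := hw a hA
    rw [hJ i a a1]
    exact h5 i a a1 a2
  · intro i hi
    have c1 := mul_le_mul_of_nonneg_left (h6 i hi) hpos.le
    refine c1.trans (le_of_eq ?_)
    rw [Finset.mul_sum]
    apply Finset.sum_congr rfl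
    intro a _
    show T.pb E * (μ' a * (u a * (gxF (FSp.im p E) Q (J i) a - γ))) =
      F.μ a * (u a * (T.pb E * μ' a / F.μ a) * (gxF F Q (Jt i) a - γ))
    by_cases h0 : μ' a = 0
    · rw [h0]; simp
    · have h9 : F.μ a ≠ 0 := FSp.im_supp p E a h0
      have e1 : gxF (FSp.im p E) Q (J i) a = gxF F Q (Jt i) a := by
        unfold gxF
        rw [hJ i a h0]
        rfl
      rw [e1]
      field_simp

end

end Pool.Agent.Helper38.NSL
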