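import Pool.Agent.Helper48.NS.Dtm
import Pool.Agent.Helper84.MT.Vol

/-! TRUNCATION, part 1 (finite data): the closure of a form under the translations by the nodes of a cell. Its size on a
smaller cell is bounded by the size of the form on the cell, and the gradients of the form on the cell are gradients of the
closure at the corner. -/

set_option autoImplicit false

namespace Pool.Agent.Helper38.NSL

open Finset Filter Topology Matrix Pool.Agent.Helper69.RK Pool.Agent.Helper31.EC Pool.Agent.Helper40.EL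
open Pool.Agent.Helper89.LX Pool.Agent.Helper3.LF Pool.Agent.Helper59.LF Pool.Agent.Helper84.MT
open Pool.Agent.Helper95.LF (PdM)
open Pool.Agent.Helper48.NS (vv_deriv)

noncomputable section

variable {N D : ℕ}

/-- the matrix of the translation by `b` on the monomials -/
def Sh (b : Fin N → ℝ) : Matrix (Mon N D) (Mon N D) ℝ :=
  Matrix.of fun a c => ∏ i, (((a.1 i : ℕ).choose (c.1 i : ℕ) : ℝ) * b i ^ ((a.1 i : ℕ) - (c.1 i : ℕ)))

theorem Sh_vv (b p : Fin N → ℝ) : (Sh b : Matrix (Mon N D) (Mon N D) ℝ) *ᵥ vv p = vv (fun i => p i + b i) := by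
  classical
  funext a
  rw [vv_apply]
  have h1 : ∀ i, (p i + b i) ^ (a.1 i : ℕ) = ∑ m : Fin (D + 1),
      ((a.1 i : ℕ).choose (m : ℕ) : ℝ) * b i ^ ((a.1 i : ℕ) - (m : ℕ)) * p i ^ (m : ℕ) := by
    intro i
    rw [add_pow]
    have h2 : (a.1 i : ℕ) + 1 ≤ D + 1 := Nat.succ_le_succ (Nat.le_of_lt_succ (a.1 i).2)
    rw [Fin.sum_univ_eq_sum_range (fun m => ((a.1 i : ℕ).choose m : ℝ) * b i ^ ((a.1 i : ℕ) - m) * p i ^ m) (D + 1)]
    rw [← Finset.sum_subset (Finset.range_subset_range.mpr h2) (fun m _ hm => ?_)]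
    · exact Finset.sum_congr rfl fun m _ => by ring
    · rw [Finset.mem_range, not_lt] at hm
      rw [Nat.choose_eq_zero_of_lt (by omega)]
      simp
  rw [Finset.prod_congr rfl fun i _ => h1 i, Finset.prod_univ_sum]
  show ∑ c, Sh b a c * vv p c = _
  have h3 : ∀ c : Mon N D, Sh b a c * vv p c = (fun x : Fin N → Fin (D + 1) => ∏ i,
      (((a.1 i : ℕ).choose (x i : ℕ) : ℝ) * b i ^ ((a.1 i : ℕ) - (x i : ℕ)) * p i ^ (x i : ℕ))) c.1 := by
    intro c
    rw [vv_apply]
    unfold Sh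
    rw [Matrix.of_apply, ← Finset.prod_mul_distrib]
  rw [Finset.sum_congr rfl fun c _ => h3 c]
  have hinj : Function.Injective (fun c : Mon N D => c.1) := Subtype.val_injective
  rw [← Finset.sum_image (s := (Finset.univ : Finset (Mon N D))) (g := fun c : Mon N D => c.1)
    (f := fun x : Fin N → Fin (D + 1) => ∏ i,
      (((a.1 i : ℕ).choose (x i : ℕ) : ℝ) * b i ^ ((a.1 i : ℕ) - (x i : ℕ)) * p i ^ (x i : ℕ)))
    (fun c _ d _ h => hinj h)]
  have h5 : (Fintype.piFinset fun _ : Fin N => (Finset.univ : Finset (Fin (D + 1)))) = Finset.univ := by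
    ext x
    simp
  rw [h5]
  apply Finset.sum_subset (Finset.subset_univ _)
  intro x _ hx
  have h6 : ∃ i, (a.1 i : ℕ) < (x i : ℕ) := by
    by_contra hc
    push Not at hc
    apply hx
    refine Finset.mem_image.2 ⟨⟨x, ?_⟩, Finset.mem_univ _, rfl⟩
    exact (Finset.sum_le_sum fun i _ => hc i).trans a.2
  obtain ⟨i, hi⟩ := h6
  apply Finset.prod_eq_zero (Finset.mem_univ i)
  rw [Nat.choose_eq_zero_of_lt hi]
  simp

theorem Sh_mulVec_dd (b p : Fin N → ℝ) (i : Fin N) :
    (Sh b : Matrix (Mon N D) (Mon N D) ℝ) *ᵥ dd i p = dd i (fun i => p i + b i) := by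
  classical
  funext a
  have h1 := vv_deriv (D := D) (fun k => p k + b k) (Pi.single i 1) a 0
  have h2 : HasDerivAt (fun τ : ℝ => vv (fun k => (p k + b k) + τ * (Pi.single i 1 : Fin N → ℝ) k) a)
      (((Sh b : Matrix (Mon N D) (Mon N D) ℝ) *ᵥ dd i p) a) 0 := by
    have e1 : (fun τ : ℝ => (vv (fun k => (p k + b k) + τ * (Pi.single i 1 : Fin N → ℝ) k) : Mon N D → ℝ) a) =
        fun τ : ℝ => ∑ c, (Sh b : Matrix (Mon N D) (Mon N D) ℝ) a c *
          vv (fun k => p k + τ * (Pi.single i 1 : Fin N → ℝ) k) c := by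
      funext τ
      have e2 := congrFun (Sh_vv (D := D) b (fun k => p k + τ * (Pi.single i 1 : Fin N → ℝ) k)) a
      have e3 : (fun k => (p k + b k) + τ * (Pi.single i 1 : Fin N → ℝ) k) =
          fun k => (p k + τ * (Pi.single i 1 : Fin N → ℝ) k) + b k := by
        funext k
        ring
      rw [e3, ← e2]
      rfl
    rw [e1]
    unfold Matrix.mulVec dotProduct
    apply HasDerivAt.fun_sum
    intro c _
    have h3 := vv_deriv (D := D) p (Pi.single i 1) c 0
    have e4 : ∑ j, (Pi.single i 1 : Fin N → ℝ) j * (dd j (fun k => p k + 0 * (Pi.single i 1 : Fin N → ℝ) k) : Mon N D → ℝ) c =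
        dd i p c := by
      rw [Finset.sum_eq_single i]
      · rw [Pi.single_eq_same, one_mul]
        simp only [zero_mul, add_zero]
      · intro j _ hj
        rw [Pi.single_eq_of_ne hj, zero_mul]
      · intro h
        exact absurd (Finset.mem_univ i) h
    rw [e4] at h3
    exact h3.const_mul _
  have e5 : ∑ j, (Pi.single i 1 : Fin N → ℝ) j * (dd j (fun k => (p k + b k) + 0 * (Pi.single i 1 : Fin N → ℝ) k) :
      Mon N D → ℝ) a = dd i (fun i => p i + b i) a := by
    rw [Finset.sum_eq_single i]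
    · rw [Pi.single_eq_same, one_mul]
      simp only [zero_mul, add_zero]
    · intro j _ hj
      rw [Pi.single_eq_of_ne hj, zero_mul]
    · intro h
      exact absurd (Finset.mem_univ i) h
  rw [e5] at h1
  exact h2.unique h1

theorem Sh_Wq (b p e : Fin N → ℝ) :
    (Sh b : Matrix (Mon N D) (Mon N D) ℝ) *ᵥ (Wq N D p *ᵥ e) = Wq N D (fun i => p i + b i) *ᵥ e := by
  have h1 : ∀ q : Fin N → ℝ, Wq N D q *ᵥ e = ∑ i, e i • (dd i q : Mon N D → ℝ) := by
    intro q
    funext a
    rw [Finset.sum_apply]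
    show ∑ i, Wq N D q a i * e i = _
    refine Finset.sum_congr rfl fun i _ => ?_
    rw [Pi.smul_apply, smul_eq_mul, mul_comm]
    rfl
  rw [h1, h1]
  have h2 : (Sh b : Matrix (Mon N D) (Mon N D) ℝ) *ᵥ (∑ i, e i • (dd i p : Mon N D → ℝ)) =
      ∑ i, e i • ((Sh b : Matrix (Mon N D) (Mon N D) ℝ) *ᵥ (dd i p : Mon N D → ℝ)) := by
    rw [← Matrix.mulVecLin_apply, map_sum]
    refine Finset.sum_congr rfl fun i _ => ?_
    rw [map_smul, Matrix.mulVecLin_apply]
  rw [h2]
  exact Finset.sum_congr rfl fun i _ => by rw [Sh_mulVec_dd]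

end

end Pool.Agent.Helper38.NSL
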