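import Pool.Agent.Helper38.NSL.Tc
import Pool.Agent.Helper89.LX.Njr

/-! TRUNCATION, part 2 (finite data): the closure `cld r A` of the form `A` under the translations by the nodes of a cell
of side `r`. -/

set_option autoImplicit false

namespace Pool.Agent.Helper38.NSL

open Finset Filter Topology Matrix Pool.Agent.Helper69.RK Pool.Agent.Helper31.EC Pool.Agent.Helper40.EL
open Pool.Agent.Helper89.LX Pool.Agent.Helper3.LF Pool.Agent.Helper59.LF Pool.Agent.Helper84.MT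
open Pool.Agent.Helper95.LF (PdM)

noncomputable section

variable {N D : ℕ}

/-- the translation by the node `j` of a cell of side `r` -/
def ndv (D : ℕ) (r : ℝ) (j : Fin N → Fin (D + 1)) : Fin N → ℝ := fun i => r * nod D (j i)

/-- the closure of a form under the translations by the nodes -/
def cld (r : ℝ) (A : Matrix (Mon N D) (Mon N D) ℝ) : Matrix (Mon N D) (Mon N D) ℝ :=
  ∑ j : Fin N → Fin (D + 1), (Sh (ndv D r j)).transpose * A * Sh (ndv D r j)

theorem cld_qf (r : ℝ) (A : Matrix (Mon N D) (Mon N D) ℝ) (v : Mon N D → ℝ) :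
    qf (cld r A) v = ∑ j : Fin N → Fin (D + 1), qf A (Sh (ndv D r j) *ᵥ v) := by
  unfold qf cld
  rw [dv_sum]
  exact Finset.sum_congr rfl fun j _ => Pool.Agent.Helper95.LF.dv_conj _ _ _

theorem cld_symm (r : ℝ) {A : Matrix (Mon N D) (Mon N D) ℝ} (hA : A.IsSymm) : (cld r A).IsSymm := by
  unfold Matrix.IsSymm cld
  rw [Matrix.transpose_sum]
  refine Finset.sum_congr rfl fun j _ => ?_
  rw [Matrix.transpose_mul, Matrix.transpose_mul, Matrix.transpose_transpose, hA.eq, Matrix.mul_assoc]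

theorem cld_psd (r : ℝ) {A : Matrix (Mon N D) (Mon N D) ℝ} (hA : Psd A) : Psd (cld r A) :=
  ⟨cld_symm r hA.1, fun v => by
    rw [cld_qf]
    exact Finset.sum_nonneg fun j _ => hA.2 _⟩

theorem cld_mono (r : ℝ) {A B : Matrix (Mon N D) (Mon N D) ℝ} {c : ℝ} (h : ∀ v, qf A v ≤ c * qf B v)
    (v : Mon N D → ℝ) : qf (cld r A) v ≤ c * qf (cld r B) v := by
  rw [cld_qf, cld_qf, Finset.mul_sum]
  exact Finset.sum_le_sum fun j _ => h _

theorem cld_Nr (r : ℝ) {A B : Matrix (Mon N D) (Mon N D) ℝ} {a : ℝ} (h : Nr a A B) : Nr a (cld r A) (cld r B) :=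
  ⟨cld_mono r h.1, cld_mono r h.2⟩

theorem nodp_zero (p : Fin N → ℝ) (r : ℝ) : nodp D p r (fun _ => 0) = p := by
  funext i
  unfold nodp nod
  simp

theorem ndv_zero (r : ℝ) : ndv (N := N) D r (fun _ => 0) = 0 := by
  funext i
  unfold ndv nod
  simp

theorem Sh_zero : (Sh (0 : Fin N → ℝ) : Matrix (Mon N D) (Mon N D) ℝ) = 1 := by
  ext a c
  unfold Sh
  rw [Matrix.of_apply]
  by_cases h : a = c
  · subst h
    rw [Matrix.one_apply_eq]
    apply Finset.prod_eq_one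
    intro i _
    simp
  · rw [Matrix.one_apply_ne h]
    have h1 : ∃ i, (a.1 i : ℕ) ≠ (c.1 i : ℕ) := by
      by_contra hc
      push Not at hc
      apply h
      apply Subtype.ext
      funext i
      exact Fin.ext (hc i)
    obtain ⟨i, hi⟩ := h1
    apply Finset.prod_eq_zero (Finset.mem_univ i)
    rcases lt_or_gt_of_ne hi with h2 | h2
    · rw [Nat.choose_eq_zero_of_lt h2]
      simp
    · rw [Pi.zero_apply, zero_pow (by omega), mul_zero]

/-- the form is below its closure -/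
theorem le_cld (r : ℝ) {A : Matrix (Mon N D) (Mon N D) ℝ} (hA : ∀ v, 0 ≤ qf A v) (v : Mon N D → ℝ) :
    qf A v ≤ qf (cld r A) v := by
  rw [cld_qf]
  have h1 := Finset.single_le_sum (f := fun j : Fin N → Fin (D + 1) => qf A (Sh (ndv D r j) *ᵥ v)) (fun j _ => hA _)
    (Finset.mem_univ (fun _ => 0))
  rw [ndv_zero, Sh_zero, Matrix.one_mulVec] at h1
  exact h1

/-- the size of the closure on a smaller cell -/
theorem phi_cld {A : Matrix (Mon N D) (Mon N D) ℝ} (hA : PdM A) {r r' : ℝ} (hr : 0 < r) (h0 : 0 ≤ r') (h1 : r' ≤ r)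
    (p : Fin N → ℝ) : phi r' (cld r A) p ≤ nn N D * (nn N D * (Cu D * Cm N D * 2 ^ D) ^ 2) * phi r A p := by
  have e1 : phi r' (cld r A) p = ∑ j : Fin N → Fin (D + 1), phi r' A (fun i => p i + ndv D r j i) := by
    unfold phi
    rw [Finset.sum_comm (s := (Finset.univ : Finset (Fin N → Fin (D + 1))))]
    refine Finset.sum_congr rfl fun k _ => ?_
    have h2 := cld_qf r A (vv (nodp D p r' k))
    unfold qf at h2
    rw [h2]
    refine Finset.sum_congr rfl fun j _ => ?_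
    rw [Sh_vv]
    have h3 : (fun i => nodp D p r' k i + ndv D r j i) = nodp D (fun i => p i + ndv D r j i) r' k := by
      funext i
      unfold nodp
      ring
    rw [h3]
  rw [e1]
  have h2 : ∀ j ∈ (Finset.univ : Finset (Fin N → Fin (D + 1))), phi r' A (fun i => p i + ndv D r j i) ≤
      nn N D * (Cu D * Cm N D * 2 ^ D) ^ 2 * phi r A p := by
    intro j _
    apply phi_comp A hA r r' 2 hr h0 (by norm_num)
    intro i
    have h4 : p i + ndv D r j i - p i = r * nod D (j i) := by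
      unfold ndv
      ring
    rw [h4, abs_mul, abs_of_pos hr, abs_of_nonneg (nod_nonneg D _)]
    have h5 : r * nod D (j i) ≤ r * 1 := mul_le_mul_of_nonneg_left (nod_le D _ (Nat.le_of_lt_succ (j i).2)) hr.le
    linarith
  refine (Finset.sum_le_card_nsmul _ _ _ h2).trans (le_of_eq ?_)
  rw [nsmul_eq_mul, card_nodes]
  ring

/-- the gradients of the form on the cell are gradients of the closure at the corner -/
theorem Jq_cld {A : Matrix (Mon N D) (Mon N D) ℝ} (hA : ∀ v, 0 ≤ qf A v) (r r' : ℝ) (p e : Fin N → ℝ) :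
    e ⬝ᵥ (Jq r A p *ᵥ e) ≤ e ⬝ᵥ (Jq r' (cld r A) p *ᵥ e) := by
  rw [Jq_qf, Jq_qf]
  have h1 : ∑ j : Fin N → Fin (D + 1), (Wq N D (nodp D p r j) *ᵥ e) ⬝ᵥ (A *ᵥ (Wq N D (nodp D p r j) *ᵥ e)) =
      qf (cld r A) (Wq N D p *ᵥ e) := by
    rw [cld_qf]
    refine Finset.sum_congr rfl fun j _ => ?_
    rw [Sh_Wq]
    rfl
  rw [h1]
  have h2 := Finset.single_le_sum (f := fun j : Fin N → Fin (D + 1) => (Wq N D (nodp D p r' j) *ᵥ e) ⬝ᵥ
    (cld r A *ᵥ (Wq N D (nodp D p r' j) *ᵥ e))) (fun j _ => by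
      have h3 : 0 ≤ qf (cld r A) (Wq N D (nodp D p r' j) *ᵥ e) := by
        rw [cld_qf]
        exact Finset.sum_nonneg fun j _ => hA _
      exact h3) (Finset.mem_univ (fun _ => 0))
  rw [nodp_zero] at h2
  exact h2

/-- the determinants -/
theorem GQ_cld {A : Matrix (Mon N D) (Mon N D) ℝ} (hA : Psd A) (r r' : ℝ) (p : Fin N → ℝ) :
    GQ r A p ≤ GQ r' (cld r A) p := by
  have h1 := GQ_le_of r' r (cld r A) A (cld_symm r hA.1) (cld_psd r hA).2 hA.1 hA.2 p p 1 le_rfl (fun e => by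
    rw [one_mul]
    exact Jq_cld hA.2 r r' p e)
  rw [one_pow, one_mul] at h1
  exact h1

/-- the norm of the translation -/
def shC (N D : ℕ) : ℝ := Fintype.card (Mon N D) * (Fintype.card (Mon N D) * ((2 : ℝ) ^ D) ^ N * ((2 : ℝ) ^ D) ^ N)

theorem Sh_norm {b : Fin N → ℝ} (hb : ∀ i, |b i| ≤ 1) (v : Mon N D → ℝ) :
    ((Sh b : Matrix (Mon N D) (Mon N D) ℝ) *ᵥ v) ⬝ᵥ (Sh b *ᵥ v) ≤ shC N D * (v ⬝ᵥ v) := by
  have h1 : ∀ a c : Mon N D, |Sh b a c| ≤ ((2 : ℝ) ^ D) ^ N := by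
    intro a c
    unfold Sh
    rw [Matrix.of_apply, Finset.abs_prod]
    have h2 : ∀ i ∈ (Finset.univ : Finset (Fin N)), |((a.1 i : ℕ).choose (c.1 i : ℕ) : ℝ) *
        b i ^ ((a.1 i : ℕ) - (c.1 i : ℕ))| ≤ 2 ^ D := by
      intro i _
      rw [abs_mul, abs_pow, Nat.abs_cast]
      have h3 : |b i| ^ ((a.1 i : ℕ) - (c.1 i : ℕ)) ≤ 1 := pow_le_one₀ (abs_nonneg _) (hb i)
      have h4 : ((a.1 i : ℕ).choose (c.1 i : ℕ) : ℝ) ≤ 2 ^ D := by
        have h5 : (a.1 i : ℕ).choose (c.1 i : ℕ) ≤ 2 ^ (a.1 i : ℕ) := Nat.choose_le_two_pow _ _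
        have h6 : 2 ^ (a.1 i : ℕ) ≤ 2 ^ D := Nat.pow_le_pow_right (by norm_num) (Nat.le_of_lt_succ (a.1 i).2)
        exact_mod_cast h5.trans h6
      calc ((a.1 i : ℕ).choose (c.1 i : ℕ) : ℝ) * |b i| ^ ((a.1 i : ℕ) - (c.1 i : ℕ)) ≤ 2 ^ D * 1 :=
            mul_le_mul h4 h3 (by positivity) (by positivity)
        _ = 2 ^ D := mul_one _
    refine (Finset.prod_le_prod (fun i _ => abs_nonneg _) h2).trans (le_of_eq ?_)
    rw [Finset.prod_const, Finset.card_univ, Fintype.card_fin]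
  have h2 : ∀ a : Mon N D, (((Sh b : Matrix (Mon N D) (Mon N D) ℝ) *ᵥ v) a) ^ 2 ≤
      (Fintype.card (Mon N D) * ((2 : ℝ) ^ D) ^ N * ((2 : ℝ) ^ D) ^ N) * (v ⬝ᵥ v) := by
    intro a
    have h3 : ((Sh b : Matrix (Mon N D) (Mon N D) ℝ) *ᵥ v) a = ∑ c, Sh b a c * v c := rfl
    rw [h3]
    have h4 := Finset.sum_mul_sq_le_sq_mul_sq (Finset.univ : Finset (Mon N D)) (fun c => Sh b a c) v
    refine h4.trans ?_
    have h5 : ∑ c, v c ^ 2 = v ⬝ᵥ v := by
      unfold dotProduct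
      exact Finset.sum_congr rfl fun c _ => by ring
    rw [h5]
    apply mul_le_mul_of_nonneg_right _ (dot_self_nonneg v)
    have h6 : ∀ c ∈ (Finset.univ : Finset (Mon N D)), (Sh b a c) ^ 2 ≤ ((2 : ℝ) ^ D) ^ N * ((2 : ℝ) ^ D) ^ N := by
      intro c _
      rw [← sq_abs, sq]
      exact mul_le_mul (h1 a c) (h1 a c) (abs_nonneg _) (by positivity)
    refine (Finset.sum_le_card_nsmul _ _ _ h6).trans (le_of_eq ?_)
    rw [nsmul_eq_mul, Finset.card_univ]
    ring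
  have h3 : ((Sh b : Matrix (Mon N D) (Mon N D) ℝ) *ᵥ v) ⬝ᵥ (Sh b *ᵥ v) =
      ∑ a, (((Sh b : Matrix (Mon N D) (Mon N D) ℝ) *ᵥ v) a) ^ 2 := by
    unfold dotProduct
    exact Finset.sum_congr rfl fun c _ => by ring
  rw [h3]
  refine (Finset.sum_le_card_nsmul _ _ _ fun a _ => h2 a).trans (le_of_eq ?_)
  rw [nsmul_eq_mul, Finset.card_univ]
  unfold shC
  ring

/-- the cap -/
theorem Cpd_cld {c r : ℝ} {A : Matrix (Mon N D) (Mon N D) ℝ} (h : Cpd c A) (hr : 0 ≤ r) (hr1 : r ≤ 1) :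
    Cpd (nn N D * (c * shC N D)) (cld r A) := by
  refine ⟨cld_symm r h.1, fun v => (h.2.1 v).trans (le_cld r h.psd.2 v), fun v => ?_⟩
  rw [cld_qf]
  have hc : 0 ≤ c ∨ ∀ v : Mon N D → ℝ, v ⬝ᵥ v = 0 := by
    by_contra hn
    push Not at hn
    obtain ⟨h1, w, h2⟩ := hn
    have h3 := (h.2.1 w).trans (h.2.2 w)
    have h4 := dot_self_nonneg w
    have h5 : 0 < w ⬝ᵥ w := lt_of_le_of_ne h4 (Ne.symm h2)
    nlinarith
  have h2 : ∀ j ∈ (Finset.univ : Finset (Fin N → Fin (D + 1))), qf A (Sh (ndv D r j) *ᵥ v) ≤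
      c * shC N D * (v ⬝ᵥ v) := by
    intro j _
    refine (h.2.2 _).trans ?_
    have h3 := Sh_norm (D := D) (b := ndv D r j) (fun i => by
      unfold ndv
      rw [abs_mul, abs_of_nonneg hr, abs_of_nonneg (nod_nonneg D _)]
      exact mul_le_one₀ hr1 (nod_nonneg D _) (nod_le D _ (Nat.le_of_lt_succ (j i).2))) v
    rcases hc with hc | hc
    · rw [mul_assoc]
      exact mul_le_mul_of_nonneg_left h3 hc
    · rw [hc, hc v, mul_zero, mul_zero]
  refine (Finset.sum_le_card_nsmul _ _ _ h2).trans (le_of_eq ?_)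
  rw [nsmul_eq_mul, card_nodes]
  ring

end

end Pool.Agent.Helper38.NSL
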