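import Pool.Agent.Helper87.NSL.Inv
import Pool.Agent.Helper49.MD.Cnt
import Pool.Agent.Helper14.MC.Vopt

/-! NSL*, transfer (TRANS): two close forms known to the windows of two types, as a statement of finite data; such forms
do not exist at the exact level if the hull is trivial (GAP); the statement passes to slow limits. -/

set_option autoImplicit false

namespace Pool.Agent.Helper38.NSL

open Finset Filter Topology Matrix Pool.Agent.Helper69.RK Pool.Agent.Helper31.EC Pool.Agent.Helper40.EL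
open Pool.Agent.Helper84.MT Pool.Agent.Helper3.LF Pool.Agent.Helper59.LF Pool.Agent.Helper89.LX
open Pool.Agent.Helper48.NS Pool.Agent.Helper49.MD Pool.Agent.Helper87.NSL
open Pool.Agent.Helper14.MC (gexq gexq_bd gexq_UB gexq_nonneg GQ_dom gx vx vx_UB)
open Pool.Agent.Helper59.EV (sum_split_le)

noncomputable section

variable {M D : ℕ}

/-- exponent of a form at a point, finite data -/
def gxF (F : FSp) (Q : F.Ω → Fin M → ℝ) (A : F.Ω → Matrix (Mon M D) (Mon M D) ℝ) (ω : F.Ω) : ℝ :=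
  Real.logb 2 (GQ (dlF F 1) (A ω) (Q ω)) / (2 * F.n)

/-- the cap of forms of degree `D` -/
def capF (F : FSp) (D : ℕ) : ℝ := (2 : ℝ) ^ ((2 * (D : ℝ) + 1 + 1) * F.n)

/-- TWO CLOSE FORMS, known to the partitions `W`, `W'`; they are close and small at the point up to `2 ^ (e n)` off an event
of probability `e`, and have expected exponent at least `γ` -/
def HasJ (F : FSp) (M D : ℕ) (Q : F.Ω → Fin M → ℝ) (W W' : Setoid F.Ω) (e γ : ℝ) : Prop :=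
  ∃ (A : F.Ω → Prop) (J J' : F.Ω → Matrix (Mon M D) (Mon M D) ℝ),
    F.pb (fun ω => ¬ A ω) ≤ e ∧
    (∀ ω ω', F.μ ω ≠ 0 → F.μ ω' ≠ 0 → F.Z ω ω' → W ω ω' → J ω = J ω') ∧
    (∀ ω ω', F.μ ω ≠ 0 → F.μ ω' ≠ 0 → F.Z ω ω' → W' ω ω' → J' ω = J' ω') ∧
    (∀ ω, F.μ ω ≠ 0 → Cpd (capF F D) (J ω) ∧ Cpd (capF F D) (J' ω)) ∧
    (∀ ω, F.μ ω ≠ 0 → A ω → Nr (e * F.n) (J ω) (J' ω)) ∧
    (∀ ω, F.μ ω ≠ 0 → A ω → phi (dlF F 1) (J ω) (Q ω) ≤ 2 ^ (e * F.n)) ∧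
    γ ≤ ∑ ω, F.μ ω * gxF F Q J ω

theorem Nr.mono {ι : Type} [Fintype ι] {a b : ℝ} (h : a ≤ b) {A A' : Matrix ι ι ℝ} (hA : Psd A) (hA' : Psd A')
    (hn : Nr a A A') : Nr b A A' := by
  have e : (2 : ℝ) ^ a ≤ 2 ^ b := Real.rpow_le_rpow_of_exponent_le (by norm_num) h
  exact ⟨fun y => (hn.1 y).trans (mul_le_mul_of_nonneg_right e (hA'.2 y)),
    fun y => (hn.2 y).trans (mul_le_mul_of_nonneg_right e (hA.2 y))⟩

theorem HasJ.mono {F : FSp} {Q : F.Ω → Fin M → ℝ} {W W' : Setoid F.Ω} {e e' γ γ' : ℝ} (h : HasJ F M D Q W W' e γ)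
    (he : e ≤ e') (hγ : γ' ≤ γ) : HasJ F M D Q W W' e' γ' := by
  obtain ⟨A, J, J', h1, h2, h3, h4, h5, h6, h7⟩ := h
  have hn := F.pos
  have h8 : e * F.n ≤ e' * F.n := mul_le_mul_of_nonneg_right he hn.le
  refine ⟨A, J, J', h1.trans he, h2, h3, h4, fun ω hω hA => ?_, fun ω hω hA => (h6 ω hω hA).trans ?_, hγ.trans h7⟩
  · exact Nr.mono h8 (h4 ω hω).1.psd (h4 ω hω).2.psd (h5 ω hω hA)
  · exact Real.rpow_le_rpow_of_exponent_le (by norm_num) h8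

theorem cp_capF {S : Sp} (Q : S.VV M) (D k : ℕ) : (gaq Q D).cp k = capF (S.F k) D := rfl

theorem gexq_gxF {S : Sp} (Q : S.VV M) (A : ∀ k, (S.F k).Ω → Matrix (Mon M D) (Mon M D) ℝ) (k : ℕ) (ω : (S.F k).Ω) :
    gexq Q A k ω = gxF (S.F k) (Q.v k) (A k) ω := rfl

/-- the exponent is monotone under dominance -/
theorem gexq_dom {S : Sp} {Q : S.VV M} {A B : ∀ k, (S.F k).Ω → Matrix (Mon M D) (Mon M D) ℝ} {k : ℕ} {ω : (S.F k).Ω}
    {c : ℝ} (hA : Cpd c (A k ω)) (hB : Cpd c (B k ω)) {a : ℝ} (ha : 0 ≤ a)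
    (h : ∀ z, qf (B k ω) z ≤ 2 ^ (a * (S.F k).n) * qf (A k ω) z) :
    gexq Q B k ω ≤ gexq Q A k ω + a * M / 2 := by
  have hn := (S.F k).pos
  have h2 := GQ_dom (S.dl 1 k) (A k ω) (B k ω) hA.1 hA.psd.2 hB.1 hB.psd.2 (Q.v k ω) (2 ^ (a * (S.F k).n))
    (Real.one_le_rpow (by norm_num) (by positivity)) h
  have h3 := one_le_GQ (S.dl 1 k) hA.1 hA.psd.2 (Q.v k ω)
  have h4 := one_le_GQ (S.dl 1 k) hB.1 hB.psd.2 (Q.v k ω)
  have h5 := Real.logb_le_logb_of_le (b := 2) (by norm_num) (by linarith) h2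
  rw [Real.logb_mul (by positivity) (by linarith), Real.logb_pow, Real.logb_rpow (by norm_num) (by norm_num)] at h5
  unfold Pool.Agent.Helper14.MC.gexq
  have e1 : Real.logb 2 (GQ (S.dl 1 k) (A k ω) (Q.v k ω)) / (2 * (S.F k).n) + a * M / 2 =
      ((M : ℝ) * (a * (S.F k).n) + Real.logb 2 (GQ (S.dl 1 k) (A k ω) (Q.v k ω))) / (2 * (S.F k).n) := by
    field_simp
    ring
  rw [e1]
  exact div_le_div_of_nonneg_right h5 (by positivity)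

/-- the constant of the bound of exponents -/
def K0 (M D : ℕ) : ℝ := ((2 * (D : ℝ) + 1 + 1) + 3) * M

theorem K0_nonneg (M D : ℕ) : 0 ≤ K0 M D := by
  unfold K0; positivity

/-- expected exponents under dominance off an event of probability `p` -/
theorem gexq_sum_dom {S : Sp} {Q : S.VV M} {J G : ∀ k, (S.F k).Ω → Matrix (Mon M D) (Mon M D) ℝ}
    (hJ : ∀ᶠ k in UF, ∀ ω, (S.F k).μ ω ≠ 0 → Cpd (capF (S.F k) D) (J k ω))
    (hG : ∀ᶠ k in UF, ∀ ω, (S.F k).μ ω ≠ 0 → Cpd (capF (S.F k) D) (G k ω))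
    {a : ℝ} (ha : 0 ≤ a) (A : ∀ k, (S.F k).Ω → Prop)
    (h : ∀ᶠ k in UF, ∀ ω, (S.F k).μ ω ≠ 0 → A k ω → ∀ z, qf (J k ω) z ≤ 2 ^ (a * (S.F k).n) * qf (G k ω) z) :
    ∀ᶠ k in UF, ∑ ω, (S.F k).μ ω * gexq Q J k ω ≤
      ∑ ω, (S.F k).μ ω * gexq Q G k ω + (a * M / 2 + K0 M D * (S.F k).pb (fun ω => ¬ A k ω)) := by
  have hC : (0 : ℝ) ≤ 2 * D + 1 + 1 := by positivity
  filter_upwards [hJ, hG, h, gexq_bd Q J _ hC hJ, gexq_nonneg Q G _ hG] with k b1 b2 b3 b4 b5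
  have h1 := sum_split_le (F := S.F k) (fun ω => gexq Q J k ω - gexq Q G k ω) (A k) (a * M / 2) (K0 M D)
    (by positivity) (K0_nonneg M D) (fun ω hω hA => by
      have := gexq_dom (Q := Q) (A := G) (B := J) (b2 ω hω) (b1 ω hω) ha (b3 ω hω hA)
      show gexq Q J k ω - gexq Q G k ω ≤ a * M / 2
      linarith) (fun ω hω => by
      have h2 := b4 ω hω
      have h3 := b5 ω hω
      show gexq Q J k ω - gexq Q G k ω ≤ K0 M D
      unfold K0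
      linarith)
  have h2 : ∑ ω, (S.F k).μ ω * (gexq Q J k ω - gexq Q G k ω) =
      ∑ ω, (S.F k).μ ω * gexq Q J k ω - ∑ ω, (S.F k).μ ω * gexq Q G k ω := by
    rw [← Finset.sum_sub_distrib]
    exact Finset.sum_congr rfl fun ω _ => by ring
  have h3 : ∑ ω, (S.F k).μ ω * (gexq Q J k ω - gexq Q G k ω) ≤
      a * M / 2 + K0 M D * (S.F k).pb (fun ω => ¬ A k ω) := h1
  rw [h2] at h3
  linarith

/-! ### (i) the exact level -/

variable {S : Sp} {E : ℕ → ℕ} {ι : Type}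

/-- the window of a type as a partition -/
def wn (s : MSys S M E ι) (c : ℝ) (i : ι) (k : ℕ) : Setoid (S.F k).Ω :=
  (s.lf i).La k ⊓ Setoid.ker ((s.lf i).Y.cellv c k)

/-- two close forms for the systems of a space give `TwoJ` -/
theorem twoJ_of_hasJ (s : MSys S M E ι) (c : ℝ) (v v' : ι) (e γ : ℝ)
    (h : ∀ᶠ k in UF, HasJ (S.F k) M D (s.Q.v k) (wn s c v k) (wn s c v' k) e γ) :
    ∃ (A : ∀ k, (S.F k).Ω → Prop) (J J' : ∀ k, (S.F k).Ω → Matrix (Mon M D) (Mon M D) ℝ),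
      TwoJ s D c v v' e A J J' ∧ ∀ᶠ k in UF, (S.F k).pb (fun ω => ¬ A k ω) ≤ e ∧
        γ ≤ ∑ ω, (S.F k).μ ω * gexq s.Q J k ω := by
  classical
  have h1 : ∀ k, ∃ X : ((S.F k).Ω → Prop) × ((S.F k).Ω → Matrix (Mon M D) (Mon M D) ℝ) ×
      ((S.F k).Ω → Matrix (Mon M D) (Mon M D) ℝ), HasJ (S.F k) M D (s.Q.v k) (wn s c v k) (wn s c v' k) e γ →
      (S.F k).pb (fun ω => ¬ X.1 ω) ≤ e ∧
      (∀ ω ω', (S.F k).μ ω ≠ 0 → (S.F k).μ ω' ≠ 0 → (S.F k).Z ω ω' → wn s c v k ω ω' → X.2.1 ω = X.2.1 ω') ∧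
      (∀ ω ω', (S.F k).μ ω ≠ 0 → (S.F k).μ ω' ≠ 0 → (S.F k).Z ω ω' → wn s c v' k ω ω' → X.2.2 ω = X.2.2 ω') ∧
      (∀ ω, (S.F k).μ ω ≠ 0 → Cpd (capF (S.F k) D) (X.2.1 ω) ∧ Cpd (capF (S.F k) D) (X.2.2 ω)) ∧
      (∀ ω, (S.F k).μ ω ≠ 0 → X.1 ω → Nr (e * (S.F k).n) (X.2.1 ω) (X.2.2 ω)) ∧
      (∀ ω, (S.F k).μ ω ≠ 0 → X.1 ω → phi (dlF (S.F k) 1) (X.2.1 ω) (s.Q.v k ω) ≤ 2 ^ (e * (S.F k).n)) ∧
      γ ≤ ∑ ω, (S.F k).μ ω * gxF (S.F k) (s.Q.v k) X.2.1 ω := by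
    intro k
    by_cases hk : HasJ (S.F k) M D (s.Q.v k) (wn s c v k) (wn s c v' k) e γ
    · obtain ⟨A, J, J', h2⟩ := hk
      exact ⟨(A, J, J'), fun _ => h2⟩
    · exact ⟨(fun _ => True, fun _ => 1, fun _ => 1), fun h => absurd h hk⟩
  choose X hX using h1
  refine ⟨fun k => (X k).1, fun k => (X k).2.1, fun k => (X k).2.2, ⟨?_, ?_, ?_, ?_, ?_⟩, ?_⟩
  · filter_upwards [h] with k hk
    exact (hX k hk).2.1
  · filter_upwards [h] with k hk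
    exact (hX k hk).2.2.1
  · filter_upwards [h] with k hk
    exact (hX k hk).2.2.2.1
  · filter_upwards [h] with k hk
    exact (hX k hk).2.2.2.2.1
  · filter_upwards [h] with k hk
    exact (hX k hk).2.2.2.2.2.1
  · filter_upwards [h] with k hk
    exact ⟨(hX k hk).1, (hX k hk).2.2.2.2.2.2⟩

/-- (i), abstract form: if every pair of close forms is dominated by a form without exponent, then there is no pair with
exponent `γ` for `e` small -/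
theorem not_hasJ_core (s : MSys S M E ι) (c : ℝ) (v v' : ι) {C e γ : ℝ} (hC : 0 ≤ C) (he : 0 < e)
    (hgap : ∀ (A : ∀ k, (S.F k).Ω → Prop) (J J' : ∀ k, (S.F k).Ω → Matrix (Mon M D) (Mon M D) ℝ),
      TwoJ s D c v v' e A J J' → ∃ G : ∀ k, (S.F k).Ω → Matrix (Mon M D) (Mon M D) ℝ,
        (∀ᶠ k in UF, ∀ ω, (S.F k).μ ω ≠ 0 → Cpd (capF (S.F k) D) (G k ω)) ∧
        ul (fun k => ∑ ω, (S.F k).μ ω * gexq s.Q G k ω) ≤ 0 ∧
        ∀ᶠ k in UF, ∀ ω, (S.F k).μ ω ≠ 0 → A k ω → ∀ z, qf (J k ω) z ≤ 2 ^ (C * e * (S.F k).n) * qf (G k ω) z)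
    (hγ : (C * M / 2 + K0 M D) * e < γ) :
    ∀ᶠ k in UF, ¬ HasJ (S.F k) M D (s.Q.v k) (wn s c v k) (wn s c v' k) e γ := by
  by_contra hn
  have h1 := UF_not hn
  have h2 : ∀ᶠ k in UF, HasJ (S.F k) M D (s.Q.v k) (wn s c v k) (wn s c v' k) e γ := by
    filter_upwards [h1] with k hk
    exact not_not.mp hk
  obtain ⟨A, J, J', hT, hA⟩ := twoJ_of_hasJ s c v v' e γ h2
  obtain ⟨G, g1, g2, g3⟩ := hgap A J J' hT
  have hC' : (0 : ℝ) ≤ 2 * D + 1 + 1 := by positivity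
  have h3 := gexq_sum_dom (Q := s.Q) (J := J) (G := G) (by
    filter_upwards [hT.cp] with k hk ω hω
    exact (hk ω hω).1) g1 (a := C * e) (by positivity) A g3
  have hU : UB (fun k => ∑ ω, (S.F k).μ ω * gexq s.Q G k ω) := gexq_UB s.Q G _ hC' g1
  have h4 : γ - (C * e * M / 2 + K0 M D * e) ≤ ul (fun k => ∑ ω, (S.F k).μ ω * gexq s.Q G k ω) := by
    apply const_le_ul hU
    filter_upwards [h3, hA] with k a b
    have h5 := mul_le_mul_of_nonneg_left b.1 (K0_nonneg M D)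
    linarith [b.2]
  have h6 : (C * M / 2 + K0 M D) * e = C * e * M / 2 + K0 M D * e := by ring
  linarith

/-- the hull is trivial for the conditions `A`: admissible forms of the space have no exponent -/
def Triv (Q : S.VV M) (D : ℕ) {κ : Type} (A : κ → Part S) : Prop :=
  ∀ x : ∀ k, FD (S.F k) (Mon M D), (gaq Q D).Adf A x → (M : ℝ) ≤ vol Q D x

theorem vx_onG (Q : S.VV M) (G : ∀ k, (S.F k).Ω → Matrix (Mon M D) (Mon M D) ℝ) :
    vx Q (fun k => onG (S.F k) (G k)) = fun k => ∑ ω, (S.F k).μ ω * gexq Q G k ω := rfl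

/-- (i) NO CLOSE FORMS AT THE EXACT LEVEL -/
theorem not_hasJ (hG : GAP M D) : ∃ K : ℝ, 0 ≤ K ∧ ∀ (S : Sp) (E : ℕ → ℕ) (ι : Type) (_ : Finite ι) (s : MSys S M E ι)
    (R : ∀ k, Setoid (S.F k).Ω) (c : ℝ) (v v' : ι) (e γ : ℝ), (∀ k, R k ≤ Setoid.ker (s.Q.cellv 1 k)) → 0 ≤ c → c ≤ 1 →
    0 < e → v ≠ v' → (∀ i, i ≠ v → i ≠ v' → Inv1 s R c v i) → Inv2 s R c v v' → Triv s.Q D (cndR s R c) →
    K * e < γ → ∀ᶠ k in UF, ¬ HasJ (S.F k) M D (s.Q.v k) (wn s c v k) (wn s c v' k) e γ := by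
  obtain ⟨C, hC, h1⟩ := hG
  refine ⟨C * M / 2 + K0 M D, by have := K0_nonneg M D; positivity, ?_⟩
  intro S E ι _ s R c v v' e γ hR h0 hc1 he hv hI1 hI2 hT hγ
  refine not_hasJ_core s c v v' hC he (fun A J J' hJ => ?_) hγ
  obtain ⟨G, g1, g2⟩ := h1 S E ι ‹_› s R c v v' e A J J' hR h0 hc1 he hv hI1 hI2 hJ
  refine ⟨G, ?_, ?_, g2⟩
  · filter_upwards [g1 1 one_pos] with k hk ω hω
    exact (hk.2.1 ω hω).1
  · have h2 := hT _ g1
    rw [Pool.Agent.Helper14.MC.vol_eq, vx_onG] at h2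
    linarith

end

end Pool.Agent.Helper38.NSL
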