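import Pool.Agent.Helper38.NSL.Tr

/-! NSL*, transfer (TRANS), second part: a form of the limit which is known to the windows of two types gives close forms of
finite data; such forms do not exist along slow diagonals, so the form has no exponent. -/

set_option autoImplicit false

namespace Pool.Agent.Helper38.NSL

open Finset Filter Topology Matrix Pool.Agent.Helper69.RK Pool.Agent.Helper31.EC Pool.Agent.Helper31.EC.Sp
open Pool.Agent.Helper40.EL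
open Pool.Agent.Helper84.MT Pool.Agent.Helper3.LF Pool.Agent.Helper59.LF Pool.Agent.Helper89.LX
open Pool.Agent.Helper48.NS Pool.Agent.Helper49.MD Pool.Agent.Helper87.NSL
open Pool.Agent.Helper14.MC (gexq gexq_bd gexq_UB gexq_nonneg GQ_dom gx vx vx_UB vol_eq)
open Pool.Agent.Helper59.EV (sum_split_le)

noncomputable section

variable {M D : ℕ} {S : Sp} {E : ℕ → ℕ} {ι : Type}

/-- THE FORMS OF `x` ARE KNOWN TO THE WINDOW `c` OF THE TYPE `i`, up to `2 ^ (ε n)` for every `ε` -/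
def KnJ (s : MSys S M E ι) (c : ℝ) (i : ι) (x : ∀ k, FD (S.F k) (Mon M D)) : Prop :=
  ∀ ε : ℝ, 0 < ε → ∃ J : ∀ k, (S.F k).Ω → Matrix (Mon M D) (Mon M D) ℝ, KnS (wn s c i) J ∧
    (∀ᶠ k in UF, ∀ ω, (S.F k).μ ω ≠ 0 → Cpd (capF (S.F k) D) (J k ω)) ∧
    Tendsto (fun k => (x k).l.T.pb (fun ω => ¬ Nr (ε * (S.F k).n) ((x k).g ω) (J k ((x k).l.p.π ω)))) UF (𝓝 0)

theorem phi_dom (r : ℝ) {A B : Matrix (Mon M D) (Mon M D) ℝ} {c : ℝ} (p : Fin M → ℝ)
    (h : ∀ z, qf B z ≤ c * qf A z) : phi r B p ≤ c * phi r A p := by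
  unfold phi
  rw [Finset.mul_sum]
  exact Finset.sum_le_sum fun j _ => h _

theorem phi_typ {Q : S.VV M} {κ : Type} {A : κ → Part S} {x : ∀ k, FD (S.F k) (Mon M D)} (hx : (gaq Q D).Adf A x)
    {η : ℝ} (hη : 0 < η) : Tendsto (fun k => (x k).l.T.pb (fun ω =>
      ¬ phi (S.dl 1 k) ((x k).g ω) (Q.v k ((x k).l.p.π ω)) ≤ 2 ^ (η * (S.F k).n))) UF (𝓝 0) := by
  rw [Metric.tendsto_nhds]
  intro e he
  filter_upwards [hx (min η (e / 2)) (lt_min hη (by linarith))] with k hk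
  have h5 := (x k).l.T.pb_nonneg (fun ω =>
      ¬ phi (S.dl 1 k) ((x k).g ω) (Q.v k ((x k).l.p.π ω)) ≤ 2 ^ (η * (S.F k).n))
  rw [Real.dist_eq, sub_zero, abs_of_nonneg h5]
  have h6 : (x k).l.T.pb (fun ω => ¬ phi (S.dl 1 k) ((x k).g ω) (Q.v k ((x k).l.p.π ω)) ≤ 2 ^ (η * (S.F k).n)) ≤
      (x k).l.T.pb (fun ω => ¬ (gaq Q D).φ k ((x k).l.p.π ω) ((x k).g ω) ≤ 2 ^ (min η (e / 2) * (S.F k).n)) := by
    apply FSp.pb_mono
    intro ω _ h7 h8
    apply h7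
    refine le_trans h8 ?_
    apply Real.rpow_le_rpow_of_exponent_le (by norm_num)
    exact mul_le_mul_of_nonneg_right (min_le_left _ _) (S.F k).pos.le
  have h8 := hk.2.2.1
  have h9 : min η (e / 2) ≤ e / 2 := min_le_right _ _
  linarith

theorem pb_or3 {F : FSp} (A B C : F.Ω → Prop) : F.pb (fun ω => A ω ∨ B ω ∨ C ω) ≤ F.pb A + (F.pb B + F.pb C) :=
  (pb_or F _ _).trans (add_le_add le_rfl (pb_or F _ _))

/-- (iii) A FORM KNOWN TO TWO WINDOWS GIVES CLOSE FORMS OF FINITE DATA -/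
theorem hasJ_of_kn (s : MSys S M E ι) (c : ℝ) (v v' : ι) {κ : Type} {A : κ → Part S}
    {x : ∀ k, FD (S.F k) (Mon M D)} (hx : (gaq s.Q D).Adf A x) (h : KnJ s c v x) (h' : KnJ s c v' x) {e γ : ℝ}
    (he : 0 < e) (hγ : γ < ul (vx s.Q x)) :
    ∀ᶠ k in UF, HasJ (S.F k) M D (s.Q.v k) (wn s c v k) (wn s c v' k) e γ := by
  classical
  obtain ⟨g0, hg0⟩ : ∃ g0, g0 = ul (vx s.Q x) := ⟨_, rfl⟩
  rw [← hg0] at hγ
  obtain ⟨ε, hε, hεe, hεM⟩ : ∃ ε : ℝ, 0 < ε ∧ 2 * ε ≤ e ∧ ε * M ≤ (g0 - γ) / 2 := by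
    refine ⟨min (e / 2) ((g0 - γ) / (2 * (M + 1))), lt_min (by linarith) (div_pos (by linarith) (by positivity)), ?_, ?_⟩
    · have := min_le_left (e / 2) ((g0 - γ) / (2 * ((M : ℝ) + 1)))
      linarith
    · have h1 := min_le_right (e / 2) ((g0 - γ) / (2 * ((M : ℝ) + 1)))
      have h2 : min (e / 2) ((g0 - γ) / (2 * ((M : ℝ) + 1))) * M ≤ (g0 - γ) / (2 * ((M : ℝ) + 1)) * M :=
        mul_le_mul_of_nonneg_right h1 (Nat.cast_nonneg M)
      refine h2.trans ?_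
      rw [div_mul_eq_mul_div, div_le_div_iff₀ (by positivity) (by norm_num)]
      have h3 : (0 : ℝ) ≤ M := Nat.cast_nonneg M
      nlinarith
  obtain ⟨J, j1, j2, j3⟩ := h ε hε
  obtain ⟨J', i1, i2, i3⟩ := h' ε hε
  have hφ := phi_typ hx (η := ε) hε
  have hlim : Tendsto (fun k => (x k).l.T.pb (fun ω => ¬ Nr (ε * (S.F k).n) ((x k).g ω) (J k ((x k).l.p.π ω))) +
      ((x k).l.T.pb (fun ω => ¬ Nr (ε * (S.F k).n) ((x k).g ω) (J' k ((x k).l.p.π ω))) +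
      (x k).l.T.pb (fun ω =>
        ¬ phi (S.dl 1 k) ((x k).g ω) (s.Q.v k ((x k).l.p.π ω)) ≤ 2 ^ (ε * (S.F k).n)))) UF (𝓝 0) := by
    have := j3.add (i3.add hφ)
    rwa [add_zero, add_zero] at this
  have hU := vx_UB hx
  have t1 : Tendsto (fun k => vx s.Q x k - (ε * M / 2 + K0 M D * (x k).l.T.pb (fun ω =>
      ¬ Nr (ε * (S.F k).n) ((x k).g ω) (J k ((x k).l.p.π ω))))) UF (𝓝 (g0 - ε * M / 2)) := by
    have h1 := (ul_tendsto hU).sub ((j3.const_mul (K0 M D)).const_add (ε * M / 2))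
    rw [mul_zero, add_zero, ← hg0] at h1
    exact h1
  have hC : (0 : ℝ) ≤ 2 * D + 1 + 1 := by positivity
  have hbd := Pool.Agent.Helper14.MC.adf_cap hx
  have hb2 := gexq_bd (Pool.Agent.Helper14.MC.oQ (Pool.Agent.Helper3.LF.lb x) s.Q) _ ((gaq s.Q D).C + 1)
    (by linarith [(gaq s.Q D).C0]) hbd
  filter_upwards [j1, j2, i1, i2, hlim.eventually (gt_mem_nhds he),
    t1.eventually (lt_mem_nhds (show γ < g0 - ε * M / 2 by linarith)), hx 1 one_pos, hb2,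
    gexq_nonneg s.Q J _ j2] with k b1 b2 b3 b4 b5 b6 b7 b8 b9
  have hn := (S.F k).pos
  refine ⟨fun ω => Nr (e * (S.F k).n) (J k ω) (J' k ω) ∧ phi (S.dl 1 k) (J k ω) (s.Q.v k ω) ≤ 2 ^ (e * (S.F k).n),
    J k, J' k, ?_, b1, b3, fun ω hω => ⟨b2 ω hω, b4 ω hω⟩, fun ω _ hA => hA.1, fun ω _ hA => hA.2, ?_⟩
  · have h1 := pb_push (x k).l.p (fun ω => ¬ (Nr (e * (S.F k).n) (J k ω) (J' k ω) ∧
      phi (S.dl 1 k) (J k ω) (s.Q.v k ω) ≤ 2 ^ (e * (S.F k).n)))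
    rw [← h1]
    refine le_trans (le_trans (FSp.pb_mono _ (E' := fun ω =>
      (¬ Nr (ε * (S.F k).n) ((x k).g ω) (J k ((x k).l.p.π ω))) ∨
      (¬ Nr (ε * (S.F k).n) ((x k).g ω) (J' k ((x k).l.p.π ω))) ∨
      (¬ phi (S.dl 1 k) ((x k).g ω) (s.Q.v k ((x k).l.p.π ω)) ≤ 2 ^ (ε * (S.F k).n))) ?_) (pb_or3 _ _ _)) b5.le
    intro ω hω h2
    by_contra hc
    push Not at hc
    obtain ⟨c1, c2, c3⟩ := hc
    have hs := (x k).l.p.supp ω hω
    apply h2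
    have p1 := (b2 _ hs).psd
    have p2 := (b4 _ hs).psd
    have e1 : ε * (S.F k).n + ε * (S.F k).n ≤ e * (S.F k).n := by nlinarith
    refine ⟨Nr.mono e1 p1 p2 (c1.symm.trans c2), ?_⟩
    refine (phi_dom _ _ c1.2).trans ?_
    have h3 := mul_le_mul_of_nonneg_left c3 (show (0 : ℝ) ≤ 2 ^ (ε * (S.F k).n) by positivity)
    refine h3.trans ?_
    rw [← Real.rpow_add (by norm_num)]
    exact Real.rpow_le_rpow_of_exponent_le (by norm_num) e1
  · have h1 := sum_split_le (F := (x k).l.T)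
      (fun ω => gx s.Q k ((x k).l.p.π ω) ((x k).g ω) - gexq s.Q J k ((x k).l.p.π ω))
      (fun ω => Nr (ε * (S.F k).n) ((x k).g ω) (J k ((x k).l.p.π ω))) (ε * M / 2) (K0 M D) (by positivity)
      (K0_nonneg M D) (by
        intro ω hω hE
        have hs := (x k).l.p.supp ω hω
        have c1 := (b7.2.1 ω hω).1
        have c2 := b2 _ hs
        have h2 := GQ_dom (S.dl 1 k) (J k ((x k).l.p.π ω)) ((x k).g ω) c2.1 c2.psd.2 c1.1 c1.psd.2
          (s.Q.v k ((x k).l.p.π ω)) (2 ^ (ε * (S.F k).n)) (Real.one_le_rpow (by norm_num) (by positivity)) hE.1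
        have h3 := one_le_GQ (S.dl 1 k) c2.1 c2.psd.2 (s.Q.v k ((x k).l.p.π ω))
        have h4 := one_le_GQ (S.dl 1 k) c1.1 c1.psd.2 (s.Q.v k ((x k).l.p.π ω))
        have h5 := Real.logb_le_logb_of_le (b := 2) (by norm_num) (by linarith) h2
        rw [Real.logb_mul (by positivity) (by linarith), Real.logb_pow,
          Real.logb_rpow (by norm_num) (by norm_num)] at h5
        show Real.logb 2 (GQ (S.dl 1 k) ((x k).g ω) (s.Q.v k ((x k).l.p.π ω))) / (2 * (S.F k).n) -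
          Real.logb 2 (GQ (S.dl 1 k) (J k ((x k).l.p.π ω)) (s.Q.v k ((x k).l.p.π ω))) / (2 * (S.F k).n) ≤ ε * M / 2
        rw [← sub_div, div_le_div_iff₀ (by positivity) (by norm_num)]
        have h6 : (M : ℝ) * (ε * (S.F k).n) * 2 = ε * M * (2 * (S.F k).n) := by ring
        nlinarith) (by
        intro ω hω
        have hs := (x k).l.p.supp ω hω
        have d1 := b8 ω hω
        have d2 := b9 _ hs
        have f1 : gexq (Pool.Agent.Helper14.MC.oQ (Pool.Agent.Helper3.LF.lb x) s.Q)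
            (fun k (ω : (x k).l.T.Ω) => (x k).g ω) k ω = gx s.Q k ((x k).l.p.π ω) ((x k).g ω) := by
          unfold gexq gx
          rw [Pool.Agent.Helper42.NS.osp_dl, Pool.Agent.Helper14.MC.osp_n]
          rfl
        rw [f1] at d1
        have f2 : ((gaq s.Q D).C + 1 + 3) * (M : ℝ) = K0 M D := rfl
        rw [f2] at d1
        show gx s.Q k ((x k).l.p.π ω) ((x k).g ω) - gexq s.Q J k ((x k).l.p.π ω) ≤ K0 M D
        linarith)
    have h2 : ∑ ω, (x k).l.T.μ ω * (gx s.Q k ((x k).l.p.π ω) ((x k).g ω) - gexq s.Q J k ((x k).l.p.π ω)) =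
        vx s.Q x k - ∑ ω, (S.F k).μ ω * gexq s.Q J k ω := by
      have h3 := sum_push (x k).l.p (fun ω => gexq s.Q J k ω)
      rw [← h3]
      unfold Pool.Agent.Helper14.MC.vx
      rw [← Finset.sum_sub_distrib]
      exact Finset.sum_congr rfl fun ω _ => by ring
    have h3 : ∑ ω, (x k).l.T.μ ω * (gx s.Q k ((x k).l.p.π ω) ((x k).g ω) - gexq s.Q J k ((x k).l.p.π ω)) ≤
        ε * M / 2 + K0 M D * (x k).l.T.pb (fun ω => ¬ Nr (ε * (S.F k).n) ((x k).g ω) (J k ((x k).l.p.π ω))) := h1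
    rw [h2] at h3
    show γ ≤ ∑ ω, (S.F k).μ ω * gexq s.Q J k ω
    linarith

/-! ### (ii) slow limits -/

/-- the slowness conditions of the transfer -/
def trE {S : ℕ → Sp} (Q : ∀ j, (S j).VV M) (W W' : ∀ j k, Setoid ((S j).F k).Ω) (D : ℕ) (K : ℝ) (i j k : ℕ) : Prop :=
  ∀ q : ℚ × ℚ, Encodable.decode i = some q → (0 : ℝ) < q.1 → K * q.1 < q.2 →
    ¬ HasJ ((S j).F k) M D ((Q j).v k) (W j k) (W' j k) q.1 q.2

theorem trE_ev {S : ℕ → Sp} {Q : ∀ j, (S j).VV M} {W W' : ∀ j k, Setoid ((S j).F k).Ω} {K : ℝ}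
    (h : ∀ j (e γ : ℝ), 0 < e → K * e < γ → ∀ᶠ k in UF, ¬ HasJ ((S j).F k) M D ((Q j).v k) (W j k) (W' j k) e γ)
    (i j : ℕ) : ∀ᶠ k in UF, trE Q W W' D K i j k := by
  cases hd : (Encodable.decode i : Option (ℚ × ℚ)) with
  | none =>
    refine Eventually.of_forall fun k q hq => ?_
    rw [hd] at hq
    exact absurd hq (by simp)
  | some q =>
    by_cases h1 : (0 : ℝ) < q.1 ∧ K * q.1 < q.2
    · filter_upwards [h j q.1 q.2 h1.1 h1.2] with k hk q' hq' _ _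
      rw [hd] at hq'
      obtain rfl := Option.some_injective _ hq'
      exact hk
    · refine Eventually.of_forall fun k q' hq' h2 h3 => ?_
      rw [hd] at hq'
      obtain rfl := Option.some_injective _ hq'
      exact absurd ⟨h2, h3⟩ h1

/-- (ii) NO CLOSE FORMS ALONG SLOW DIAGONALS -/
theorem lim_not_hasJ {S : ℕ → Sp} {Q : ∀ j, (S j).VV M} {W W' : ∀ j k, Setoid ((S j).F k).Ω} {K : ℝ} {J : ℕ → ℕ}
    (h : Slo S (trE Q W W' D K) J) {e γ : ℝ} (he : 0 < e) (hK : 0 ≤ K) (hγ : K * e < γ) :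
    ∀ᶠ k in UF, ¬ HasJ ((S (J k)).F k) M D ((Q (J k)).v k) (W (J k) k) (W' (J k) k) e γ := by
  -- rational parameters
  obtain ⟨q2, h1, h2⟩ := exists_rat_btwn hγ
  obtain ⟨q1, h3, h4⟩ : ∃ q1 : ℚ, e < q1 ∧ K * q1 < q2 := by
    obtain ⟨q1, a, b⟩ := exists_rat_btwn (show e < e + ((q2 : ℝ) - K * e) / (K + 1) by
      have : 0 < ((q2 : ℝ) - K * e) / (K + 1) := div_pos (by linarith) (by linarith)
      linarith)
    refine ⟨q1, a, ?_⟩
    rcases hK.eq_or_lt with h0 | h0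
    · rw [← h0] at h1 ⊢
      rw [zero_mul] at h1 ⊢
      exact h1
    · have h5 : K * q1 < K * (e + ((q2 : ℝ) - K * e) / (K + 1)) := mul_lt_mul_of_pos_left b h0
      have h6 : K * (e + ((q2 : ℝ) - K * e) / (K + 1)) ≤ q2 := by
        have h7 : K * (((q2 : ℝ) - K * e) / (K + 1)) ≤ (q2 : ℝ) - K * e := by
          rw [mul_div_assoc', div_le_iff₀ (by linarith)]
          nlinarith
        linarith
      linarith
  filter_upwards [h.slow (Encodable.encode ((q1, q2) : ℚ × ℚ))] with k hk hJ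
  exact hk (q1, q2) (Encodable.encodek _) (he.trans h3) h4 (hJ.mono h3.le h2.le)

/-- the window of a type of a given object -/
theorem giv_wn {s : MSys S M E ι} {x : (KM M ι).Ob S} (h : Giv s x) (c : ℝ) (i : ι) :
    ∀ᶠ k in UF, wn s c i k = (((x k : FMs (S.F k).Ω M ι).lf i).La ⊓
      Setoid.ker fun ω => cell (dlF (S.F k) c) (((x k : FMs (S.F k).Ω M ι).lf i).Y ω)) := by
  filter_upwards [h.2 i] with k hk
  show (lob (s.lf i) k).La ⊓ Setoid.ker (fun ω => cell (dlF (S.F k) c) ((lob (s.lf i) k).Y ω)) = _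
  rw [hk]

/-- TRANSFER, general form: if the systems `s j` have no pairs of close forms with exponent, then the forms of a slow
limit which are known to the two windows have no exponent -/
theorem trans_core {S : ℕ → Sp} (s : ∀ j, MSys (S j) M E ι) (c : ℝ) (v v' : ι) {K : ℝ} (hK : 0 ≤ K) {J : ℕ → ℕ}
    (h : Slo S (trE (fun j => (s j).Q) (fun j => wn (s j) c v) (fun j => wn (s j) c v') D K) J)
    {t : MSys (dsp S J h.lim) M E ι} (ht : Giv t ((KM M ι).dgo S (fun j => ob (s j)) J h.lim)) {κ : Type}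
    {A : κ → Part (dsp S J h.lim)} {x : ∀ k, FD ((dsp S J h.lim).F k) (Mon M D)} (hx : (gaq t.Q D).Adf A x)
    (hv : KnJ t c v x) (hv' : KnJ t c v' x) : (M : ℝ) ≤ vol t.Q D x := by
  rw [vol_eq]
  by_contra hc
  have h1 : 0 < ul (vx t.Q x) := by linarith
  obtain ⟨γ, hγ, hγ2⟩ : ∃ γ, 0 < γ ∧ γ < ul (vx t.Q x) := ⟨ul (vx t.Q x) / 2, by linarith, by linarith⟩
  obtain ⟨e, he, he2⟩ : ∃ e : ℝ, 0 < e ∧ K * e < γ := by
    refine ⟨γ / (2 * (K + 1)), by positivity, ?_⟩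
    rw [mul_div_assoc', div_lt_iff₀ (by positivity)]
    nlinarith
  have h2 := hasJ_of_kn t c v v' hx hv hv' he hγ2
  have h3 := lim_not_hasJ h he hK he2
  have h4 := giv_wn ht c v
  have h5 := giv_wn ht c v'
  obtain ⟨k, a1, a2, a3, a4, a5⟩ := (h2.and (h3.and (h4.and (h5.and ht.1)))).exists
  apply a2
  have e1 : wn t c v k = wn (s (J k)) c v k := a3
  have e2 : wn t c v' k = wn (s (J k)) c v' k := a4
  have e3 : t.Q.v k = (s (J k)).Q.v k := a5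
  rw [← e1, ← e2, ← e3]
  exact a1

/-- TRANSFER -/
theorem trans [Finite ι] (hG : GAP M D) {S : ℕ → Sp} (s : ∀ j, MSys (S j) M E ι) (R : ∀ j k, Setoid ((S j).F k).Ω)
    (c : ℝ) (v v' : ι) (hR : ∀ j k, R j k ≤ Setoid.ker ((s j).Q.cellv 1 k)) (h0 : 0 ≤ c) (h1 : c ≤ 1) (hv : v ≠ v')
    (hI1 : ∀ j i, i ≠ v → i ≠ v' → Inv1 (s j) (R j) c v i) (hI2 : ∀ j, Inv2 (s j) (R j) c v v')
    (hT : ∀ j, Triv (s j).Q D (cndR (s j) (R j) c)) :
    ∃ Rel : ℕ → ℕ → ℕ → Prop, (∀ i j, ∀ᶠ k in UF, Rel i j k) ∧ ∀ (J : ℕ → ℕ) (h : Slo S Rel J)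
      (t : MSys (dsp S J h.lim) M E ι), Giv t ((KM M ι).dgo S (fun j => ob (s j)) J h.lim) →
      ∀ (κ : Type) (A : κ → Part (dsp S J h.lim)) (x : ∀ k, FD ((dsp S J h.lim).F k) (Mon M D)),
        (gaq t.Q D).Adf A x → KnJ t c v x → KnJ t c v' x → (M : ℝ) ≤ vol t.Q D x := by
  obtain ⟨K, hK, h2⟩ := not_hasJ hG
  refine ⟨trE (fun j => (s j).Q) (fun j => wn (s j) c v) (fun j => wn (s j) c v') D K,
    trE_ev fun j e γ he hγ => h2 (S j) E ι ‹_› (s j) (R j) c v v' e γ (hR j) h0 h1 he hv (hI1 j) (hI2 j) (hT j) hγ,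
    fun J h t ht κ A x hx k1 k2 => trans_core s c v v' hK h ht hx k1 k2⟩

end

end Pool.Agent.Helper38.NSL
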