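import Pool.Agent.Helper38.NSL.Tr2
import Pool.Agent.Helper66.MT.Gap

/-! NSL*, transfer (TRANS) with the gap theorem. -/

set_option autoImplicit false

namespace Pool.Agent.Helper38.NSL

open Finset Filter Topology Matrix Pool.Agent.Helper69.RK Pool.Agent.Helper31.EC Pool.Agent.Helper31.EC.Sp
open Pool.Agent.Helper40.EL
open Pool.Agent.Helper84.MT Pool.Agent.Helper3.LF Pool.Agent.Helper59.LF Pool.Agent.Helper89.LX
open Pool.Agent.Helper48.NS Pool.Agent.Helper49.MD Pool.Agent.Helper87.NSL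

noncomputable section

variable {M : ℕ} {E : ℕ → ℕ} {ι : Type}

/-- TRANSFER: systems whose forms of the exact level are trivial; a form of a slow limit which is known to the windows of
two types has no exponent -/
theorem transg [Finite ι] (D : ℕ) {S : ℕ → Sp} (s : ∀ j, MSys (S j) M E ι) (R : ∀ j k, Setoid ((S j).F k).Ω)
    (c : ℝ) (v v' : ι) (hR : ∀ j k, R j k ≤ Setoid.ker ((s j).Q.cellv 1 k)) (h0 : 0 ≤ c) (h1 : c ≤ 1) (hv : v ≠ v')
    (hI1 : ∀ j i, i ≠ v → i ≠ v' → Inv1 (s j) (R j) c v i) (hI2 : ∀ j, Inv2 (s j) (R j) c v v')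
    (hT : ∀ j, Triv (s j).Q D (cndR (s j) (R j) c)) :
    ∃ Rel : ℕ → ℕ → ℕ → Prop, (∀ i j, ∀ᶠ k in UF, Rel i j k) ∧ ∀ (J : ℕ → ℕ) (h : Slo S Rel J)
      (t : MSys (dsp S J h.lim) M E ι), Giv t ((KM M ι).dgo S (fun j => ob (s j)) J h.lim) →
      ∀ (κ : Type) (A : κ → Part (dsp S J h.lim)) (x : ∀ k, FD ((dsp S J h.lim).F k) (Mon M D)),
        (gaq t.Q D).Adf A x → KnJ t c v x → KnJ t c v' x → (M : ℝ) ≤ vol t.Q D x :=
  trans (Pool.Agent.Helper66.MT.gap M D) s R c v v' hR h0 h1 hv hI1 hI2 hT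

end

end Pool.Agent.Helper38.NSL
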